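import Mathlib

/-! Attaching lines to a surface. -/

open Set Filter Topology

namespace Pool.Agent.PCM

/-- gluing data: for every index `i` an open subset `O i` of `E` and a continuous open map from
`O i` to `X`; the points of `E` outside `O i` are added to `X`. -/
structure Glue (X E : Type) [TopologicalSpace X] [TopologicalSpace E] where
  I : Type
  O : I → Set E
  ψ : I → E → X
  isOpen_O : ∀ i, IsOpen (O i)
  cont : ∀ i, ContinuousOn (ψ i) (O i)
  opn : ∀ i V, IsOpen V → V ⊆ O i → IsOpen (ψ i '' V)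
  dense : ∀ i p, p ∉ O i → p ∈ closure (O i)
  sep0 : ∀ i p, p ∉ O i → ∀ x, Disjoint (map (ψ i) (𝓝[O i] p)) (𝓝 x)
  sep1 : ∀ i p, p ∉ O i → ∀ j q, q ∉ O j → (i, p) ≠ (j, q) →
    Disjoint (map (ψ i) (𝓝[O i] p)) (map (ψ j) (𝓝[O j] q))
  inj : ∀ i p, p ∉ O i → ∃ V ∈ 𝓝 p, InjOn (ψ i) (V ∩ O i)

namespace Glue

variable {X E : Type} [TopologicalSpace X] [TopologicalSpace E] (d : Glue X E)

/-- the glued space -/
def M : Type := X ⊕ (Σ i : d.I, {p : E // p ∉ d.O i})

/-- inclusion of `X` -/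
def inc (x : X) : d.M := Sum.inl x

open Classical in
/-- the extended map -/
noncomputable def hat (i : d.I) (p : E) : d.M :=
  if h : p ∈ d.O i then Sum.inl (d.ψ i p) else Sum.inr ⟨i, p, h⟩

theorem hat_of_mem {i : d.I} {p : E} (h : p ∈ d.O i) : d.hat i p = d.inc (d.ψ i p) := dif_pos h

theorem hat_of_notMem {i : d.I} {p : E} (h : p ∉ d.O i) : d.hat i p = Sum.inr ⟨i, p, h⟩ :=
  dif_neg h

noncomputable instance : TopologicalSpace d.M where
  IsOpen U := IsOpen (d.inc ⁻¹' U) ∧ ∀ i, IsOpen (d.hat i ⁻¹' U)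
  isOpen_univ := ⟨isOpen_univ, fun _ => isOpen_univ⟩
  isOpen_inter _ _ h h' := ⟨h.1.inter h'.1, fun i => (h.2 i).inter (h'.2 i)⟩
  isOpen_sUnion S hS := by
    refine ⟨?_, fun i => ?_⟩
    · rw [preimage_sUnion]
      exact isOpen_biUnion fun t ht => (hS t ht).1
    · rw [preimage_sUnion]
      exact isOpen_biUnion fun t ht => (hS t ht).2 i

theorem isOpen_iff {U : Set d.M} :
    IsOpen U ↔ IsOpen (d.inc ⁻¹' U) ∧ ∀ i, IsOpen (d.hat i ⁻¹' U) := Iff.rfl

theorem inc_injective : Function.Injective d.inc := fun _ _ h => Sum.inl.inj h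

theorem continuous_inc : Continuous d.inc := ⟨fun _ hU => hU.1⟩

theorem continuous_hat (i : d.I) : Continuous (d.hat i) := ⟨fun _ hU => hU.2 i⟩

theorem preimage_inc_image_hat (i : d.I) (V : Set E) :
    d.inc ⁻¹' (d.hat i '' V) = d.ψ i '' (V ∩ d.O i) := by
  ext x
  constructor
  · rintro ⟨p, hp, hpx⟩
    by_cases h : p ∈ d.O i
    · rw [hat_of_mem _ h] at hpx
      exact ⟨p, ⟨hp, h⟩, d.inc_injective hpx⟩
    · rw [hat_of_notMem _ h] at hpx
      cases hpx
  · rintro ⟨p, ⟨hp, h⟩, rfl⟩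
    exact ⟨p, hp, hat_of_mem _ h⟩

theorem isOpenMap_inc : IsOpenMap d.inc := by
  intro U hU
  refine ⟨?_, fun i => ?_⟩
  · rw [preimage_image_eq _ d.inc_injective]
    exact hU
  · have h1 : d.hat i ⁻¹' (d.inc '' U) = d.O i ∩ d.ψ i ⁻¹' U := by
      ext p
      constructor
      · rintro ⟨x, hx, hxp⟩
        by_cases h : p ∈ d.O i
        · rw [hat_of_mem _ h] at hxp
          refine ⟨h, ?_⟩
          change d.ψ i p ∈ U
          rw [← d.inc_injective hxp]
          exact hx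
        · rw [hat_of_notMem _ h] at hxp
          cases hxp
      · rintro ⟨h, hx⟩
        exact ⟨d.ψ i p, hx, (hat_of_mem _ h).symm⟩
    rw [h1]
    exact (d.cont i).isOpen_inter_preimage (d.isOpen_O i) hU

theorem isOpenEmbedding_inc : IsOpenEmbedding d.inc :=
  .of_continuous_injective_isOpenMap d.continuous_inc d.inc_injective d.isOpenMap_inc

theorem isOpenMap_hat (i : d.I) : IsOpenMap (d.hat i) := by
  intro V hV
  refine ⟨?_, fun j => ?_⟩
  · rw [preimage_inc_image_hat]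
    exact d.opn i _ (hV.inter (d.isOpen_O i)) inter_subset_right
  · have h0 : IsOpen (d.O j ∩ d.ψ j ⁻¹' (d.ψ i '' (V ∩ d.O i))) :=
      (d.cont j).isOpen_inter_preimage (d.isOpen_O j)
        (d.opn i _ (hV.inter (d.isOpen_O i)) inter_subset_right)
    by_cases hij : i = j
    · subst hij
      have h1 : d.hat i ⁻¹' (d.hat i '' V) =
          (d.O i ∩ d.ψ i ⁻¹' (d.ψ i '' (V ∩ d.O i))) ∪ V := by
        ext p
        constructor
        · rintro ⟨q, hq, hqp⟩
          by_cases h : p ∈ d.O i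
          · left
            refine ⟨h, ?_⟩
            have h2 : d.ψ i p ∈ d.inc ⁻¹' (d.hat i '' V) := ⟨q, hq, by rw [hqp, hat_of_mem _ h]⟩
            rwa [preimage_inc_image_hat] at h2
          · right
            rw [hat_of_notMem _ h] at hqp
            by_cases h2 : q ∈ d.O i
            · rw [hat_of_mem _ h2] at hqp
              cases hqp
            · rw [hat_of_notMem _ h2] at hqp
              have h3 := Sum.inr.inj hqp
              simp only [Sigma.mk.injEq, heq_eq_eq, true_and, Subtype.mk.injEq] at h3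
              rw [← h3]
              exact hq
        · rintro (⟨h, q, ⟨hq, hq2⟩, hqp⟩ | h)
          · refine ⟨q, hq, ?_⟩
            rw [hat_of_mem _ hq2, hat_of_mem _ h, hqp]
          · exact ⟨p, h, rfl⟩
      rw [h1]
      exact h0.union hV
    · have h1 : d.hat j ⁻¹' (d.hat i '' V) = d.O j ∩ d.ψ j ⁻¹' (d.ψ i '' (V ∩ d.O i)) := by
        ext p
        constructor
        · rintro ⟨q, hq, hqp⟩
          by_cases h : p ∈ d.O j
          · refine ⟨h, ?_⟩
            have h2 : d.ψ j p ∈ d.inc ⁻¹' (d.hat i '' V) := ⟨q, hq, by rw [hqp, hat_of_mem _ h]⟩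
            rwa [preimage_inc_image_hat] at h2
          · exfalso
            rw [hat_of_notMem _ h] at hqp
            by_cases h2 : q ∈ d.O i
            · rw [hat_of_mem _ h2] at hqp
              cases hqp
            · rw [hat_of_notMem _ h2] at hqp
              have h3 := Sum.inr.inj hqp
              exact hij (congrArg Sigma.fst h3)
        · rintro ⟨h, q, ⟨hq, hq2⟩, hqp⟩
          refine ⟨q, hq, ?_⟩
          rw [hat_of_mem _ hq2, hat_of_mem _ h, hqp]
      rw [h1]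
      exact h0

theorem denseRange_inc : DenseRange d.inc := by
  intro m
  rcases m with x | ⟨i, p, hp⟩
  · exact subset_closure ⟨x, rfl⟩
  · have h1 := d.dense i p hp
    have h2 : d.hat i p ∈ closure (d.hat i '' d.O i) :=
      image_closure_subset_closure_image (d.continuous_hat i) ⟨p, h1, rfl⟩
    rw [hat_of_notMem _ hp] at h2
    refine closure_mono ?_ h2
    rintro _ ⟨q, hq, rfl⟩
    exact ⟨d.ψ i q, (hat_of_mem _ hq).symm⟩

theorem disjoint_new {i j : d.I} {p q : E} (hp : p ∉ d.O i) (hq : q ∉ d.O j)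
    (hne : (i, p) ≠ (j, q)) (hE : i = j → ∃ V ∈ 𝓝 p, ∃ W ∈ 𝓝 q, Disjoint V W) :
    Disjoint (𝓝 (d.hat i p)) (𝓝 (d.hat j q)) := by
  classical
  obtain ⟨S, hS, S', hS', hSS⟩ := Filter.disjoint_iff.1 (d.sep1 i p hp j q hq hne)
  rw [mem_map, mem_nhdsWithin_iff_exists_mem_nhds_inter] at hS hS'
  obtain ⟨V, hV, hVS⟩ := hS
  obtain ⟨W, hW, hWS⟩ := hS'
  obtain ⟨V', hV', W', hW', hVW⟩ : ∃ V' ∈ 𝓝 p, ∃ W' ∈ 𝓝 q, i = j → Disjoint V' W' := by
    by_cases hij : i = j
    · obtain ⟨V', hV', W', hW', h⟩ := hE hij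
      exact ⟨V', hV', W', hW', fun _ => h⟩
    · exact ⟨univ, univ_mem, univ, univ_mem, fun h => absurd h hij⟩
  refine Filter.disjoint_iff.2 ⟨d.hat i '' (V ∩ V'),
    (d.isOpenMap_hat i).image_mem_nhds (inter_mem hV hV'), d.hat j '' (W ∩ W'),
    (d.isOpenMap_hat j).image_mem_nhds (inter_mem hW hW'), ?_⟩
  rw [disjoint_left]
  rintro _ ⟨a, ⟨ha, ha'⟩, rfl⟩ ⟨b, ⟨hb, hb'⟩, hab⟩
  by_cases h1 : a ∈ d.O i
  · rw [hat_of_mem _ h1] at hab
    by_cases h2 : b ∈ d.O j
    · rw [hat_of_mem _ h2] at hab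
      have h3 := d.inc_injective hab
      have h4 : d.ψ i a ∈ S := hVS ⟨ha, h1⟩
      have h5 : d.ψ j b ∈ S' := hWS ⟨hb, h2⟩
      rw [h3] at h5
      exact disjoint_left.1 hSS h4 h5
    · rw [hat_of_notMem _ h2] at hab
      cases hab
  · rw [hat_of_notMem _ h1] at hab
    by_cases h2 : b ∈ d.O j
    · rw [hat_of_mem _ h2] at hab
      cases hab
    · rw [hat_of_notMem _ h2] at hab
      have h3 := Sum.inr.inj hab
      have hij : j = i := congrArg Sigma.fst h3
      subst hij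
      simp only [Sigma.mk.injEq, heq_eq_eq, true_and, Subtype.mk.injEq] at h3
      subst h3
      exact disjoint_left.1 (hVW rfl) ha' hb'

theorem disjoint_old_new {i : d.I} {p : E} (hp : p ∉ d.O i) (x : X) :
    Disjoint (𝓝 (d.hat i p)) (𝓝 (d.inc x)) := by
  obtain ⟨S, hS, S', hS', hSS⟩ := Filter.disjoint_iff.1 (d.sep0 i p hp x)
  rw [mem_map, mem_nhdsWithin_iff_exists_mem_nhds_inter] at hS
  obtain ⟨V, hV, hVS⟩ := hS
  refine Filter.disjoint_iff.2 ⟨d.hat i '' V, (d.isOpenMap_hat i).image_mem_nhds hV, d.inc '' S',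
    d.isOpenMap_inc.image_mem_nhds hS', ?_⟩
  rw [disjoint_left]
  rintro _ ⟨a, ha, rfl⟩ ⟨b, hb, hab⟩
  by_cases h1 : a ∈ d.O i
  · rw [hat_of_mem _ h1] at hab
    have h3 := d.inc_injective hab
    have h4 : d.ψ i a ∈ S := hVS ⟨ha, h1⟩
    rw [← h3] at h4
    exact disjoint_left.1 hSS h4 hb
  · rw [hat_of_notMem _ h1] at hab
    cases hab

theorem eq_inc_or_hat (m : d.M) : (∃ x, m = d.inc x) ∨ ∃ i p, p ∉ d.O i ∧ m = d.hat i p := by
  rcases m with x | ⟨i, p, hp⟩
  · exact Or.inl ⟨x, rfl⟩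
  · exact Or.inr ⟨i, p, hp, (hat_of_notMem _ hp).symm⟩

theorem t2Space [T2Space X] [T2Space E] : T2Space d.M := by
  rw [t2Space_iff_disjoint_nhds]
  intro m m' hne
  rcases d.eq_inc_or_hat m with ⟨x, rfl⟩ | ⟨i, p, hp, rfl⟩ <;>
    rcases d.eq_inc_or_hat m' with ⟨x', rfl⟩ | ⟨i', p', hp', rfl⟩
  · have h1 : x ≠ x' := fun h => hne (by rw [h])
    obtain ⟨U, hU, V, hV, hUV⟩ := Filter.disjoint_iff.1 (disjoint_nhds_nhds.2 h1)
    exact Filter.disjoint_iff.2 ⟨d.inc '' U, d.isOpenMap_inc.image_mem_nhds hU, d.inc '' V,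
      d.isOpenMap_inc.image_mem_nhds hV, disjoint_image_of_injective d.inc_injective hUV⟩
  · exact (d.disjoint_old_new hp' x).symm
  · exact d.disjoint_old_new hp x'
  · have h1 : (i, p) ≠ (i', p') := by
      rintro h
      obtain ⟨rfl, rfl⟩ := Prod.mk.inj h
      exact hne rfl
    refine d.disjoint_new hp hp' h1 fun hii => ?_
    subst hii
    have h2 : p ≠ p' := fun h => h1 (by rw [h])
    exact Filter.disjoint_iff.1 (disjoint_nhds_nhds.2 h2)

theorem exists_embedding (m : d.M) : ∃ (S : Type) (_ : TopologicalSpace S) (f : S → d.M),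
    IsOpenEmbedding f ∧ m ∈ range f ∧ ((∃ g : S → E, IsOpenEmbedding g) ∨
      ∃ g : S → X, IsOpenEmbedding g) := by
  rcases d.eq_inc_or_hat m with ⟨x, rfl⟩ | ⟨i, p, hp, rfl⟩
  · exact ⟨X, _, d.inc, d.isOpenEmbedding_inc, ⟨x, rfl⟩, Or.inr ⟨id, IsOpenEmbedding.id⟩⟩
  · obtain ⟨V, hV, hVinj⟩ := d.inj i p hp
    obtain ⟨W, hWV, hW, hpW⟩ := mem_nhds_iff.1 hV
    refine ⟨W, _, fun w => d.hat i w, ?_, ⟨⟨p, hpW⟩, rfl⟩, Or.inl ⟨Subtype.val,
      hW.isOpenEmbedding_subtypeVal⟩⟩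
    refine .of_continuous_injective_isOpenMap ((d.continuous_hat i).comp continuous_subtype_val)
      ?_ ((d.isOpenMap_hat i).comp hW.isOpenMap_subtype_val)
    rintro ⟨a, ha⟩ ⟨b, hb⟩ hab
    simp only at hab
    rw [Subtype.mk.injEq]
    by_cases h1 : a ∈ d.O i
    · rw [hat_of_mem _ h1] at hab
      by_cases h2 : b ∈ d.O i
      · rw [hat_of_mem _ h2] at hab
        exact hVinj ⟨hWV ha, h1⟩ ⟨hWV hb, h2⟩ (d.inc_injective hab)
      · rw [hat_of_notMem _ h2] at hab
        cases hab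
    · rw [hat_of_notMem _ h1] at hab
      by_cases h2 : b ∈ d.O i
      · rw [hat_of_mem _ h2] at hab
        cases hab
      · rw [hat_of_notMem _ h2] at hab
        have h3 := Sum.inr.inj hab
        simp only [Sigma.mk.injEq, heq_eq_eq, true_and, Subtype.mk.injEq] at h3
        exact h3

theorem bddAbove_of_cluster (hcl : ∀ u : ℕ → X, ∃ m : d.M, MapClusterPt m atTop (d.inc ∘ u))
    (f : d.M → ℝ) (hf : Continuous f) : BddAbove (range f) := by
  by_contra hcon
  rw [not_bddAbove_iff] at hcon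
  have h1 : ∀ n : ℕ, ∃ x : X, (n : ℝ) < f (d.inc x) := by
    intro n
    obtain ⟨_, ⟨m, rfl⟩, hm⟩ := hcon n
    have h2 : IsOpen (f ⁻¹' Ioi (n : ℝ)) := isOpen_Ioi.preimage hf
    obtain ⟨_, hx, ⟨x, rfl⟩⟩ := d.denseRange_inc.inter_open_nonempty _ h2 ⟨m, hm⟩
    exact ⟨x, hx⟩
  choose u hu using h1
  obtain ⟨m, hm⟩ := hcl u
  have h2 := hm.continuousAt_comp hf.continuousAt
  have h3 : ∃ᶠ n in atTop, (f ∘ d.inc ∘ u) n < f m + 1 :=
    h2.frequently (Iio_mem_nhds (lt_add_one _))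
  have h4 : ∀ᶠ n : ℕ in atTop, f m + 1 ≤ (n : ℝ) :=
    tendsto_natCast_atTop_atTop.eventually_ge_atTop _
  obtain ⟨n, h5, h6⟩ := (h3.and_eventually h4).exists
  have h7 := hu n
  simp only [Function.comp_apply] at h5
  linarith

end Glue

/-- the plane as a Euclidean space -/
noncomputable def planeHomeo : (ℝ × ℝ) ≃ₜ EuclideanSpace ℝ (Fin 2) :=
  ((EuclideanSpace.equiv (Fin 2) ℝ).toHomeomorph.trans
    (ContinuousLinearEquiv.finTwoArrow ℝ ℝ).toHomeomorph).symm

theorem exists_chart {S M : Type} [TopologicalSpace S] [TopologicalSpace M] {f : S → M}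
    (hf : IsOpenEmbedding f) {g : S → ℝ × ℝ} (hg : IsOpenEmbedding g) {m : M} (hm : m ∈ range f) :
    ∃ e : OpenPartialHomeomorph M (EuclideanSpace ℝ (Fin 2)), m ∈ e.source := by
  obtain ⟨s, rfl⟩ := hm
  have : Nonempty S := ⟨s⟩
  refine ⟨((hf.toOpenPartialHomeomorph f).symm.trans (hg.toOpenPartialHomeomorph g)).trans
    planeHomeo.toOpenPartialHomeomorph, ?_⟩
  simp

/-- the final assembly of the topology -/
theorem final (d : Glue {p : ℝ × ℝ // 0 < p.2} (ℝ × ℝ))
    (hcl : ∀ u : ℕ → {p : ℝ × ℝ // 0 < p.2}, ∃ m : d.M, MapClusterPt m atTop (d.inc ∘ u))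
    (hne : ∃ i, ∀ n : ℕ, ((n : ℝ), (0 : ℝ)) ∉ d.O i) :
    ∃ (X : Type) (_ : TopologicalSpace X),
      T2Space X ∧ ConnectedSpace X ∧
      (∃ n : ℕ, Nonempty (ChartedSpace (EuclideanSpace ℝ (Fin n)) X)) ∧
      (∀ f : X → ℝ, Continuous f → BddAbove (Set.range f)) ∧
      (∃ u : ℕ → X, ∀ x : X, ¬ MapClusterPt x Filter.atTop u) := by
  have hopen : IsOpen {p : ℝ × ℝ | 0 < p.2} := isOpen_lt continuous_const continuous_snd
  refine ⟨d.M, inferInstance, d.t2Space, ?_, ⟨2, ?_⟩, d.bddAbove_of_cluster hcl, ?_⟩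
  · have h1 : IsPreconnected {p : ℝ × ℝ | 0 < p.2} := by
      apply Convex.isPreconnected
      intro p hp q hq a b ha hb hab
      have hp' : 0 < p.2 := hp
      have hq' : 0 < q.2 := hq
      change 0 < a * p.2 + b * q.2
      rcases ha.eq_or_lt with rfl | ha
      · have : b = 1 := by linarith
        subst this
        linarith
      · have h1 := mul_pos ha hp'
        have h2 := mul_nonneg hb hq'.le
        linarith
    have h2 : PreconnectedSpace {p : ℝ × ℝ // 0 < p.2} := isPreconnected_iff_preconnectedSpace.1 h1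
    have h3 := d.denseRange_inc.preconnectedSpace d.continuous_inc
    exact { h3 with toNonempty := ⟨d.inc ⟨(0, 1), by norm_num⟩⟩ }
  · have h1 : ∀ m : d.M, ∃ e : OpenPartialHomeomorph d.M (EuclideanSpace ℝ (Fin 2)),
        m ∈ e.source := by
      intro m
      obtain ⟨S, _, f, hf, hm, h2 | h2⟩ := d.exists_embedding m
      · obtain ⟨g, hg⟩ := h2
        exact exists_chart hf hg hm
      · obtain ⟨g, hg⟩ := h2
        exact exists_chart hf (hopen.isOpenEmbedding_subtypeVal.comp hg) hm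
    choose e he using h1
    exact ⟨{ atlas := range e, chartAt := e, mem_chart_source := he,
             chart_mem_atlas := fun x => ⟨x, rfl⟩ }⟩
  · obtain ⟨i, hi⟩ := hne
    refine ⟨fun n => d.hat i ((n : ℝ), 0), ?_⟩
    intro m hm
    rcases d.eq_inc_or_hat m with ⟨x, rfl⟩ | ⟨j, p, hp, rfl⟩
    · have h1 : range d.inc ∈ 𝓝 (d.inc x) := d.isOpenEmbedding_inc.isOpen_range.mem_nhds ⟨x, rfl⟩
      obtain ⟨n, y, hy⟩ := (hm.frequently h1).exists
      rw [d.hat_of_notMem (hi n)] at hy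
      cases hy
    · have h1 : d.hat j '' (Iio (p.1 + 1) ×ˢ univ) ∈ 𝓝 (d.hat j p) := by
        refine (d.isOpenMap_hat j).image_mem_nhds ?_
        exact (isOpen_Iio.prod isOpen_univ).mem_nhds ⟨by simp, mem_univ _⟩
      have h4 : ∀ᶠ n : ℕ in atTop, p.1 + 1 ≤ (n : ℝ) :=
        tendsto_natCast_atTop_atTop.eventually_ge_atTop _
      obtain ⟨n, ⟨q, hq, hqn⟩, hn⟩ := ((hm.frequently h1).and_eventually h4).exists
      rw [d.hat_of_notMem (hi n)] at hqn
      by_cases h2 : q ∈ d.O j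
      · rw [d.hat_of_mem h2] at hqn
        cases hqn
      · rw [d.hat_of_notMem h2] at hqn
        have h3 := Sum.inr.inj hqn
        have hij : j = i := congrArg Sigma.fst h3
        subst hij
        simp only [Sigma.mk.injEq, heq_eq_eq, true_and, Subtype.mk.injEq] at h3
        subst h3
        have h5 : (n : ℝ) < p.1 + 1 := hq.1
        linarith

end Pool.Agent.PCM
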