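import Pool.Agent.Lib_MP_08983e_gt.Geom
import Pool.Agent.Lib_MP_08983e_gt.Attach

/-! Coordinates on the pieces. -/

open Set Filter Topology

namespace Pool.Agent.PCM

noncomputable def toHP (q : ℝ × ℝ) : HP :=
  if h : 0 < q.2 then ⟨q, h⟩ else ⟨(0, 1), one_pos⟩

theorem toHP_val {q : ℝ × ℝ} (h : 0 < q.2) : (toHP q).1 = q := by
  unfold toHP
  rw [dif_pos h]

theorem toHP_coe (u : HP) : toHP u.1 = u := Subtype.ext (toHP_val u.2)

theorem isOpen_hp : IsOpen {p : ℝ × ℝ | 0 < p.2} := isOpen_lt continuous_const continuous_snd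

theorem continuousAt_toHP {q : ℝ × ℝ} (h : 0 < q.2) : ContinuousAt toHP q := by
  have h1 : IsOpenEmbedding (Subtype.val : HP → ℝ × ℝ) := isOpen_hp.isOpenEmbedding_subtypeVal
  have h2 : ContinuousAt toHP ((⟨q, h⟩ : HP) : ℝ × ℝ) := by
    rw [← h1.continuousAt_iff]
    have h3 : toHP ∘ (Subtype.val : HP → ℝ × ℝ) = id := by
      ext1 u
      exact toHP_coe u
    rw [h3]
    exact continuousAt_id
  exact h2

/-- the denominator -/
def pN (q : ℝ × ℝ) : ℝ := (1 - q.2 + q.1 * q.2) ^ 2 + q.2 ^ 2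

theorem pN_pos (q : ℝ × ℝ) : 0 < pN q := by
  unfold pN
  rcases eq_or_ne q.2 0 with h | h
  · rw [h]; norm_num
  · have := sq_pos_of_ne_zero h
    positivity

/-- the parametrisation of the half plane by `ℝ × (0,1)` belonging to a pair of end points -/
noncomputable def pF (p : Pc) (q : ℝ × ℝ) : ℝ × ℝ :=
  ((p.1.2 * q.2 ^ 2 * (1 + q.1 ^ 2) + (p.1.1 + p.1.2) * q.1 * q.2 * (1 - q.2) +
      p.1.1 * (1 - q.2) ^ 2) / pN q,
    (p.1.2 - p.1.1) * q.2 * (1 - q.2) / pN q)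

/-- the second coordinate of the inverse -/
noncomputable def pf (p : Pc) (u : HP) : ℝ :=
  u.1.2 * (p.1.2 - p.1.1) /
    ((p.1.2 - u.1.1) ^ 2 + u.1.2 ^ 2 + u.1.2 * (p.1.2 - p.1.1))

/-- the first coordinate of the inverse -/
noncomputable def pb (p : Pc) (u : HP) : ℝ := bet p.1.1 p.1.2 u.1.1 u.1.2

theorem near_iff (m : ℕ) (u : HP) (p : Pc) : near m u p ↔ |pb p u| ≤ m := Iff.rfl

theorem pF_pos (p : Pc) {q : ℝ × ℝ} (h0 : 0 < q.2) (h1 : q.2 < 1) : 0 < (pF p q).2 := by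
  unfold pF
  have := p.2
  exact div_pos (mul_pos (mul_pos (by linarith) h0) (by linarith)) (pN_pos q)

theorem pf_den_pos (p : Pc) (u : HP) :
    0 < (p.1.2 - u.1.1) ^ 2 + u.1.2 ^ 2 + u.1.2 * (p.1.2 - p.1.1) := by
  have h1 : 0 < p.1.2 - p.1.1 := sub_pos.2 p.2
  have h2 := u.2
  positivity

theorem pf_pos (p : Pc) (u : HP) : 0 < pf p u := by
  unfold pf
  have h1 : 0 < p.1.2 - p.1.1 := sub_pos.2 p.2
  have h2 := u.2
  exact div_pos (mul_pos h2 h1) (pf_den_pos p u)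

theorem pf_lt_one (p : Pc) (u : HP) : pf p u < 1 := by
  unfold pf
  rw [div_lt_one (pf_den_pos p u)]
  have h2 := u.2
  have : 0 < (p.1.2 - u.1.1) ^ 2 + u.1.2 ^ 2 := by positivity
  linarith

theorem continuous_pF (p : Pc) : Continuous (pF p) := by
  unfold pF
  have h1 : Continuous pN := by unfold pN; fun_prop
  refine Continuous.prodMk ?_ ?_
  · exact Continuous.div (by fun_prop) h1 (fun q => (pN_pos q).ne')
  · exact Continuous.div (by fun_prop) h1 (fun q => (pN_pos q).ne')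

theorem continuous_pf (p : Pc) : Continuous (pf p) := by
  unfold pf
  exact Continuous.div (by fun_prop) (by fun_prop) (fun u => (pf_den_pos p u).ne')

theorem continuous_pb (p : Pc) : Continuous (pb p) := by
  unfold pb bet
  refine Continuous.div (by fun_prop) (by fun_prop) (fun u => ?_)
  have h1 : 0 < p.1.2 - p.1.1 := sub_pos.2 p.2
  exact (mul_pos h1 u.2).ne'

theorem pF_inv (p : Pc) (u : HP) : pF p (pb p u, pf p u) = u.1 := by
  have h1 : 0 < p.1.2 - p.1.1 := sub_pos.2 p.2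
  have h2 := u.2
  have h3 := pf_den_pos p u
  obtain ⟨⟨a, b⟩, hab⟩ := p
  obtain ⟨⟨x, y⟩, hy⟩ := u
  simp only at hab hy h1 h2 h3
  have hN : pN (pb ⟨(a, b), hab⟩ ⟨(x, y), hy⟩, pf ⟨(a, b), hab⟩ ⟨(x, y), hy⟩) =
      (b - a) ^ 2 * ((b - x) ^ 2 + y ^ 2) / ((b - x) ^ 2 + y ^ 2 + y * (b - a)) ^ 2 := by
    unfold pN pb pf bet
    simp only
    field_simp
    ring
  have h4 : 0 < (b - x) ^ 2 + y ^ 2 := by positivity
  unfold pF
  rw [hN]
  unfold pb pf bet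
  simp only
  refine Prod.ext ?_ ?_
  · simp only
    field_simp
    ring
  · simp only
    field_simp
    ring

theorem toHP_pF_inv (p : Pc) (u : HP) : toHP (pF p (pb p u, pf p u)) = u := by
  rw [pF_inv, toHP_coe]

theorem pF_eqs (p : Pc) {q : ℝ × ℝ} (h0 : 0 < q.2) (h1 : q.2 < 1) :
    ((pF p q).1 - p.1.1) = (pF p q).2 * (q.1 + (1 + q.1 ^ 2) * q.2 / (1 - q.2)) ∧
    (p.1.2 - (pF p q).1) = (pF p q).2 * (q.1 + (1 - q.2) / q.2) := by
  have hN := pN_pos q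
  have h2 : 0 < 1 - q.2 := by linarith
  unfold pF
  simp only
  constructor
  · field_simp
    unfold pN
    ring
  · field_simp
    unfold pN
    ring

theorem pb_toHP (p : Pc) {q : ℝ × ℝ} (h0 : 0 < q.2) (h1 : q.2 < 1) : pb p (toHP (pF p q)) = q.1 := by
  obtain ⟨e1, e2⟩ := pF_eqs p h0 h1
  have hy := pF_pos p h0 h1
  unfold pb
  rw [toHP_val hy]
  unfold bet
  rw [e1, e2]
  have h2 : 0 < 1 - q.2 := by linarith
  have h3 : p.1.2 - p.1.1 = (pF p q).2 * (q.1 + (1 + q.1 ^ 2) * q.2 / (1 - q.2)) +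
      (pF p q).2 * (q.1 + (1 - q.2) / q.2) := by
    rw [← e1, ← e2]; ring
  have hab : 0 < p.1.2 - p.1.1 := sub_pos.2 p.2
  rw [div_eq_iff (mul_pos hab hy).ne', h3]
  obtain ⟨y, hy'⟩ : ∃ y, y = (pF p q).2 := ⟨_, rfl⟩
  rw [← hy'] at *
  field_simp
  ring

theorem pf_toHP (p : Pc) {q : ℝ × ℝ} (h0 : 0 < q.2) (h1 : q.2 < 1) : pf p (toHP (pF p q)) = q.2 := by
  obtain ⟨e1, e2⟩ := pF_eqs p h0 h1
  have hy := pF_pos p h0 h1
  have h2 : 0 < 1 - q.2 := by linarith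
  have h3 : p.1.2 - p.1.1 = (pF p q).2 * (q.1 + (1 + q.1 ^ 2) * q.2 / (1 - q.2)) +
      (pF p q).2 * (q.1 + (1 - q.2) / q.2) := by
    rw [← e1, ← e2]; ring
  have hd := pf_den_pos p (toHP (pF p q))
  unfold pf
  rw [div_eq_iff hd.ne']
  rw [toHP_val hy]
  rw [e2, h3]
  field_simp
  ring

end Pool.Agent.PCM
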