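import Pool.Agent.Lib_MP_08983e_gt.Windows

/-! The family of threads. -/

open Set Filter Topology Cardinal

namespace Pool.Agent.PCM

/-- a disjoint family of dense sets of reals -/
theorem exists_dense_family {J : Type} (hJ : #J ≤ 𝔠) : ∃ D : J → Set ℝ,
    (∀ j a b, a < b → ∃ x ∈ D j, a < x ∧ x < b) ∧
    (∀ j j' x, x ∈ D j → x ∈ D j' → j = j') ∧ ∀ j (q : ℚ), (q : ℝ) ∉ D j := by
  let H : AddSubgroup ℝ := (Rat.castHom ℝ).toAddMonoidHom.range
  have hHc : #H ≤ ℵ₀ := by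
    have : Countable H := by
      have h1 : (H : Set ℝ) = range (fun q : ℚ => (q : ℝ)) := by
        ext x
        rfl
      have h2 : (H : Set ℝ).Countable := by rw [h1]; exact countable_range _
      exact h2.to_subtype
    exact mk_le_aleph0
  have hQ : 𝔠 ≤ #(ℝ ⧸ H) := by
    by_contra hcon
    rw [not_le] at hcon
    have h1 : #ℝ = #(ℝ ⧸ H) * #H := by
      rw [mul_def]
      exact mk_congr AddSubgroup.addGroupEquivQuotientProdAddSubgroup
    have h2 := mul_lt_of_lt aleph0_le_continuum hcon (hHc.trans_lt aleph0_lt_continuum)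
    rw [← h1, mk_real] at h2
    exact lt_irrefl _ h2
  have hJ' : #(Option J) ≤ #(ℝ ⧸ H) := by
    refine le_trans ?_ hQ
    rw [mk_option]
    exact (add_le_add hJ le_rfl).trans (le_of_eq (by simpa using continuum_add_nat 1))
  obtain ⟨g⟩ := hJ'
  have hcoset : ∀ (z : ℝ ⧸ H) (x y : ℝ), (x : ℝ ⧸ H) = z → (∃ q : ℚ, y = x + q) → (y : ℝ ⧸ H) = z := by
    rintro z x y hx ⟨q, rfl⟩
    rw [← hx]
    rw [QuotientAddGroup.eq]
    refine ⟨-q, ?_⟩
    simp
  refine ⟨fun j => {x | (x : ℝ ⧸ H) = g (some j) - g none}, ?_, ?_, ?_⟩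
  · intro j a b hab
    obtain ⟨x, hx⟩ := QuotientAddGroup.mk_surjective (g (some j) - g none)
    obtain ⟨q, h1, h2⟩ := exists_rat_btwn (show a - x < b - x by linarith)
    exact ⟨x + q, hcoset _ x _ hx ⟨q, rfl⟩, by linarith, by linarith⟩
  · intro j j' x hx hx'
    have h1 : g (some j) - g none = g (some j') - g none := hx.symm.trans hx'
    have h2 : g (some j) = g (some j') := by simpa using h1
    exact Option.some.inj (g.injective h2)
  · intro j q hq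
    have h1 : ((q : ℝ) : ℝ ⧸ H) = 0 := by
      rw [QuotientAddGroup.eq_zero_iff]
      exact ⟨q, rfl⟩
    have h2 : (0 : ℝ ⧸ H) = g (some j) - g none := h1.symm.trans hq
    have h3 : g (some j) = g none := (sub_eq_zero.1 h2.symm)
    exact absurd (g.injective h3) (by simp)

/-- the threads -/
structure TD where
  Z : Type
  c : Z → Option ℝ
  P : Z → ℤ → Pc
  sepP : ∀ z z', c z = c z' → ∀ m, ∃ N : ℕ, ∀ k k' : ℤ, N ≤ k.natAbs → N ≤ k'.natAbs →
    (z, k) ≠ (z', k') → sep m (P z k) (P z' k')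
  tangP : ∀ z m, ∀ S ∈ tang (c z), ∃ N : ℕ, ∀ k : ℤ, N ≤ k.natAbs → ∀ v, near m v (P z k) → v ∈ S
  endA : ∀ z z' k k', (P z k).1.1 = (P z' k').1.1 → z = z' ∧ k = k'
  endB : ∀ z z' k k', (P z k).1.2 = (P z' k').1.2 → z = z' ∧ k = k'
  endAB : ∀ z z' k k', (P z k).1.1 ≠ (P z' k').1.2
  ratA : ∀ z k (q : ℚ), (P z k).1.1 ≠ q
  ratB : ∀ z k (q : ℚ), (P z k).1.2 ≠ q
  cat : ∀ (c : Option ℝ) (v : ℕ → HP), Tendsto v atTop (tang c) →
    ∃ z m, ∀ N : ℕ, ∃ j, N ≤ j ∧ ∃ k : ℤ, N ≤ k.natAbs ∧ near m (v j) (P z k)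

theorem exists_TD : ∃ _ : TD, True := by
  classical
  have hΘ : #(ℕ → HP) ≤ 𝔠 := by
    have h1 : #HP ≤ 𝔠 := by
      refine (mk_subtype_le _).trans ?_
      simp [mk_real]
    have h2 : #(ℕ → HP) = #HP ^ ℵ₀ := by simp
    rw [h2]
    calc #HP ^ ℵ₀ ≤ 𝔠 ^ ℵ₀ := power_le_power_right h1
      _ = 𝔠 := continuum_power_aleph0
  obtain ⟨T, r, A, task, hwf, htr, hTc, hAinf, hAD, htask, hD⟩ := base_tree (Θ := ℕ → HP) hΘ
  have hJ : #(Option ℝ × Bool × T × ℕ × Bool) ≤ 𝔠 := by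
    have h1 : #(Option ℝ × Bool × T × ℕ × Bool) = #(Option ℝ) * (2 * (#T * (ℵ₀ * 2))) := by
      simp
    have h2 : #(Option ℝ) ≤ 𝔠 := by
      rw [mk_option, mk_real]
      exact le_of_eq (by simpa using continuum_add_nat 1)
    have h3 : (2 : Cardinal) ≤ 𝔠 := (nat_lt_continuum 2).le
    rw [h1]
    calc #(Option ℝ) * (2 * (#T * (ℵ₀ * 2))) ≤ 𝔠 * (𝔠 * (𝔠 * (𝔠 * 𝔠))) :=
          mul_le_mul' h2 (mul_le_mul' h3 (mul_le_mul' hTc (mul_le_mul' aleph0_le_continuum h3)))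
      _ = 𝔠 := by simp
  obtain ⟨D, hDd, hDdis, hDq⟩ := exists_dense_family hJ
  let allowed : Option ℝ → Bool → T → ℕ → Set Pc := fun c σ t k =>
    {q | q.1.1 ∈ D (c, σ, t, k, false) ∧ q.1.2 ∈ D (c, σ, t, k, true)}
  have hlane : ∀ c σ t k u i, (lane u i ∩ allowed c σ t k).Nonempty := by
    intro c σ t k u i
    have hu := u.2
    have hp := (half_pow_bounds i).1
    have hpu : 0 < (1 / 2 : ℝ) ^ i * u.1.2 := mul_pos hp hu
    obtain ⟨a, ha, ha1, ha2⟩ := hDd (c, σ, t, k, false)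
      (u.1.1 - u.1.2 - 7 / 8 * (1 / 2) ^ i * u.1.2)
      (u.1.1 - u.1.2 - 5 / 8 * (1 / 2) ^ i * u.1.2) (by nlinarith)
    obtain ⟨b, hb, hb1, hb2⟩ := hDd (c, σ, t, k, true)
      (u.1.1 + u.1.2 + 5 / 8 * (1 / 2) ^ i * u.1.2)
      (u.1.1 + u.1.2 + 7 / 8 * (1 / 2) ^ i * u.1.2) (by nlinarith)
    exact ⟨⟨(a, b), by nlinarith⟩, ⟨ha1, ha2, hb1, hb2⟩, ha, hb⟩
  have hth := fun c σ => exists_threads hwf htr hAD htask hD near sep sep_symm lane (allowed c σ)
    (hlane c σ) near_lane lanes_sep (valid c σ) (valid.mono (c := c) (σ := σ))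
  choose S A' p h1 h2 h3 using hth
  let Z : Type := {z : Option ℝ × Bool × T // z.2.2 ∈ S z.1 z.2.1}
  let E : Z → Set ℕ := fun z => A' z.1.1 z.1.2.1 z.1.2.2
  have hE : ∀ z : Z, (E z).Infinite := fun z => (h1 _ _ _ z.2).1
  have hv : ∀ z : Z, valid z.1.1 z.1.2.1 (E z) (task z.1.2.2) := fun z => (h1 _ _ _ z.2).2.1
  have hpl : ∀ z : Z, ∀ k, ∃ i, p z.1.1 z.1.2.1 z.1.2.2 k ∈ lane (task z.1.2.2 k) i :=
    fun z k => ((h1 _ _ _ z.2).2.2 k).2
  have hpa : ∀ z : Z, ∀ k, p z.1.1 z.1.2.1 z.1.2.2 k ∈ allowed z.1.1 z.1.2.1 z.1.2.2 k :=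
    fun z k => ((h1 _ _ _ z.2).2.2 k).1
  have hw : ∀ z : Z, Nonempty (ℤ ≃ E z) := by
    intro z
    have := (hE z).to_subtype
    exact nonempty_equiv_of_countable
  let w : ∀ z : Z, ℤ ≃ E z := fun z => Classical.choice (hw z)
  have hwN : ∀ z : Z, ∀ N : ℕ, ∃ N' : ℕ, ∀ k : ℤ, N' ≤ k.natAbs → N ≤ (w z k).1 := by
    intro z N
    have hfin : {k : ℤ | (w z k).1 < N}.Finite := by
      refine Finite.of_finite_image (f := fun k => (w z k).1)
        ((finite_lt_nat N).subset ?_) ?_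
      · rintro _ ⟨k, hk, rfl⟩
        exact hk
      · intro k _ k' _ hkk
        exact (w z).injective (Subtype.ext hkk)
    obtain ⟨N', hN'⟩ := (hfin.image Int.natAbs).bddAbove
    refine ⟨N' + 1, fun k hk => ?_⟩
    by_contra hcon
    have := hN' ⟨k, not_le.1 hcon, rfl⟩
    omega
  let P : Z → ℤ → Pc := fun z k => p z.1.1 z.1.2.1 z.1.2.2 (w z k).1
  have hPa : ∀ z k, (P z k).1.1 ∈ D (z.1.1, z.1.2.1, z.1.2.2, (w z k).1, false) :=
    fun z k => (hpa z _).1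
  have hPb : ∀ z k, (P z k).1.2 ∈ D (z.1.1, z.1.2.1, z.1.2.2, (w z k).1, true) :=
    fun z k => (hpa z _).2
  refine ⟨⟨Z, fun z => z.1.1, P, ?_, ?_, ?_, ?_, ?_, ?_, ?_, ?_⟩, trivial⟩
  · intro z z' hzz m
    have hvz := hv z
    have hvz' := hv z'
    rw [← hzz] at hvz'
    obtain ⟨N1, hN1⟩ := valid_sep hvz hvz' (hpl z) (hpl z') m
    obtain ⟨N2, hN2⟩ : ∃ N2 : ℕ, ∀ k : ℕ, N2 ≤ k → k ∈ E z → k ∈ E z' → z ≠ z' →
        z.1.2.1 = z'.1.2.1 →
        sep m (p z.1.1 z.1.2.1 z.1.2.2 k) (p z'.1.1 z'.1.2.1 z'.1.2.2 k) := by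
      by_cases hne : z ≠ z' ∧ z.1.2.1 = z'.1.2.1
      · obtain ⟨hne, hσ⟩ := hne
        obtain ⟨⟨c, σ, t⟩, hz⟩ := z
        obtain ⟨⟨c', σ', t'⟩, hz'⟩ := z'
        simp only at hzz hσ
        subst hzz
        subst hσ
        have htt : t ≠ t' := by
          intro h
          subst h
          exact hne rfl
        obtain ⟨N, hN⟩ := h2 c σ t hz t' hz' htt m
        exact ⟨N, fun k hk h4 h5 _ _ => hN k hk h4 h5⟩
      · exact ⟨0, fun k _ _ _ h4 h5 => absurd ⟨h4, h5⟩ hne⟩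
    obtain ⟨M1, hM1⟩ := hwN z (max N1 N2)
    obtain ⟨M2, hM2⟩ := hwN z' (max N1 N2)
    refine ⟨max M1 M2, fun k k' hk hk' hne => ?_⟩
    have e1 := hM1 k ((le_max_left _ _).trans hk)
    have e2 := hM2 k' ((le_max_right _ _).trans hk')
    by_cases hσ : z.1.2.1 = z'.1.2.1
    · by_cases hww : (w z k).1 = (w z' k').1
      · have hzne : z ≠ z' := by
          intro h
          subst h
          exact hne (by rw [(w z).injective (Subtype.ext hww)])
        have h4 := hN2 (w z k).1 ((le_max_right _ _).trans e1) (w z k).2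
          (by rw [hww]; exact (w z' k').2) hzne hσ
        change sep m (p z.1.1 z.1.2.1 z.1.2.2 (w z k).1) (p z'.1.1 z'.1.2.1 z'.1.2.2 (w z' k').1)
        rw [← hww]
        exact h4
      · exact hN1 _ (w z k).2 _ (w z' k').2 ((le_max_left _ _).trans e1)
          ((le_max_left _ _).trans e2) (Or.inr hww)
    · exact hN1 _ (w z k).2 _ (w z' k').2 ((le_max_left _ _).trans e1)
        ((le_max_left _ _).trans e2) (Or.inl hσ)
  · intro z m S' hS'
    obtain ⟨N1, hN1⟩ := valid_tang (hv z) (hpl z) m hS'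
    obtain ⟨M1, hM1⟩ := hwN z N1
    exact ⟨M1, fun k hk v hvn => hN1 _ (w z k).2 (hM1 k hk) v hvn⟩
  · intro z z' k k' h
    have e1 := hPa z k
    rw [h] at e1
    have e2 := hDdis _ _ _ e1 (hPa z' k')
    simp only [Prod.mk.injEq, and_true] at e2
    obtain ⟨e3, e4, e5, e6⟩ := e2
    have e7 : z = z' := Subtype.ext (Prod.ext e3 (Prod.ext e4 e5))
    subst e7
    exact ⟨rfl, (w z).injective (Subtype.ext e6)⟩
  · intro z z' k k' h
    have e1 := hPb z k
    rw [h] at e1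
    have e2 := hDdis _ _ _ e1 (hPb z' k')
    simp only [Prod.mk.injEq, and_true] at e2
    obtain ⟨e3, e4, e5, e6⟩ := e2
    have e7 : z = z' := Subtype.ext (Prod.ext e3 (Prod.ext e4 e5))
    subst e7
    exact ⟨rfl, (w z).injective (Subtype.ext e6)⟩
  · intro z z' k k' h
    have e1 := hPa z k
    rw [h] at e1
    have e2 := hDdis _ _ _ e1 (hPb z' k')
    simp at e2
  · intro z k q h
    have e1 := hPa z k
    rw [h] at e1
    exact hDq _ q e1
  · intro z k q h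
    have e1 := hPb z k
    rw [h] at e1
    exact hDq _ q e1
  · intro c v hvt
    have hr : Tendsto (fun j => rat c (v j)) atTop atTop :=
      (tendsto_comap.mono_left inf_le_left : Tendsto (rat c) (tang c) atTop).comp hvt
    have hs : Tendsto (fun j => scl c (v j)) atTop atTop :=
      (tendsto_comap.mono_left inf_le_right : Tendsto (scl c) (tang c) atTop).comp hvt
    -- choose the side
    obtain ⟨σ, hσ⟩ : ∃ σ : Bool, ∃ᶠ j in atTop, 0 < sg σ * ((v j).1.1 - bp c) := by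
      by_contra hcon
      push Not at hcon
      have e1 := (hcon true).and ((hcon false).and (hr.eventually_ge_atTop 1))
      obtain ⟨j, e2, e3, e4⟩ := e1.exists
      simp only [sg, if_true, Bool.false_eq_true, if_false] at e2 e3
      have e5 : (v j).1.1 - bp c = 0 := by linarith
      simp only [rat] at e4
      rw [e5] at e4
      norm_num at e4
    obtain ⟨φ, hφ, hφσ⟩ := extraction_of_frequently_atTop hσ
    have hs' : Tendsto (fun j => scl c (v (φ j))) atTop atTop := hs.comp hφ.tendsto_atTop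
    obtain ⟨F, n, hF, hwin⟩ := exists_win hs'
    have hval : valid c σ F (fun k => v (φ (n k))) := by
      refine ⟨fun k _ => hφσ (n k), fun R => ?_, hwin⟩
      obtain ⟨N', hN'⟩ := (hr.eventually_ge_atTop R).exists_forall_of_atTop
      obtain ⟨N, hN⟩ := Win.index_large (s := fun j => scl c (v (φ j))) (n := n) hwin N'
      refine ⟨N, fun k hk hNk => ?_⟩
      exact hN' _ ((hN k hk hNk).trans (hφ.id_le _))
    obtain ⟨t, ht, m, hm⟩ := h3 c σ F _ hF hval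
    refine ⟨⟨(c, σ, t), ht⟩, m, fun N => ?_⟩
    obtain ⟨N1, hN1⟩ := Win.index_large (s := fun j => scl c (v (φ j))) (n := n) hwin N
    have hfin : {k : ℕ | ∃ k' : ℤ, k'.natAbs < N ∧ (w ⟨(c, σ, t), ht⟩ k').1 = k}.Finite := by
      have e1 : {k' : ℤ | k'.natAbs < N}.Finite := by
        refine (finite_Icc (-(N : ℤ)) N).subset ?_
        intro k' hk'
        have hk'' : k'.natAbs < N := hk'
        exact ⟨by omega, by omega⟩
      refine (e1.image fun k' => (w ⟨(c, σ, t), ht⟩ k').1).subset ?_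
      rintro k ⟨k', h4, h5⟩
      exact ⟨k', h4, h5⟩
    obtain ⟨k, ⟨⟨hk1, hk2, hk3⟩, hk4⟩, hk5⟩ := (hm.sdiff hfin).exists_gt N1
    have hw1 : (w ⟨(c, σ, t), ht⟩ ((w ⟨(c, σ, t), ht⟩).symm ⟨k, hk2⟩)).1 = k := by
      rw [Equiv.apply_symm_apply]
    refine ⟨φ (n k), (hN1 k hk1 hk5.le).trans (hφ.id_le _),
      (w ⟨(c, σ, t), ht⟩).symm ⟨k, hk2⟩, ?_, ?_⟩
    · by_contra hcon
      exact hk4 ⟨_, not_le.1 hcon, hw1⟩
    · change near m _ (p c σ t (w ⟨(c, σ, t), ht⟩ ((w ⟨(c, σ, t), ht⟩).symm ⟨k, hk2⟩)).1)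
      rw [hw1]
      exact hk3

end Pool.Agent.PCM
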