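import Pool.Agent.Lib_MP_08983e_gt.Maps

/-! The surface. -/

open Set Filter Topology

namespace Pool.Agent.PCM

/-- left over centres, linked in pairs -/
structure LD (td : TD) where
  L : Type
  cen : L → Bool → Option ℝ
  inj : ∀ l s l' s', cen l s = cen l' s' → l = l' ∧ s = s'
  disA : ∀ l s z k, k ≠ 0 → cen l s ≠ some (td.P z k).1.1
  disB : ∀ l s z k, k ≠ 0 → cen l s ≠ some (td.P z (k - 1)).1.2
  sur : ∀ c, (∃ l s, cen l s = c) ∨ (∃ z k, k ≠ 0 ∧ c = some (td.P z k).1.1) ∨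
    (∃ z k, k ≠ 0 ∧ c = some (td.P z (k - 1)).1.2)
  ne : Nonempty L

theorem exists_LD (td : TD) : ∃ _ : LD td, True := by
  classical
  let U : Set (Option ℝ) := {c | (∃ z k, k ≠ 0 ∧ c = some (td.P z k).1.1) ∨
    (∃ z k, k ≠ 0 ∧ c = some (td.P z (k - 1)).1.2)}
  let L : Type := {c : Option ℝ // c ∉ U}
  have hq : ∀ q : ℚ, (some (q : ℝ) : Option ℝ) ∉ U := by
    rintro q (⟨z, k, -, h⟩ | ⟨z, k, -, h⟩)
    · exact td.ratA z k q (Option.some.inj h).symm
    · exact td.ratB z (k - 1) q (Option.some.inj h).symm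
  have hinf : Infinite L := by
    refine Infinite.of_injective (fun q : ℚ => (⟨some (q : ℝ), hq q⟩ : L)) ?_
    intro a b hab
    have h1 := congrArg Subtype.val hab
    have h2 : ((a : ℚ) : ℝ) = b := Option.some.inj h1
    exact_mod_cast h2
  have hcard : Cardinal.mk (L ⊕ L) = Cardinal.mk L := by
    rw [Cardinal.mk_sum, Cardinal.lift_id]
    exact Cardinal.add_mk_eq_self
  obtain ⟨e⟩ := Cardinal.eq.1 hcard
  let cen : L → Bool → Option ℝ := fun l s => (e (if s then Sum.inr l else Sum.inl l)).1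
  have hcenU : ∀ l s, cen l s ∉ U := fun l s => (e _).2
  refine ⟨⟨L, cen, ?_, ?_, ?_, ?_, ?_⟩, trivial⟩
  · intro l s l' s' h
    have h1 := e.injective (Subtype.ext h)
    cases s <;> cases s' <;> simp at h1 ⊢ <;> exact h1
  · intro l s z k hk h
    exact hcenU l s (Or.inl ⟨z, k, hk, h⟩)
  · intro l s z k hk h
    exact hcenU l s (Or.inr ⟨z, k, hk, h⟩)
  · intro c
    by_cases hc : c ∈ U
    · exact Or.inr hc
    · left
      rcases h : e.symm ⟨c, hc⟩ with l | l
      · refine ⟨l, false, ?_⟩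
        simp only [cen, Bool.false_eq_true, if_false]
        rw [← h, Equiv.apply_symm_apply]
      · refine ⟨l, true, ?_⟩
        simp only [cen, if_true]
        rw [← h, Equiv.apply_symm_apply]
  · infer_instance

variable (td : TD) (ld : LD td)

def gO : td.Z ⊕ ld.L → Set (ℝ × ℝ)
  | Sum.inl _ => tO
  | Sum.inr _ => lO

noncomputable def gpsi : td.Z ⊕ ld.L → ℝ × ℝ → HP
  | Sum.inl z => tpsi (td.P z)
  | Sum.inr l => lpsi (ld.cen l false) (ld.cen l true)

/-- labels -/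
noncomputable def lab : td.Z ⊕ ld.L → ℝ × ℝ → Bool → Option ℝ × ℝ
  | Sum.inl z, q, false => (some (td.P z ⌊q.2⁻¹⌋).1.1, q.1)
  | Sum.inl z, q, true => (some (td.P z (⌊q.2⁻¹⌋ - 1)).1.2, -q.1)
  | Sum.inr l, q, s => (ld.cen l s, q.1)

/-- points on lines at centres -/
def IsE (i : td.Z ⊕ ld.L) (q : ℝ × ℝ) : Prop :=
  q ∉ gO td ld i ∧ ∀ z, i = Sum.inl z → q.2 ≠ 0

variable {td ld}

theorem two_cell {ψ : ℝ × ℝ → HP} {O U W : Set (ℝ × ℝ)} {q : ℝ × ℝ} {F G : Filter HP}
    (hcov : ∀ᶠ r in 𝓝 q, r ∈ O → r ∈ U ∪ W) (hU : Tendsto ψ (𝓝[U] q) F)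
    (hW : Tendsto ψ (𝓝[W] q) G) : Tendsto ψ (𝓝[O] q) (F ⊔ G) := by
  have h1 : 𝓝[O] q ≤ 𝓝[U ∪ W] q := by
    rw [nhdsWithin_le_iff, mem_nhdsWithin_iff_eventually]
    exact hcov
  rw [nhdsWithin_union] at h1
  refine Tendsto.mono_left ?_ h1
  exact hU.sup_sup hW

theorem two_cell_inj {ψ : ℝ × ℝ → HP} {O U W : Set (ℝ × ℝ)} {q : ℝ × ℝ} {F G : Filter HP}
    (hcov : ∀ᶠ r in 𝓝 q, r ∈ O → r ∈ U ∪ W) (hU : Tendsto ψ (𝓝[U] q) F)
    (hW : Tendsto ψ (𝓝[W] q) G) (hFG : Disjoint F G) (hUi : InjOn ψ U) (hWi : InjOn ψ W) :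
    ∃ V ∈ 𝓝 q, InjOn ψ (V ∩ O) := by
  obtain ⟨S, hS, S', hS', hSS⟩ := Filter.disjoint_iff.1 hFG
  have h1 := hU hS
  have h2 := hW hS'
  rw [mem_map, mem_nhdsWithin_iff_exists_mem_nhds_inter] at h1 h2
  obtain ⟨V1, hV1, hVS1⟩ := h1
  obtain ⟨V2, hV2, hVS2⟩ := h2
  refine ⟨_, inter_mem (inter_mem hV1 hV2) hcov, ?_⟩
  rintro a ⟨⟨⟨ha1, ha2⟩, ha3⟩, haO⟩ b ⟨⟨⟨hb1, hb2⟩, hb3⟩, hbO⟩ hab
  rcases ha3 haO with ha | ha <;> rcases hb3 hbO with hb | hb
  · exact hUi ha hb hab
  · have h3 : ψ a ∈ S := hVS1 ⟨ha1, ha⟩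
    have h4 : ψ b ∈ S' := hVS2 ⟨hb2, hb⟩
    rw [hab] at h3
    exact absurd h4 (disjoint_left.1 hSS h3)
  · have h3 : ψ a ∈ S' := hVS2 ⟨ha2, ha⟩
    have h4 : ψ b ∈ S := hVS1 ⟨hb1, hb⟩
    rw [hab] at h3
    exact absurd h3 (disjoint_left.1 hSS h4)
  · exact hWi ha hb hab

theorem tpsi_injOn (P : ℤ → Pc) (k : ℤ) : InjOn (tpsi P) (cellU k) := by
  rintro a ⟨ha, ha2⟩ b ⟨hb, hb2⟩ hab
  have h1 := tG_tpsi P ha
  have h2 := tG_tpsi P hb
  rw [ha2] at h1
  rw [hb2] at h2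
  rw [← h1, ← h2, hab]

theorem lpsi_injOn (c c' : Option ℝ) : InjOn (lpsi c c') {q | 0 < q.2} ∧
    InjOn (lpsi c c') {q | q.2 < 0} := by
  constructor
  · intro a ha b hb hab
    rw [lpsi_of_pos c c' ha, lpsi_of_pos c c' hb] at hab
    rw [← kap_ik c ha, ← kap_ik c hb, hab]
  · intro a ha b hb hab
    rw [lpsi_of_neg c c' ha, lpsi_of_neg c c' hb] at hab
    have ha' : 0 < (rfx a).2 := neg_pos.2 ha
    have hb' : 0 < (rfx b).2 := neg_pos.2 hb
    have h1 := kap_ik c' ha'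
    have h2 := kap_ik c' hb'
    rw [hab, h2] at h1
    rw [← rfx_rfx a, ← rfx_rfx b, h1]

theorem lcov (q : ℝ × ℝ) : ∀ᶠ r in 𝓝 q, r ∈ lO → r ∈ {q : ℝ × ℝ | 0 < q.2} ∪ {q | q.2 < 0} := by
  refine Eventually.of_forall fun r hr => ?_
  rcases lt_or_gt_of_ne (show r.2 ≠ 0 from hr) with h | h
  · exact Or.inr h
  · exact Or.inl h

theorem IsE.int {z : td.Z} {q : ℝ × ℝ} (h : IsE td ld (Sum.inl z) q) :
    q.2 ≠ 0 ∧ ⌊q.2⁻¹⌋ ≠ 0 ∧ q.2⁻¹ = ⌊q.2⁻¹⌋ := by
  have h0 := h.2 z rfl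
  obtain ⟨k, hk, hk2⟩ := exists_int_of_notMem h.1 h0
  have h1 : ⌊q.2⁻¹⌋ = k := by rw [hk2, Int.floor_intCast]
  exact ⟨h0, by rw [h1]; exact hk, by rw [h1]; exact hk2⟩

theorem IsE.link {l : ld.L} {q : ℝ × ℝ} (h : IsE td ld (Sum.inr l) q) : q = (q.1, 0) := by
  have h0 : q ∉ lO := h.1
  have h1 : q.2 = 0 := by
    by_contra h2
    exact h0 h2
  exact Prod.ext rfl h1

theorem lab_germ {i : td.Z ⊕ ld.L} {q : ℝ × ℝ} (h : IsE td ld i q) :
    Tendsto (gpsi td ld i) (𝓝[gO td ld i] q)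
      (germ (lab td ld i q false).1 (lab td ld i q false).2 ⊔
        germ (lab td ld i q true).1 (lab td ld i q true).2) := by
  rcases i with z | l
  · obtain ⟨h0, h1, h2⟩ := h.int
    exact two_cell (cells_near h0 h2) (tpsi_germ_a (td.P z) h0 h2) (tpsi_germ_b (td.P z) h0 h2)
  · have h1 := h.link
    have h2 := lpsi_germ (ld.cen l false) (ld.cen l true) q.1
    rw [← h1] at h2
    exact two_cell (lcov q) h2.1 h2.2

theorem lab_inj {i j : td.Z ⊕ ld.L} {q r : ℝ × ℝ} (h : IsE td ld i q) (h' : IsE td ld j r)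
    {s s' : Bool} (he : lab td ld i q s = lab td ld j r s') : (i, q) = (j, r) ∧ s = s' := by
  rcases i with z | l <;> rcases j with z' | l'
  · obtain ⟨h0, h1, h2⟩ := h.int
    obtain ⟨h0', h1', h2'⟩ := h'.int
    have hkey : z = z' ∧ ⌊q.2⁻¹⌋ = ⌊r.2⁻¹⌋ ∧ q.1 = r.1 ∧ s = s' := by
      cases s <;> cases s'
      · simp only [lab, Prod.mk.injEq, Option.some.injEq] at he
        obtain ⟨e1, e2⟩ := td.endA _ _ _ _ he.1
        exact ⟨e1, e2, he.2, rfl⟩
      · simp only [lab, Prod.mk.injEq, Option.some.injEq] at he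
        exact absurd he.1 (td.endAB _ _ _ _)
      · simp only [lab, Prod.mk.injEq, Option.some.injEq] at he
        exact absurd he.1.symm (td.endAB _ _ _ _)
      · simp only [lab, Prod.mk.injEq, Option.some.injEq] at he
        obtain ⟨e1, e2⟩ := td.endB _ _ _ _ he.1
        exact ⟨e1, by omega, neg_injective he.2, rfl⟩
    obtain ⟨rfl, e2, e3, rfl⟩ := hkey
    have e4 : q.2⁻¹ = r.2⁻¹ := by rw [h2, h2', e2]
    have e5 : q = r := Prod.ext e3 (inv_injective e4)
    rw [e5]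
    exact ⟨rfl, rfl⟩
  · obtain ⟨h0, h1, h2⟩ := h.int
    exfalso
    cases s
    · simp only [lab, Prod.mk.injEq] at he
      exact ld.disA _ _ _ _ h1 he.1.symm
    · simp only [lab, Prod.mk.injEq] at he
      exact ld.disB _ _ _ _ h1 he.1.symm
  · obtain ⟨h0, h1, h2⟩ := h'.int
    exfalso
    cases s'
    · simp only [lab, Prod.mk.injEq] at he
      exact ld.disA _ _ _ _ h1 he.1
    · simp only [lab, Prod.mk.injEq] at he
      exact ld.disB _ _ _ _ h1 he.1
  · simp only [lab, Prod.mk.injEq] at he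
    obtain ⟨rfl, rfl⟩ := ld.inj _ _ _ _ he.1
    have e5 : q = r := by
      rw [h.link, h'.link, he.2]
    rw [e5]
    exact ⟨rfl, rfl⟩

theorem lab_ne {i : td.Z ⊕ ld.L} {q : ℝ × ℝ} (h : IsE td ld i q) :
    lab td ld i q false ≠ lab td ld i q true := by
  intro he
  have := (lab_inj h h he).2
  exact absurd this (by simp)

theorem germ_disj' {a b : Option ℝ × ℝ} (h : a ≠ b) : Disjoint (germ a.1 a.2) (germ b.1 b.2) :=
  germ_disjoint_germ h

/-- regions near the line `t = 0` -/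
def reg (m N : ℕ) : Set (ℝ × ℝ) := {q | |q.1| ≤ m ∧ (q ∈ tO → N ≤ (⌊q.2⁻¹⌋).natAbs)}

theorem reg_mem {q : ℝ × ℝ} (h : q.2 = 0) {m : ℕ} (hm : |q.1| + 1 ≤ m) (N : ℕ) : reg m N ∈ 𝓝 q := by
  have h1 : q = (q.1, 0) := Prod.ext rfl h
  have h2 := floor_large N q.1
  rw [← h1] at h2
  have h3 : ∀ᶠ r : ℝ × ℝ in 𝓝 q, |r.1| < m := by
    have h4 : ContinuousAt (fun r : ℝ × ℝ => |r.1|) q := continuousAt_fst.abs
    exact h4.eventually (Iio_mem_nhds (by linarith))
  filter_upwards [h2, h3] with r hr2 hr3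
  exact ⟨hr3.le, hr2⟩

theorem reg_conflict {z z' : td.Z} (hz : td.c z = td.c z') (m : ℕ) : ∃ N, ∀ q ∈ reg m N, ∀ r ∈ reg m N,
    q ∈ tO → r ∈ tO → tpsi (td.P z) q = tpsi (td.P z') r → z = z' ∧ q = r := by
  obtain ⟨N, hN⟩ := td.sepP z z' hz m
  refine ⟨N, fun q hq r hr hqO hrO hqr => ?_⟩
  have h1 := near_tpsi (td.P z) hqO hq.1
  have h2 := near_tpsi (td.P z') hrO hr.1
  by_cases hne : (z, ⌊q.2⁻¹⌋) = (z', ⌊r.2⁻¹⌋)
  · obtain ⟨rfl, h3⟩ := Prod.mk.inj hne
    exact ⟨rfl, tpsi_injOn (td.P z) ⌊r.2⁻¹⌋ ⟨hqO, h3⟩ ⟨hrO, rfl⟩ hqr⟩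
  · have h3 := hN _ _ (hq.2 hqO) (hr.2 hrO) hne
    rw [← hqr] at h2
    exact absurd ⟨h1, h2⟩ (h3 _)

theorem tpsi_tang (z : td.Z) {q : ℝ × ℝ} (h : q.2 = 0) :
    Tendsto (tpsi (td.P z)) (𝓝[tO] q) (tang (td.c z)) := by
  intro S hS
  obtain ⟨m, hm⟩ := exists_nat_ge (|q.1| + 1)
  obtain ⟨N, hN⟩ := td.tangP z m S hS
  rw [mem_map, mem_nhdsWithin_iff_exists_mem_nhds_inter]
  refine ⟨reg m N, reg_mem h hm N, ?_⟩
  rintro r ⟨hr, hrO⟩
  exact hN _ (hr.2 hrO) _ (near_tpsi (td.P z) hrO hr.1)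

theorem notE {i : td.Z ⊕ ld.L} {q : ℝ × ℝ} (hq : q ∉ gO td ld i) :
    IsE td ld i q ∨ ∃ z, i = Sum.inl z ∧ q.2 = 0 := by
  by_cases h : ∃ z, i = Sum.inl z ∧ q.2 = 0
  · exact Or.inr h
  · left
    refine ⟨hq, fun z hz h2 => h ⟨z, hz, h2⟩⟩

theorem gsep1 (i : td.Z ⊕ ld.L) (p : ℝ × ℝ) (hp : p ∉ gO td ld i) (j : td.Z ⊕ ld.L) (q : ℝ × ℝ)
    (hq : q ∉ gO td ld j) (hne : (i, p) ≠ (j, q)) :
    Disjoint (map (gpsi td ld i) (𝓝[gO td ld i] p)) (map (gpsi td ld j) (𝓝[gO td ld j] q)) := by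
  rcases notE hp with h | ⟨z, rfl, h⟩ <;> rcases notE hq with h' | ⟨z', rfl, h'⟩
  · have hd : ∀ s s', Disjoint (germ (lab td ld i p s).1 (lab td ld i p s).2)
        (germ (lab td ld j q s').1 (lab td ld j q s').2) := by
      intro s s'
      refine germ_disj' fun he => hne (lab_inj h h' he).1
    refine Disjoint.mono (lab_germ h) (lab_germ h') ?_
    rw [disjoint_sup_left, disjoint_sup_right, disjoint_sup_right]
    exact ⟨⟨hd _ _, hd _ _⟩, hd _ _, hd _ _⟩
  · refine Disjoint.mono (lab_germ h) (tpsi_tang z' h') ?_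
    rw [disjoint_sup_left]
    exact ⟨(tang_disjoint_germ _ _ _).symm, (tang_disjoint_germ _ _ _).symm⟩
  · refine Disjoint.mono (tpsi_tang z h) (lab_germ h') ?_
    rw [disjoint_sup_right]
    exact ⟨tang_disjoint_germ _ _ _, tang_disjoint_germ _ _ _⟩
  · by_cases hc : td.c z = td.c z'
    · obtain ⟨m, hm⟩ := exists_nat_ge (max (|p.1| + 1) (|q.1| + 1))
      obtain ⟨N, hN⟩ := reg_conflict hc m
      have hV : ∃ V ∈ 𝓝 p, ∃ W ∈ 𝓝 q, z = z' → Disjoint V W := by
        by_cases hz : z = z'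
        · have hpq : p ≠ q := by
            rintro rfl
            exact hne (by rw [hz])
          obtain ⟨V, hV, W, hW, hVW⟩ := Filter.disjoint_iff.1 (disjoint_nhds_nhds.2 hpq)
          exact ⟨V, hV, W, hW, fun _ => hVW⟩
        · exact ⟨univ, univ_mem, univ, univ_mem, fun hh => absurd hh hz⟩
      obtain ⟨V, hV, W, hW, hVW⟩ := hV
      rw [Filter.disjoint_iff]
      refine ⟨tpsi (td.P z) '' ((V ∩ reg m N) ∩ tO), ?_, tpsi (td.P z') '' ((W ∩ reg m N) ∩ tO),
        ?_, ?_⟩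
      · refine image_mem_map ?_
        rw [mem_nhdsWithin_iff_exists_mem_nhds_inter]
        exact ⟨_, inter_mem hV (reg_mem h ((le_max_left _ _).trans hm) N), Subset.refl _⟩
      · refine image_mem_map ?_
        rw [mem_nhdsWithin_iff_exists_mem_nhds_inter]
        exact ⟨_, inter_mem hW (reg_mem h' ((le_max_right _ _).trans hm) N), Subset.refl _⟩
      · rw [disjoint_left]
        rintro _ ⟨a, ⟨⟨ha1, ha2⟩, ha3⟩, rfl⟩ ⟨b, ⟨⟨hb1, hb2⟩, hb3⟩, hab⟩
        obtain ⟨e1, e2⟩ := hN a ha2 b hb2 ha3 hb3 hab.symm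
        subst e2
        exact disjoint_left.1 (hVW e1) ha1 hb1
    · exact Disjoint.mono (tpsi_tang z h) (tpsi_tang z' h') (tang_disjoint_tang hc)

theorem gsep0 (i : td.Z ⊕ ld.L) (p : ℝ × ℝ) (hp : p ∉ gO td ld i) (x : HP) :
    Disjoint (map (gpsi td ld i) (𝓝[gO td ld i] p)) (𝓝 x) := by
  rcases notE hp with h | ⟨z, rfl, h⟩
  · refine Disjoint.mono_left (lab_germ h) ?_
    rw [disjoint_sup_left]
    exact ⟨germ_disjoint_nhds _ _ _, germ_disjoint_nhds _ _ _⟩
  · exact Disjoint.mono_left (tpsi_tang z h) (tang_disjoint_nhds _ _)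

theorem ginj (i : td.Z ⊕ ld.L) (p : ℝ × ℝ) (hp : p ∉ gO td ld i) :
    ∃ V ∈ 𝓝 p, InjOn (gpsi td ld i) (V ∩ gO td ld i) := by
  rcases notE hp with h | ⟨z, rfl, h⟩
  · have hd := germ_disj' (lab_ne h)
    rcases i with z | l
    · obtain ⟨h0, h1, h2⟩ := h.int
      exact two_cell_inj (cells_near h0 h2) (tpsi_germ_a (td.P z) h0 h2)
        (tpsi_germ_b (td.P z) h0 h2) hd (tpsi_injOn _ _) (tpsi_injOn _ _)
    · have h1 := h.link
      have h2 := lpsi_germ (ld.cen l false) (ld.cen l true) p.1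
      rw [← h1] at h2
      exact two_cell_inj (lcov p) h2.1 h2.2 hd (lpsi_injOn _ _).1 (lpsi_injOn _ _).2
  · obtain ⟨m, hm⟩ := exists_nat_ge (|p.1| + 1)
    obtain ⟨N, hN⟩ := reg_conflict (rfl : td.c z = td.c z) m
    refine ⟨reg m N, reg_mem h hm N, ?_⟩
    rintro a ⟨ha, haO⟩ b ⟨hb, hbO⟩ hab
    exact (hN a ha b hb haO hbO hab).2

variable (td ld)

/-- the gluing data -/
noncomputable def glue : Glue HP (ℝ × ℝ) where
  I := td.Z ⊕ ld.L
  O := gO td ld
  ψ := gpsi td ld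
  isOpen_O i := by
    rcases i with z | l
    · exact isOpen_tO
    · exact isOpen_lO
  cont i := by
    rcases i with z | l
    · exact fun q hq => (tpsi_continuousAt _ hq).continuousWithinAt
    · exact fun q hq => (lpsi_continuousAt _ _ hq).continuousWithinAt
  opn i V hV hVO := by
    rcases i with z | l
    · exact tpsi_open _ hV hVO
    · exact lpsi_open _ _ hV hVO
  dense i p _ := by
    rcases i with z | l
    · exact dense_tO p
    · exact dense_lO p
  sep0 := gsep0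
  sep1 := gsep1
  inj := ginj

variable {td ld}

theorem hat_inl {z : td.Z} {q : ℝ × ℝ} (h : q ∈ tO) :
    (glue td ld).hat (Sum.inl z) q = (glue td ld).inc (tpsi (td.P z) q) :=
  (glue td ld).hat_of_mem (i := Sum.inl z) h

theorem hat_inr {l : ld.L} {q : ℝ × ℝ} (h : q ∈ lO) :
    (glue td ld).hat (Sum.inr l) q =
      (glue td ld).inc (lpsi (ld.cen l false) (ld.cen l true) q) :=
  (glue td ld).hat_of_mem (i := Sum.inr l) h

/-- coordinates of points converging to a finite slope germ at the left end point of a piece -/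
theorem tendsto_tG_a (P : ℤ → Pc) {k : ℤ} (hk : k ≠ 0) (β : ℝ) :
    Tendsto (tG P k) (germ (some (P k).1.1) β) (𝓝 (β, ((k : ℝ))⁻¹)) := by
  obtain ⟨a, ha⟩ : ∃ a, a = (P k).1.1 := ⟨_, rfl⟩
  obtain ⟨b, hb⟩ : ∃ b, b = (P k).1.2 := ⟨_, rfl⟩
  have hab : 0 < b - a := by rw [ha, hb]; exact sub_pos.2 (P k).2
  have h0 : Tendsto (kap (some (P k).1.1)) (germ (some (P k).1.1) β) (𝓝 (β, 0)) := tendsto_comap
  rw [← ha] at h0 ⊢
  have h1 : Continuous fun r : ℝ × ℝ => r.1 - (1 + r.1 ^ 2) * r.2 / (b - a) :=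
    by fun_prop
  have e1 : ∀ u : HP, pb (P k) u = (kap (some a) u).1 -
      (1 + (kap (some a) u).1 ^ 2) * (kap (some a) u).2 / (b - a) := by
    intro u
    have hu := u.2
    unfold pb bet kap
    rw [← ha, ← hb]
    simp only
    field_simp
    ring
  have e2 : ∀ u : HP, pf (P k) u = (kap (some a) u).2 * (b - a) /
      ((b - a - (kap (some a) u).1 * (kap (some a) u).2) ^ 2 + (kap (some a) u).2 ^ 2 +
        (kap (some a) u).2 * (b - a)) := by
    intro u
    have hu := u.2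
    unfold pf kap
    rw [← ha, ← hb]
    simp only
    have e3 : (b - a - (u.1.1 - a) / u.1.2 * u.1.2) = b - u.1.1 := by
      field_simp
      ring
    rw [e3]
  have h2 : Tendsto (fun u => pb (P k) u) (germ (some a) β) (𝓝 β) := by
    have h3 := (h1.tendsto (β, (0 : ℝ))).comp h0
    simp only [mul_zero, zero_div, sub_zero] at h3
    exact h3.congr fun u => (e1 u).symm
  have h3 : Tendsto (fun u => pf (P k) u) (germ (some a) β) (𝓝 0) := by
    have h4 : ContinuousAt (fun r : ℝ × ℝ => r.2 * (b - a) /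
        ((b - a - r.1 * r.2) ^ 2 + r.2 ^ 2 + r.2 * (b - a))) (β, 0) := by
      refine ContinuousAt.div (by fun_prop) (by fun_prop) ?_
      simp only [mul_zero, sub_zero, zero_mul, add_zero]
      positivity
    have h5 := h4.tendsto.comp h0
    simp only [zero_mul, zero_div] at h5
    exact h5.congr fun u => (e2 u).symm
  refine h2.prodMk_nhds ?_
  have h4 : Tendsto (fun u => (k : ℝ) + pf (P k) u) (germ (some a) β) (𝓝 ((k : ℝ) + 0)) :=
    tendsto_const_nhds.add h3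
  rw [add_zero] at h4
  exact h4.inv₀ (by exact_mod_cast hk)

theorem tendsto_tG_b (P : ℤ → Pc) {k : ℤ} (hk : k ≠ 0) (β : ℝ) :
    Tendsto (tG P (k - 1)) (germ (some (P (k - 1)).1.2) β) (𝓝 (-β, ((k : ℝ))⁻¹)) := by
  obtain ⟨a, ha⟩ : ∃ a, a = (P (k - 1)).1.1 := ⟨_, rfl⟩
  obtain ⟨b, hb⟩ : ∃ b, b = (P (k - 1)).1.2 := ⟨_, rfl⟩
  have hab : 0 < b - a := by rw [ha, hb]; exact sub_pos.2 (P (k - 1)).2
  have h0 : Tendsto (kap (some (P (k - 1)).1.2)) (germ (some (P (k - 1)).1.2) β) (𝓝 (β, 0)) :=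
    tendsto_comap
  rw [← hb] at h0 ⊢
  have h1 : Continuous fun r : ℝ × ℝ => -r.1 - (1 + r.1 ^ 2) * r.2 / (b - a) :=
    by fun_prop
  have e1 : ∀ u : HP, pb (P (k - 1)) u = -(kap (some b) u).1 -
      (1 + (kap (some b) u).1 ^ 2) * (kap (some b) u).2 / (b - a) := by
    intro u
    have hu := u.2
    unfold pb bet kap
    rw [← ha, ← hb]
    simp only
    field_simp
    ring
  have e2 : ∀ u : HP, pf (P (k - 1)) u = (b - a) /
      ((1 + (kap (some b) u).1 ^ 2) * (kap (some b) u).2 + (b - a)) := by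
    intro u
    have hu := u.2
    have hd := pf_den_pos (P (k - 1)) u
    unfold pf kap
    rw [← ha, ← hb] at *
    simp only
    have e3 : 0 < (1 + ((u.1.1 - b) / u.1.2) ^ 2) * u.1.2 + (b - a) := by positivity
    rw [div_eq_div_iff hd.ne' e3.ne']
    field_simp
    ring
  have h2 : Tendsto (fun u => pb (P (k - 1)) u) (germ (some b) β) (𝓝 (-β)) := by
    have h3 := (h1.tendsto (β, (0 : ℝ))).comp h0
    simp only [mul_zero, zero_div, sub_zero] at h3
    exact h3.congr fun u => (e1 u).symm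
  have h3 : Tendsto (fun u => pf (P (k - 1)) u) (germ (some b) β) (𝓝 1) := by
    have h4 : ContinuousAt (fun r : ℝ × ℝ => (b - a) /
        ((1 + r.1 ^ 2) * r.2 + (b - a))) (β, 0) := by
      refine ContinuousAt.div (by fun_prop) (by fun_prop) ?_
      simp only [mul_zero, zero_add]
      exact hab.ne'
    have h5 := h4.tendsto.comp h0
    simp only [mul_zero, zero_add] at h5
    rw [div_self hab.ne'] at h5
    exact h5.congr fun u => (e2 u).symm
  refine h2.prodMk_nhds ?_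
  have h4 : Tendsto (fun u => ((k - 1 : ℤ) : ℝ) + pf (P (k - 1)) u) (germ (some b) β)
      (𝓝 (((k - 1 : ℤ) : ℝ) + 1)) :=
    tendsto_const_nhds.add h3
  have e4 : ((k - 1 : ℤ) : ℝ) + 1 = k := by push_cast; ring
  rw [e4] at h4
  exact h4.inv₀ (by exact_mod_cast hk)

/-- every finite slope germ converges in the surface -/
theorem germ_converges (c : Option ℝ) (β : ℝ) :
    ∃ m : (glue td ld).M, Tendsto (glue td ld).inc (germ c β) (𝓝 m) := by
  rcases ld.sur c with ⟨l, s, rfl⟩ | ⟨z, k, hk, rfl⟩ | ⟨z, k, hk, rfl⟩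
  · refine ⟨(glue td ld).hat (Sum.inr l) (β, 0), ?_⟩
    have h0 : Tendsto (kap (ld.cen l s)) (germ (ld.cen l s) β) (𝓝 (β, 0)) := tendsto_comap
    have h1 : Tendsto (lG (ld.cen l false) (ld.cen l true) s) (germ (ld.cen l s) β)
        (𝓝 (β, 0)) := by
      cases s
      · exact h0
      · have h2 := (continuous_rfx.tendsto (β, (0 : ℝ))).comp h0
        have h3 : rfx (β, 0) = (β, 0) := by simp [rfx]
        rw [h3] at h2
        exact h2
    have h2 := (((glue td ld).continuous_hat (Sum.inr l)).tendsto (β, (0 : ℝ))).comp h1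
    refine h2.congr fun u => ?_
    simp only [Function.comp_apply]
    rw [hat_inr (lG_mem _ _ _ _), lpsi_lG]
  · refine ⟨(glue td ld).hat (Sum.inl z) (β, (k : ℝ)⁻¹), ?_⟩
    have h2 := (((glue td ld).continuous_hat (Sum.inl z)).tendsto (β, (k : ℝ)⁻¹)).comp
      (tendsto_tG_a (td.P z) hk β)
    refine h2.congr fun u => ?_
    simp only [Function.comp_apply]
    rw [hat_inl (tG_mem _ _ _), tpsi_tG]
  · refine ⟨(glue td ld).hat (Sum.inl z) (-β, (k : ℝ)⁻¹), ?_⟩
    have h2 := (((glue td ld).continuous_hat (Sum.inl z)).tendsto (-β, (k : ℝ)⁻¹)).comp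
      (tendsto_tG_b (td.P z) hk β)
    refine h2.congr fun u => ?_
    simp only [Function.comp_apply]
    rw [hat_inl (tG_mem _ _ _), tpsi_tG]

/-- an ultrafilter along which a real function is bounded gives a limit -/
theorem ultra_limit {α : Type} (U : Ultrafilter α) {f : α → ℝ} {R : ℝ}
    (h : ∀ᶠ a in (U : Filter α), |f a| ≤ R) : ∃ x, Tendsto f U (𝓝 x) := by
  have h1 : Icc (-R) R ∈ (U.map f : Filter ℝ) := by
    change f ⁻¹' Icc (-R) R ∈ (U : Filter α)
    filter_upwards [h] with a ha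
    exact abs_le.1 ha
  obtain ⟨x, -, hx⟩ := isCompact_Icc.ultrafilter_le_nhds (U.map f) (le_principal_iff.2 h1)
  exact ⟨x, hx⟩

theorem tang_cluster (v : ℕ → HP) {c : Option ℝ} (hv : Tendsto v atTop (tang c)) :
    ∃ m : (glue td ld).M, MapClusterPt m atTop ((glue td ld).inc ∘ v) := by
  obtain ⟨z, m, h⟩ := td.cat c v hv
  choose j hj k hk hnear using h
  let U : Ultrafilter ℕ := Ultrafilter.of atTop
  have hU : (U : Filter ℕ) ≤ atTop := Ultrafilter.of_le atTop
  have hpb : ∀ᶠ n in (U : Filter ℕ), |pb (td.P z (k n)) (v (j n))| ≤ m :=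
    Eventually.of_forall fun n => hnear n
  obtain ⟨β, hβ⟩ := ultra_limit U hpb
  have hsnd : Tendsto (fun n => ((k n : ℝ) + pf (td.P z (k n)) (v (j n)))⁻¹) U (𝓝 0) := by
    refine Tendsto.mono_left ?_ hU
    rw [tendsto_zero_iff_abs_tendsto_zero]
    have h1 : ∀ n : ℕ, 2 ≤ n → |((k n : ℝ) + pf (td.P z (k n)) (v (j n)))⁻¹| ≤
        ((n : ℝ) - 1)⁻¹ := by
      intro n hn
      have h0 := pf_pos (td.P z (k n)) (v (j n))
      have h1 := pf_lt_one (td.P z (k n)) (v (j n))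
      have hn' : (2 : ℝ) ≤ n := by exact_mod_cast hn
      rw [abs_inv]
      refine inv_anti₀ (by linarith) ?_
      have h2 : (n : ℝ) ≤ |(k n : ℝ)| := by
        have h3 : (n : ℤ) ≤ |k n| := by
          rw [Int.abs_eq_natAbs]
          exact_mod_cast hk n
        exact_mod_cast h3
      have h3 := abs_sub_abs_le_abs_sub (k n : ℝ) (-(pf (td.P z (k n)) (v (j n))))
      rw [abs_neg, abs_of_pos h0, sub_neg_eq_add] at h3
      linarith
    have h2 : Tendsto (fun n : ℕ => ((n : ℝ) - 1)⁻¹) atTop (𝓝 0) :=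
      tendsto_inv_atTop_zero.comp
        (tendsto_atTop_add_const_right atTop (-1) tendsto_natCast_atTop_atTop)
    refine tendsto_of_tendsto_of_tendsto_of_le_of_le' tendsto_const_nhds h2
      (Eventually.of_forall fun n => abs_nonneg _) ?_
    filter_upwards [eventually_ge_atTop 2] with n hn
    exact h1 n hn
  have hlim : Tendsto (fun n => tG (td.P z) (k n) (v (j n))) U (𝓝 (β, 0)) :=
    hβ.prodMk_nhds hsnd
  have h2 := (((glue td ld).continuous_hat (Sum.inl z)).tendsto (β, (0 : ℝ))).comp hlim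
  have h3 : Tendsto (fun n => (glue td ld).inc (v (j n))) U
      (𝓝 ((glue td ld).hat (Sum.inl z) (β, 0))) := by
    refine h2.congr fun n => ?_
    simp only [Function.comp_apply]
    rw [hat_inl (tG_mem _ _ _), tpsi_tG]
  refine ⟨(glue td ld).hat (Sum.inl z) (β, 0), ?_⟩
  refine MapClusterPt.of_comp (φ := j) (p := (U : Filter ℕ)) ?_ h3.mapClusterPt
  refine Tendsto.mono_left ?_ hU
  exact tendsto_atTop_mono hj tendsto_id

theorem every_cluster (u : ℕ → HP) :
    ∃ m : (glue td ld).M, MapClusterPt m atTop ((glue td ld).inc ∘ u) := by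
  let U : Ultrafilter ℕ := Ultrafilter.of atTop
  have hU : (U : Filter ℕ) ≤ atTop := Ultrafilter.of_le atTop
  -- step 1 : an end
  have step1 : (∃ x : HP, Tendsto u U (𝓝 x)) ∨
      ∃ c, Tendsto (fun n => (u n).1) U (fend c) := by
    by_cases hb : Tendsto (fun n => (u n).1) U (Bornology.cobounded (ℝ × ℝ))
    · exact Or.inr ⟨none, hb⟩
    · have h1 : ∃ S ∈ Bornology.cobounded (ℝ × ℝ), (fun n => (u n).1) ⁻¹' S ∉ (U : Filter ℕ) := by
        by_contra hcon
        push Not at hcon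
        exact hb hcon
      obtain ⟨S, hS, hS2⟩ := h1
      have h2 : ((fun n => (u n).1) ⁻¹' S)ᶜ ∈ (U : Filter ℕ) := Ultrafilter.compl_mem_iff_notMem.2 hS2
      have h3 : Bornology.IsBounded Sᶜ := by
        rw [← Bornology.isCobounded_compl_iff, compl_compl]
        exact hS
      obtain ⟨R, hR⟩ := h3.subset_closedBall (0 : ℝ × ℝ)
      have h4 : Metric.closedBall (0 : ℝ × ℝ) R ∈ (U.map (fun n => (u n).1) : Filter (ℝ × ℝ)) := by
        change (fun n => (u n).1) ⁻¹' Metric.closedBall (0 : ℝ × ℝ) R ∈ (U : Filter ℕ)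
        refine mem_of_superset h2 ?_
        intro n hn
        exact hR hn
      obtain ⟨x, -, hx⟩ := (isCompact_closedBall (0 : ℝ × ℝ) R).ultrafilter_le_nhds _
        (le_principal_iff.2 h4)
      have hx' : Tendsto (fun n => (u n).1) U (𝓝 x) := hx
      have hx2 : Tendsto (fun n => (u n).1.2) U (𝓝 x.2) := (continuous_snd.tendsto _).comp hx'
      have hx0 : 0 ≤ x.2 := ge_of_tendsto' hx2 fun n => (u n).2.le
      rcases hx0.eq_or_lt with h5 | h5
      · right
        refine ⟨some x.1, ?_⟩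
        have h6 : x = (x.1, 0) := Prod.ext rfl h5.symm
        rw [fend, ← h6]
        exact hx'
      · left
        refine ⟨⟨x, h5⟩, ?_⟩
        rw [tendsto_subtype_rng]
        exact hx'
  rcases step1 with ⟨x, hx⟩ | ⟨c, hc⟩
  · refine ⟨(glue td ld).inc x, ?_⟩
    have h1 : Tendsto ((glue td ld).inc ∘ u) U (𝓝 ((glue td ld).inc x)) :=
      ((glue td ld).continuous_inc.tendsto x).comp hx
    exact h1.mapClusterPt.mono hU
  by_cases hbd : ∃ R : ℝ, ∀ᶠ n in (U : Filter ℕ), |(kap c (u n)).1| ≤ R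
  · -- finite slope
    obtain ⟨R, hR⟩ := hbd
    obtain ⟨β, hβ⟩ := ultra_limit U hR
    have h2 : Tendsto (fun n => (kap c (u n)).2) U (𝓝 0) := by
      rcases c with _ | a
      · have h3 : Tendsto (fun n => ‖(u n).1‖) U atTop := tendsto_norm_cobounded_atTop.comp hc
        have h4 : Tendsto (fun n => (u n).1.2) U atTop := by
          have h5 : Tendsto (fun n => ‖(u n).1‖ / (|R| + 1)) U atTop :=
            h3.atTop_div_const (by positivity)
          refine tendsto_atTop_mono' _ ?_ h5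
          filter_upwards [hR] with n hn
          have hun := (u n).2
          rw [div_le_iff₀ (by positivity)]
          simp only [kap] at hn
          rw [abs_div, abs_of_pos hun, div_le_iff₀ hun] at hn
          have h6 : ‖(u n).1‖ = max ‖(u n).1.1‖ ‖(u n).1.2‖ := rfl
          rw [h6, Real.norm_eq_abs, Real.norm_eq_abs, abs_of_pos hun]
          have h7 := le_abs_self R
          have h8 := abs_nonneg R
          refine max_le ?_ ?_ <;> nlinarith
        have h5 : Tendsto (fun n => ((u n).1.2)⁻¹) U (𝓝 0) := tendsto_inv_atTop_zero.comp h4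
        refine h5.congr fun n => ?_
        simp [kap]
      · have h3 : Tendsto (fun n => (u n).1.2) U (𝓝 0) := (continuous_snd.tendsto _).comp hc
        exact h3
    have h3 : Tendsto u U (germ c β) := by
      unfold germ
      rw [tendsto_comap_iff]
      exact hβ.prodMk_nhds h2
    obtain ⟨m, hm⟩ := germ_converges (td := td) (ld := ld) c β
    refine ⟨m, ?_⟩
    exact (hm.comp h3).mapClusterPt.mono hU
  · -- tangential
    have hrat : Tendsto (fun n => rat c (u n)) U atTop := by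
      rw [tendsto_atTop]
      intro R
      by_contra hcon
      apply hbd
      refine ⟨R, ?_⟩
      have h1 : {n | R ≤ rat c (u n)} ∉ (U : Filter ℕ) := hcon
      have h2 := Ultrafilter.compl_mem_iff_notMem.2 h1
      filter_upwards [h2] with n hn
      rw [abs_kap_fst]
      have hn' : ¬ R ≤ rat c (u n) := hn
      exact (not_le.1 hn').le
    have hscl : Tendsto (fun n => scl c (u n)) U atTop := by
      rcases c with _ | a
      · have h3 : Tendsto (fun n => ‖(u n).1‖) U atTop := tendsto_norm_cobounded_atTop.comp hc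
        have h4 : Tendsto (fun n => |(u n).1.1|) U atTop := by
          refine tendsto_atTop_mono' _ ?_ h3
          filter_upwards [hrat.eventually_ge_atTop 1] with n hn
          have hun := (u n).2
          simp only [rat, bp, Option.getD_none, sub_zero] at hn
          rw [le_div_iff₀ hun] at hn
          have h6 : ‖(u n).1‖ = max ‖(u n).1.1‖ ‖(u n).1.2‖ := rfl
          rw [h6, Real.norm_eq_abs, Real.norm_eq_abs, abs_of_pos hun]
          exact max_le le_rfl (by linarith)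
        exact Real.tendsto_log_atTop.comp h4
      · have h3 : Tendsto (fun n => (u n).1.1) U (𝓝 a) := (continuous_fst.tendsto _).comp hc
        have h4 : Tendsto (fun n => |(u n).1.1 - a|) U (𝓝 0) := by
          have h5 := (h3.sub_const a).abs
          simpa using h5
        have h5 : Tendsto (fun n => |(u n).1.1 - a|) U (𝓝[>] 0) := by
          rw [tendsto_nhdsWithin_iff]
          refine ⟨h4, ?_⟩
          filter_upwards [hrat.eventually_ge_atTop 1] with n hn
          have hun := (u n).2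
          simp only [rat, bp, Option.getD_some] at hn
          rw [le_div_iff₀ hun] at hn
          change 0 < |(u n).1.1 - a|
          linarith
        have h6 : Tendsto (fun n => Real.log |(u n).1.1 - a|) U atBot :=
          Real.tendsto_log_nhdsGT_zero.comp h5
        exact tendsto_neg_atBot_atTop.comp h6
    have hex : ∀ N : ℕ, ∃ n, N ≤ n ∧ (N : ℝ) ≤ rat c (u n) ∧ (N : ℝ) ≤ scl c (u n) := by
      intro N
      have h0 : ∀ᶠ n in (U : Filter ℕ), N ≤ n := hU (eventually_ge_atTop N)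
      have h1 := h0.and
        ((hrat.eventually_ge_atTop (N : ℝ)).and (hscl.eventually_ge_atTop (N : ℝ)))
      exact h1.exists
    choose φ hφ1 hφ2 hφ3 using hex
    have hv : Tendsto (fun N => u (φ N)) atTop (tang c) := by
      unfold tang
      rw [tendsto_inf, tendsto_comap_iff, tendsto_comap_iff]
      exact ⟨tendsto_atTop_mono hφ2 tendsto_natCast_atTop_atTop,
        tendsto_atTop_mono hφ3 tendsto_natCast_atTop_atTop⟩
    obtain ⟨m, hm⟩ := tang_cluster (td := td) (ld := ld) _ hv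
    refine ⟨m, MapClusterPt.of_comp (φ := φ) (p := atTop) ?_ hm⟩
    exact tendsto_atTop_mono hφ1 tendsto_id

theorem main : ∃ (X : Type) (_ : TopologicalSpace X),
      T2Space X ∧ ConnectedSpace X ∧
      (∃ n : ℕ, Nonempty (ChartedSpace (EuclideanSpace ℝ (Fin n)) X)) ∧
      (∀ f : X → ℝ, Continuous f → BddAbove (Set.range f)) ∧
      (∃ u : ℕ → X, ∀ x : X, ¬ MapClusterPt x Filter.atTop u) := by
  obtain ⟨td, -⟩ := exists_TD
  obtain ⟨ld, -⟩ := exists_LD td
  refine final (glue td ld) every_cluster ?_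
  obtain ⟨l⟩ := ld.ne
  exact ⟨Sum.inr l, fun n h => h rfl⟩

end Pool.Agent.PCM
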