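import Pool.Agent.Lib_MP_08983e_gt.Thread

/-! Geometry of strips in the upper half plane. -/

open Set

namespace Pool.Agent.PCM

/-- the upper half plane -/
abbrev HP : Type := {p : ℝ × ℝ // 0 < p.2}

/-- pairs of end points -/
abbrev Pc : Type := {p : ℝ × ℝ // p.1 < p.2}

instance : Nonempty Pc := ⟨⟨(0, 1), by norm_num⟩⟩

/-- transverse coordinate -/
noncomputable def bet (a b x y : ℝ) : ℝ := ((x - a) * (b - x) - y ^ 2) / ((b - a) * y)

def near (m : ℕ) (u : HP) (p : Pc) : Prop := |bet p.1.1 p.1.2 u.1.1 u.1.2| ≤ m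

def sep (m : ℕ) (p q : Pc) : Prop := ∀ v : HP, ¬ (near m v p ∧ near m v q)

theorem sep_symm (m : ℕ) (p q : Pc) (h : sep m p q) : sep m q p := fun v hv => h v ⟨hv.2, hv.1⟩

theorem bet_le_iff {a b x y m : ℝ} (hab : a < b) (hy : 0 < y) :
    |bet a b x y| ≤ m ↔ |(x - a) * (b - x) - y ^ 2| ≤ m * ((b - a) * y) := by
  unfold bet
  have h : 0 < (b - a) * y := mul_pos (sub_pos.2 hab) hy
  rw [abs_div, abs_of_pos h, div_le_iff₀ h]

theorem box {a b x y m : ℝ} (hab : a < b) (hy : 0 < y) (hm : 0 ≤ m) (h : |bet a b x y| ≤ m) :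
    |x - (a + b) / 2| ≤ (m + 1) * ((b - a) / 2) ∧ y ≤ (2 * m + 1) * ((b - a) / 2) := by
  rw [bet_le_iff hab hy] at h
  obtain ⟨r, hr⟩ : ∃ r, r = (b - a) / 2 := ⟨_, rfl⟩
  obtain ⟨d, hd⟩ : ∃ d, d = x - (a + b) / 2 := ⟨_, rfl⟩
  have hr0 : 0 < r := by rw [hr]; linarith
  have h1 : (x - a) * (b - x) = r ^ 2 - d ^ 2 := by rw [hr, hd]; ring
  have h2 : (b - a) = 2 * r := by rw [hr]; ring
  rw [h1, h2, abs_le] at h
  rw [← hr, ← hd]
  have h3 : d ^ 2 + (y - m * r) ^ 2 ≤ (r * (1 + m)) ^ 2 := by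
    have : 0 ≤ m * r ^ 2 := by positivity
    nlinarith [h.1]
  have h4 : 0 ≤ r * (1 + m) := by positivity
  refine ⟨?_, ?_⟩
  · have h5 : d ^ 2 ≤ (r * (1 + m)) ^ 2 := by nlinarith [sq_nonneg (y - m * r)]
    have := abs_le_of_sq_le_sq h5 h4
    calc |d| ≤ r * (1 + m) := this
      _ = (m + 1) * r := by ring
  · have h5 : (y - m * r) ^ 2 ≤ (r * (1 + m)) ^ 2 := by nlinarith [sq_nonneg d]
    have := (abs_le.1 (abs_le_of_sq_le_sq h5 h4)).2
    linarith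

/-- separation constant -/
def KK (m : ℝ) : ℝ := m + 2 + 2 * (2 * m + 1) ^ 2 + 2 * m * (2 * m + 1)

theorem strips_disjoint {a b a' b' m : ℝ} (hab : a < b) (hab' : a' < b') (hm : 0 ≤ m)
    (hr : (b' - a') / 2 ≤ b - a)
    (h1 : KK m * ((b' - a') / 2) ≤ |(a' + b') / 2 - a|)
    (h2 : KK m * ((b' - a') / 2) ≤ |(a' + b') / 2 - b|)
    {x y : ℝ} (hy : 0 < y) (hs : |bet a b x y| ≤ m) (hs' : |bet a' b' x y| ≤ m) : False := by
  obtain ⟨h3, h4⟩ := box hab' hy hm hs'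
  rw [bet_le_iff hab hy] at hs
  obtain ⟨r', hr'⟩ : ∃ r', r' = (b' - a') / 2 := ⟨_, rfl⟩
  obtain ⟨c', hc'⟩ : ∃ c', c' = (a' + b') / 2 := ⟨_, rfl⟩
  obtain ⟨r, hr2⟩ : ∃ r, r = (b - a) / 2 := ⟨_, rfl⟩
  rw [← hr'] at hr h1 h2 h3 h4
  rw [← hc'] at h1 h2 h3
  have hr0 : 0 < r' := by rw [hr']; linarith
  have hrp : 0 < r := by rw [hr2]; linarith
  have e1 : b - a = 2 * r := by rw [hr2]; ring
  rw [e1] at hs hr
  have h5 : (KK m - m - 1) * r' ≤ |x - a| := by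
    have := abs_sub_abs_le_abs_sub (c' - a) (c' - x)
    have e2 : c' - a - (c' - x) = x - a := by ring
    rw [e2, abs_sub_comm c' x] at this
    linarith
  have h6 : (KK m - m - 1) * r' ≤ |x - b| := by
    have := abs_sub_abs_le_abs_sub (c' - b) (c' - x)
    have e2 : c' - b - (c' - x) = x - b := by ring
    rw [e2, abs_sub_comm c' x] at this
    linarith
  have hK : 0 ≤ KK m - m - 1 := by unfold KK; nlinarith
  have h7 : r * ((KK m - m - 1) * r') ≤ |x - a| * |x - b| := by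
    have h8 : 2 * r ≤ |x - a| + |x - b| := by
      have := abs_add_le (x - a) (b - x)
      have e2 : x - a + (b - x) = 2 * r := by rw [hr2]; ring
      rw [e2, abs_of_pos (by linarith : (0:ℝ) < 2 * r), abs_sub_comm b x] at this
      exact this
    have h9 : 0 ≤ (KK m - m - 1) * r' := mul_nonneg hK hr0.le
    rcases le_total r |x - a| with h10 | h10
    · exact mul_le_mul h10 h6 h9 (abs_nonneg _)
    · have h11 : r ≤ |x - b| := by linarith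
      rw [mul_comm |x - a|]
      exact mul_le_mul h11 h5 h9 (abs_nonneg _)
  have h8 : |x - a| * |x - b| ≤ y ^ 2 + m * (2 * r * y) := by
    rw [← abs_mul]
    have e2 : (x - a) * (x - b) = -((x - a) * (b - x) - y ^ 2 + y ^ 2) := by ring
    rw [e2, abs_neg]
    refine (abs_add_le _ _).trans ?_
    rw [abs_of_nonneg (sq_nonneg y)]
    linarith
  have h9 : y ^ 2 ≤ (2 * m + 1) ^ 2 * (2 * r * r') := by
    have h10 : y ^ 2 ≤ ((2 * m + 1) * r') ^ 2 := by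
      exact pow_le_pow_left₀ hy.le h4 2
    have h11 : ((2 * m + 1) * r') ^ 2 = (2 * m + 1) ^ 2 * (r' * r') := by ring
    have h12 : r' * r' ≤ 2 * r * r' := by nlinarith
    nlinarith [sq_nonneg (2 * m + 1)]
  have h10 : m * (2 * r * y) ≤ 2 * m * (2 * m + 1) * (r * r') := by
    have : m * (2 * r * y) ≤ m * (2 * r * ((2 * m + 1) * r')) := by
      refine mul_le_mul_of_nonneg_left ?_ hm
      refine mul_le_mul_of_nonneg_left h4 (by linarith)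
    linarith
  have h11 : 0 < r * r' := mul_pos hrp hr0
  have h12 : r * ((KK m - m - 1) * r') = (KK m - m - 1) * (r * r') := by ring
  rw [h12] at h7
  have h13 : (KK m - m - 1) * (r * r') ≤
      (2 * (2 * m + 1) ^ 2 + 2 * m * (2 * m + 1)) * (r * r') := by nlinarith
  have h14 := le_of_mul_le_mul_right h13 h11
  unfold KK at h14
  linarith

theorem near_of_close_end {a b x y K : ℝ} (hab : a < b) (hy : 0 < y) (hK : 0 ≤ K)
    (hyr : y ≤ (b - a) / 2) (h : |x - a| ≤ K * y ∨ |x - b| ≤ K * y) :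
    |bet a b x y| ≤ (K + 1) ^ 2 / 2 := by
  rw [bet_le_iff hab hy]
  obtain ⟨r, hr2⟩ : ∃ r, r = (b - a) / 2 := ⟨_, rfl⟩
  have e1 : b - a = 2 * r := by rw [hr2]; ring
  rw [← hr2] at hyr
  have h1 : |x - a| * |b - x| ≤ K * y * (2 * r + K * y) := by
    rcases h with h | h
    · have h2 : |b - x| ≤ 2 * r + K * y := by
        have e2 : b - x = 2 * r - (x - a) := by rw [← e1]; ring
        rw [e2]
        refine (abs_sub _ _).trans ?_
        rw [abs_of_pos (by linarith : (0:ℝ) < 2 * r)]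
        linarith
      exact mul_le_mul h h2 (abs_nonneg _) (by positivity)
    · have h2 : |x - a| ≤ 2 * r + K * y := by
        have e2 : x - a = 2 * r + (x - b) := by rw [← e1]; ring
        rw [e2]
        refine (abs_add_le _ _).trans ?_
        rw [abs_of_pos (by linarith : (0:ℝ) < 2 * r)]
        linarith
      rw [abs_sub_comm] at h
      rw [mul_comm]
      exact mul_le_mul h h2 (abs_nonneg _) (by positivity)
  rw [e1]
  have h2 : |(x - a) * (b - x) - y ^ 2| ≤ K * y * (2 * r + K * y) + y ^ 2 := by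
    refine (abs_sub _ _).trans ?_
    rw [abs_mul, abs_of_nonneg (sq_nonneg y)]
    linarith
  refine h2.trans ?_
  have h3 : y * y ≤ r * y := mul_le_mul_of_nonneg_right hyr hy.le
  nlinarith [sq_nonneg K, mul_nonneg hK hK]

theorem near_of_comparable {a b x y C K : ℝ} (hab : a < b) (hy : 0 < y)
    (hyr : (b - a) / 2 ≤ y) (hyC : y ≤ C * ((b - a) / 2))
    (h : |x - (a + b) / 2| ≤ K * ((b - a) / 2)) :
    |bet a b x y| ≤ (1 + K ^ 2 + C ^ 2) / 2 := by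
  rw [bet_le_iff hab hy]
  obtain ⟨r, hr2⟩ : ∃ r, r = (b - a) / 2 := ⟨_, rfl⟩
  obtain ⟨d, hd⟩ : ∃ d, d = x - (a + b) / 2 := ⟨_, rfl⟩
  have e1 : b - a = 2 * r := by rw [hr2]; ring
  have e2 : (x - a) * (b - x) = r ^ 2 - d ^ 2 := by rw [hr2, hd]; ring
  rw [← hr2] at hyr hyC h
  rw [← hd] at h
  rw [e1, e2]
  have hr0 : 0 < r := by rw [hr2]; linarith
  have h1 : d ^ 2 ≤ K ^ 2 * r ^ 2 := by
    have := pow_le_pow_left₀ (abs_nonneg d) h 2
    rw [sq_abs] at this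
    nlinarith
  have h2 : y ^ 2 ≤ C ^ 2 * r ^ 2 := by
    have := pow_le_pow_left₀ hy.le hyC 2
    nlinarith
  have h3 : r ^ 2 ≤ r * y := by nlinarith
  have h4 : |r ^ 2 - d ^ 2 - y ^ 2| ≤ r ^ 2 + d ^ 2 + y ^ 2 := by
    rw [abs_le]
    constructor <;> nlinarith [sq_nonneg d, sq_nonneg r, sq_nonneg y]
  refine h4.trans ?_
  have h5 : r ^ 2 + d ^ 2 + y ^ 2 ≤ (1 + K ^ 2 + C ^ 2) * r ^ 2 := by nlinarith
  refine h5.trans ?_
  have h6 : (1 + K ^ 2 + C ^ 2) * r ^ 2 ≤ (1 + K ^ 2 + C ^ 2) * (r * y) :=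
    mul_le_mul_of_nonneg_left h3 (by positivity)
  nlinarith

/-- lanes around a point -/
def lane (u : HP) (i : ℕ) : Set Pc :=
  {p | u.1.1 - u.1.2 - 7 / 8 * (1 / 2) ^ i * u.1.2 < p.1.1 ∧
    p.1.1 < u.1.1 - u.1.2 - 5 / 8 * (1 / 2) ^ i * u.1.2 ∧
    u.1.1 + u.1.2 + 5 / 8 * (1 / 2) ^ i * u.1.2 < p.1.2 ∧
    p.1.2 < u.1.1 + u.1.2 + 7 / 8 * (1 / 2) ^ i * u.1.2}

theorem half_pow_bounds (i : ℕ) : 0 < (1 / 2 : ℝ) ^ i ∧ (1 / 2 : ℝ) ^ i ≤ 1 :=
  ⟨by positivity, pow_le_one₀ (by norm_num) (by norm_num)⟩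

/-- crude consequences of being in a lane -/
theorem lane_bounds {u : HP} {i : ℕ} {p : Pc} (hp : p ∈ lane u i) :
    u.1.1 - 2 * u.1.2 < p.1.1 ∧ p.1.1 < u.1.1 - u.1.2 ∧ u.1.1 + u.1.2 < p.1.2 ∧
      p.1.2 < u.1.1 + 2 * u.1.2 := by
  obtain ⟨h1, h2, h3, h4⟩ := hp
  obtain ⟨h5, h6⟩ := half_pow_bounds i
  have hy : 0 < u.1.2 := u.2
  have h7 : 0 < (1 / 2 : ℝ) ^ i * u.1.2 := mul_pos h5 hy
  have h8 : (1 / 2 : ℝ) ^ i * u.1.2 ≤ u.1.2 := by nlinarith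
  refine ⟨?_, ?_, ?_, ?_⟩ <;> nlinarith

theorem near_lane (u : HP) (i : ℕ) (p : Pc) (hp : p ∈ lane u i) : near 2 u p := by
  obtain ⟨h1, h2, h3, h4⟩ := lane_bounds hp
  unfold near
  have hy : 0 < u.1.2 := u.2
  rw [bet_le_iff p.2 hy]
  obtain ⟨s, hs⟩ : ∃ s, s = u.1.1 - p.1.1 := ⟨_, rfl⟩
  obtain ⟨t, ht⟩ : ∃ t, t = p.1.2 - u.1.1 := ⟨_, rfl⟩
  have e1 : p.1.2 - p.1.1 = s + t := by rw [hs, ht]; ring
  rw [e1, ← hs, ← ht]
  have h5 : u.1.2 < s := by linarith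
  have h6 : s < 2 * u.1.2 := by linarith
  have h7 : u.1.2 < t := by linarith
  have h8 : t < 2 * u.1.2 := by linarith
  rw [abs_le]
  push_cast
  constructor <;> nlinarith

theorem lane_box {u v : HP} {i m : ℕ} {p : Pc} (hp : p ∈ lane u i) (hv : near m v p) :
    |v.1.1 - u.1.1| ≤ (4 * m + 3) * u.1.2 ∧ v.1.2 ≤ (4 * m + 3) * u.1.2 := by
  obtain ⟨h1, h2, h3, h4⟩ := lane_bounds hp
  have hy : 0 < u.1.2 := u.2
  have hm : (0 : ℝ) ≤ m := Nat.cast_nonneg m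
  obtain ⟨h5, h6⟩ := box p.2 v.2 hm hv
  have h7 : (p.1.2 - p.1.1) / 2 ≤ 2 * u.1.2 := by linarith
  have h8 : ((m : ℝ) + 1) * ((p.1.2 - p.1.1) / 2) ≤ (m + 1) * (2 * u.1.2) :=
    mul_le_mul_of_nonneg_left h7 (by linarith)
  have h9 : (2 * (m : ℝ) + 1) * ((p.1.2 - p.1.1) / 2) ≤ (2 * m + 1) * (2 * u.1.2) :=
    mul_le_mul_of_nonneg_left h7 (by linarith)
  have h10 : 0 ≤ (m : ℝ) * u.1.2 := mul_nonneg hm hy.le
  refine ⟨?_, by nlinarith⟩
  have h11 : |v.1.1 - (p.1.1 + p.1.2) / 2| ≤ (m + 1) * (2 * u.1.2) := h5.trans h8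
  rw [abs_le] at h11 ⊢
  constructor <;> nlinarith [h11.1, h11.2]

theorem lanes_apart {u : HP} {i i' : ℕ} (hii : i < i') {p p' : Pc} (hp : p ∈ lane u i)
    (hp' : p' ∈ lane u i') {e e' : ℝ} (he : e = p.1.1 ∨ e = p.1.2) (he' : e' = p'.1.1 ∨ e' = p'.1.2) :
    3 / 16 * (1 / 2) ^ i * u.1.2 ≤ |e - e'| := by
  have h0 : (1 / 2 : ℝ) ^ i' ≤ 1 / 2 * (1 / 2) ^ i := by
    have h1 : i + 1 ≤ i' := hii
    calc (1 / 2 : ℝ) ^ i' ≤ (1 / 2) ^ (i + 1) := pow_le_pow_of_le_one (by norm_num) (by norm_num) h1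
      _ = 1 / 2 * (1 / 2) ^ i := by ring
  obtain ⟨h5, h6⟩ := half_pow_bounds i
  have hy : 0 < u.1.2 := u.2
  have h9 : (1 / 2 : ℝ) ^ i' * u.1.2 ≤ 1 / 2 * ((1 / 2) ^ i * u.1.2) := by nlinarith
  have h10 : (1 / 2 : ℝ) ^ i * u.1.2 ≤ u.1.2 := by nlinarith
  have h11 : 0 < (1 / 2 : ℝ) ^ i * u.1.2 := mul_pos h5 hy
  have hb := lane_bounds hp
  have hb' := lane_bounds hp'
  obtain ⟨h1, h2, h3, h4⟩ := hp
  obtain ⟨h1', h2', h3', h4'⟩ := hp'
  rcases he with rfl | rfl <;> rcases he' with rfl | rfl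
  · rw [le_abs]; right; nlinarith
  · rw [le_abs]; right; nlinarith [hb.2.1, hb'.2.2.1]
  · rw [le_abs]; left; nlinarith [hb.2.2.1, hb'.2.1]
  · rw [le_abs]; left; nlinarith

theorem not_sep_big {u : HP} {i m : ℕ} {p q : Pc} (hp : p ∈ lane u i) (hns : ¬ sep m p q)
    (hy : (q.1.2 - q.1.1) / 2 ≤ u.1.2) :
    ∃ e, (e = p.1.1 ∨ e = p.1.2) ∧
      |(q.1.1 + q.1.2) / 2 - e| ≤ KK m * ((q.1.2 - q.1.1) / 2) := by
  by_contra hcon
  push Not at hcon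
  apply hns
  intro v hv
  obtain ⟨h1, h2, h3, h4⟩ := lane_bounds hp
  have hup : 0 < u.1.2 := u.2
  exact strips_disjoint p.2 q.2 (Nat.cast_nonneg m) (by linarith)
    (hcon _ (Or.inl rfl)).le (hcon _ (Or.inr rfl)).le v.2 hv.1 hv.2

theorem not_sep_small {u : HP} {i m : ℕ} {p q : Pc} (hp : p ∈ lane u i) (hns : ¬ sep m p q)
    (hy : u.1.2 ≤ (q.1.2 - q.1.1) / 2) :
    |u.1.1 - q.1.1| ≤ (2 * KK m + 1) * u.1.2 ∨ |u.1.1 - q.1.2| ≤ (2 * KK m + 1) * u.1.2 := by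
  by_contra hcon
  push Not at hcon
  apply hns
  intro v hv
  obtain ⟨h1, h2, h3, h4⟩ := lane_bounds hp
  have hup : 0 < u.1.2 := u.2
  have hm : (0 : ℝ) ≤ m := Nat.cast_nonneg m
  have hK : 0 ≤ KK (m : ℝ) := by unfold KK; positivity
  have h7 : (p.1.2 - p.1.1) / 2 ≤ 2 * u.1.2 := by linarith
  have h8 : KK (m : ℝ) * ((p.1.2 - p.1.1) / 2) ≤ KK m * (2 * u.1.2) :=
    mul_le_mul_of_nonneg_left h7 hK
  have h9 : |u.1.1 - (p.1.1 + p.1.2) / 2| ≤ u.1.2 := by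
    rw [abs_le]
    constructor <;> linarith
  have h10 : ∀ z : ℝ, (2 * KK (m : ℝ) + 1) * u.1.2 < |u.1.1 - z| →
      KK (m : ℝ) * ((p.1.2 - p.1.1) / 2) ≤ |(p.1.1 + p.1.2) / 2 - z| := by
    intro z hz
    have := abs_sub_abs_le_abs_sub (u.1.1 - z) (u.1.1 - (p.1.1 + p.1.2) / 2)
    have e2 : u.1.1 - z - (u.1.1 - (p.1.1 + p.1.2) / 2) = (p.1.1 + p.1.2) / 2 - z := by ring
    rw [e2] at this
    linarith
  exact strips_disjoint q.2 p.2 hm (by linarith)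
    (h10 _ hcon.1) (h10 _ hcon.2) v.2 hv.2 hv.1

theorem lanes_sep (m i i' : ℕ) (hii : i ≠ i') : ∃ m' : ℕ, ∀ (u : HP) (q : Pc), ¬ near m' u q →
    (∀ p ∈ lane u i, sep m p q) ∨ (∀ p ∈ lane u i', sep m p q) := by
  wlog hlt : i < i' generalizing i i'
  · obtain ⟨m', hm'⟩ := this i' i hii.symm (by omega)
    exact ⟨m', fun u q h => (hm' u q h).symm⟩
  have hm : (0 : ℝ) ≤ m := Nat.cast_nonneg m
  have hK : 0 ≤ KK (m : ℝ) := by unfold KK; positivity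
  obtain ⟨C, hC⟩ : ∃ C : ℝ, C = 32 / 3 * 2 ^ i * KK m := ⟨_, rfl⟩
  have hC0 : 0 ≤ C := by rw [hC]; positivity
  obtain ⟨m', hm'⟩ := exists_nat_ge ((2 * KK (m : ℝ) + 1 + 1) ^ 2 / 2 +
    (1 + (2 * C + KK m) ^ 2 + C ^ 2) / 2)
  refine ⟨m', ?_⟩
  intro u q hnn
  by_contra hcon
  push Not at hcon
  obtain ⟨⟨p, hp, hps⟩, ⟨p', hp', hps'⟩⟩ := hcon
  apply hnn
  unfold near
  have hup : 0 < u.1.2 := u.2
  rcases le_total u.1.2 ((q.1.2 - q.1.1) / 2) with hy | hy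
  · have h1 := near_of_close_end q.2 hup (by positivity) hy (not_sep_small hp hps hy)
    refine h1.trans (le_trans ?_ hm')
    have : 0 ≤ (1 + (2 * C + KK (m : ℝ)) ^ 2 + C ^ 2) / 2 := by positivity
    linarith
  · obtain ⟨e, he, hee⟩ := not_sep_big hp hps hy
    obtain ⟨e', he', hee'⟩ := not_sep_big hp' hps' hy
    have hr0 : 0 < (q.1.2 - q.1.1) / 2 := by have := q.2; linarith
    have h1 := lanes_apart hlt hp hp' he he'
    have h2 : |e - e'| ≤ 2 * KK m * ((q.1.2 - q.1.1) / 2) := by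
      have := abs_sub_le e ((q.1.1 + q.1.2) / 2) e'
      rw [abs_sub_comm] at hee
      linarith
    have h3 : u.1.2 ≤ C * ((q.1.2 - q.1.1) / 2) := by
      have h4 := h1.trans h2
      have h5 : (2 : ℝ) ^ i * (1 / 2) ^ i = 1 := by
        rw [← mul_pow]; norm_num
      have h6 : (0 : ℝ) < 2 ^ i := by positivity
      have h7 := mul_le_mul_of_nonneg_left h4 h6.le
      have e1 : (2 : ℝ) ^ i * (3 / 16 * (1 / 2) ^ i * u.1.2) = 3 / 16 * u.1.2 := by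
        calc (2 : ℝ) ^ i * (3 / 16 * (1 / 2) ^ i * u.1.2) =
            3 / 16 * ((2 : ℝ) ^ i * (1 / 2) ^ i) * u.1.2 := by ring
          _ = 3 / 16 * u.1.2 := by rw [h5]; ring
      rw [e1] at h7
      rw [hC]
      nlinarith
    have h4 : |u.1.1 - e| ≤ 2 * u.1.2 := by
      obtain ⟨h5, h6, h7, h8⟩ := lane_bounds hp
      rw [abs_le]
      rcases he with rfl | rfl <;> constructor <;> linarith
    have h5 : |u.1.1 - (q.1.1 + q.1.2) / 2| ≤ (2 * C + KK m) * ((q.1.2 - q.1.1) / 2) := by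
      have := abs_sub_le u.1.1 e ((q.1.1 + q.1.2) / 2)
      rw [abs_sub_comm] at hee
      nlinarith
    have h6 := near_of_comparable q.2 hup hy h3 h5
    refine h6.trans (le_trans ?_ hm')
    have : 0 ≤ (2 * KK (m : ℝ) + 1 + 1) ^ 2 / 2 := by positivity
    linarith

end Pool.Agent.PCM
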