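import Pool.Agent.Lib_MP_08983e_gt.Cells

/-! Germs at the ideal boundary of the half plane. -/

open Set Filter Topology

namespace Pool.Agent.PCM

/-- Pruefer coordinates at a centre -/
noncomputable def kap (c : Option ℝ) (u : HP) : ℝ × ℝ :=
  match c with
  | some a => ((u.1.1 - a) / u.1.2, u.1.2)
  | none => (u.1.1 / u.1.2, 1 / u.1.2)

/-- germs with finite slope -/
noncomputable def germ (c : Option ℝ) (β : ℝ) : Filter HP := comap (kap c) (𝓝 (β, 0))

/-- base point of a centre -/
noncomputable def bp (c : Option ℝ) : ℝ := c.getD 0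

/-- inverse slope -/
noncomputable def rat (c : Option ℝ) (u : HP) : ℝ := |u.1.1 - bp c| / u.1.2

/-- logarithmic scale -/
noncomputable def scl (c : Option ℝ) (u : HP) : ℝ :=
  match c with
  | some a => - Real.log |u.1.1 - a|
  | none => Real.log |u.1.1|

/-- tangential germs -/
noncomputable def tang (c : Option ℝ) : Filter HP := comap (rat c) atTop ⊓ comap (scl c) atTop

/-- ends -/
noncomputable def fend (c : Option ℝ) : Filter (ℝ × ℝ) :=
  match c with
  | some a => 𝓝 (a, 0)
  | none => Bornology.cobounded (ℝ × ℝ)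

theorem fend_disjoint {c c' : Option ℝ} (h : c ≠ c') : Disjoint (fend c) (fend c') := by
  rcases c with _ | a <;> rcases c' with _ | a'
  · exact absurd rfl h
  · exact (Metric.disjoint_nhds_cobounded _).symm
  · exact Metric.disjoint_nhds_cobounded _
  · refine disjoint_nhds_nhds.2 ?_
    intro h2
    exact h (congrArg some (Prod.mk.inj h2).1)

theorem fend_disjoint_nhds (c : Option ℝ) (u : HP) : Disjoint (fend c) (𝓝 u.1) := by
  rcases c with _ | a
  · exact (Metric.disjoint_nhds_cobounded _).symm
  · refine disjoint_nhds_nhds.2 ?_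
    intro h2
    have h3 := u.2
    have h4 : (0 : ℝ) = u.1.2 := congrArg Prod.snd h2
    linarith

theorem continuous_kap (c : Option ℝ) : Continuous (kap c) := by
  rcases c with _ | a
  · unfold kap
    exact Continuous.prodMk (Continuous.div (by fun_prop) (by fun_prop) (fun u => u.2.ne'))
      (Continuous.div (by fun_prop) (by fun_prop) (fun u => u.2.ne'))
  · unfold kap
    exact Continuous.prodMk (Continuous.div (by fun_prop) (by fun_prop) (fun u => u.2.ne'))
      (by fun_prop)

theorem tendsto_germ (c : Option ℝ) (β : ℝ) : Tendsto (Subtype.val : HP → ℝ × ℝ) (germ c β) (fend c) := by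
  have h0 : Tendsto (kap c) (germ c β) (𝓝 (β, 0)) := tendsto_comap
  have h1 : Tendsto (fun u => (kap c u).1) (germ c β) (𝓝 β) := (continuous_fst.tendsto _).comp h0
  have h2 : Tendsto (fun u => (kap c u).2) (germ c β) (𝓝 0) := (continuous_snd.tendsto _).comp h0
  rcases c with _ | a
  · rw [fend, ← comap_norm_atTop, tendsto_comap_iff]
    have h3 : Tendsto (fun u : HP => (1 / u.1.2)⁻¹) (germ none β) atTop := by
      refine Tendsto.inv_tendsto_nhdsGT_zero ?_
      refine tendsto_nhdsWithin_iff.2 ⟨h2, Eventually.of_forall fun u => ?_⟩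
      have := u.2
      exact one_div_pos.2 this
    refine tendsto_atTop_mono (fun u : HP => ?_) h3
    have hu := u.2
    simp only [one_div, inv_inv, Function.comp_apply]
    calc u.1.2 ≤ |u.1.2| := le_abs_self _
      _ = ‖u.1.2‖ := (Real.norm_eq_abs _).symm
      _ ≤ ‖u.1‖ := norm_snd_le _
  · rw [fend]
    have h3 : Tendsto (fun u : HP => (a + (kap (some a) u).1 * (kap (some a) u).2,
        (kap (some a) u).2)) (germ (some a) β) (𝓝 (a + β * 0, 0)) :=
      (tendsto_const_nhds.add (h1.mul h2)).prodMk_nhds h2
    have h4 : (fun u : HP => (a + (kap (some a) u).1 * (kap (some a) u).2,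
        (kap (some a) u).2)) = Subtype.val := by
      ext1 u
      have := u.2
      refine Prod.ext ?_ ?_
      · simp only [kap]
        field_simp
        ring
      · rfl
    rw [h4] at h3
    simpa using h3

theorem tendsto_tang (c : Option ℝ) : Tendsto (Subtype.val : HP → ℝ × ℝ) (tang c) (fend c) := by
  have h1 : Tendsto (rat c) (tang c) atTop := tendsto_comap.mono_left inf_le_left
  have h2 : Tendsto (scl c) (tang c) atTop := tendsto_comap.mono_left inf_le_right
  rcases c with _ | a
  · rw [fend, ← comap_norm_atTop, tendsto_comap_iff]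
    refine tendsto_atTop_mono (fun u : HP => ?_) h2
    simp only [scl, Function.comp_apply]
    calc Real.log |u.1.1| ≤ |u.1.1| := Real.log_le_self (abs_nonneg _)
      _ = ‖u.1.1‖ := (Real.norm_eq_abs _).symm
      _ ≤ ‖u.1‖ := norm_fst_le _
  · rw [fend]
    have h3 : Tendsto (fun u : HP => Real.exp (-(scl (some a) u))) (tang (some a)) (𝓝 0) :=
      Real.tendsto_exp_neg_atTop_nhds_zero.comp h2
    have hpos : ∀ᶠ u in tang (some a), 1 ≤ rat (some a) u := h1.eventually_ge_atTop 1
    have habs : ∀ᶠ u in tang (some a), |u.1.1 - a| = Real.exp (-(scl (some a) u)) := by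
      filter_upwards [hpos] with u hu
      simp only [scl, neg_neg]
      rw [Real.exp_log]
      by_contra h
      have h5 : |u.1.1 - a| = 0 := le_antisymm (not_lt.1 h) (abs_nonneg _)
      simp only [rat, bp, Option.getD_some] at hu
      rw [h5] at hu
      norm_num at hu
    have h4 : Tendsto (fun u : HP => |u.1.1 - a|) (tang (some a)) (𝓝 0) :=
      h3.congr' (habs.mono fun u hu => hu.symm)
    have h5 : Tendsto (fun u : HP => u.1.1 - a) (tang (some a)) (𝓝 0) :=
      (tendsto_zero_iff_abs_tendsto_zero _).2 h4
    have h6 : Tendsto (fun u : HP => u.1.1) (tang (some a)) (𝓝 a) := by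
      have := h5.add_const a
      simpa using this
    have h7 : Tendsto (fun u : HP => u.1.2) (tang (some a)) (𝓝 0) := by
      refine tendsto_of_tendsto_of_tendsto_of_le_of_le' tendsto_const_nhds h4
        (Eventually.of_forall fun u => u.2.le) ?_
      filter_upwards [hpos] with u hu
      simp only [rat, bp, Option.getD_some] at hu
      rw [le_div_iff₀ u.2] at hu
      linarith
    exact h6.prodMk_nhds h7

theorem germ_disjoint_nhds (c : Option ℝ) (β : ℝ) (u : HP) : Disjoint (germ c β) (𝓝 u) :=
  (tendsto_germ c β).disjoint (fend_disjoint_nhds c u) continuous_subtype_val.continuousAt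

theorem tang_disjoint_nhds (c : Option ℝ) (u : HP) : Disjoint (tang c) (𝓝 u) :=
  (tendsto_tang c).disjoint (fend_disjoint_nhds c u) continuous_subtype_val.continuousAt

theorem germ_disjoint_germ {c c' : Option ℝ} {β β' : ℝ} (h : (c, β) ≠ (c', β')) :
    Disjoint (germ c β) (germ c' β') := by
  by_cases hc : c = c'
  · subst hc
    have hβ : β ≠ β' := fun h2 => h (by rw [h2])
    have h0 : Tendsto (kap c) (germ c β) (𝓝 (β, 0)) := tendsto_comap
    have h1 : Tendsto (kap c) (germ c β') (𝓝 (β', 0)) := tendsto_comap
    refine h0.disjoint (disjoint_nhds_nhds.2 ?_) h1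
    intro h2
    exact hβ (Prod.mk.inj h2).1
  · exact (tendsto_germ c β).disjoint (fend_disjoint hc) (tendsto_germ c' β')

theorem abs_kap_fst (c : Option ℝ) (u : HP) : |(kap c u).1| = rat c u := by
  have hu := u.2
  rcases c with _ | a
  · simp [kap, rat, bp, abs_div, abs_of_pos hu]
  · simp [kap, rat, bp, abs_div, abs_of_pos hu]

theorem tang_disjoint_germ (c c' : Option ℝ) (β : ℝ) : Disjoint (tang c) (germ c' β) := by
  by_cases hc : c = c'
  · subst hc
    have h1 : Tendsto (rat c) (tang c) atTop := tendsto_comap.mono_left inf_le_left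
    have h0 : Tendsto (kap c) (germ c β) (𝓝 (β, 0)) := tendsto_comap
    have h2 : Tendsto (fun u => |(kap c u).1|) (germ c β) (𝓝 |β|) :=
      ((continuous_fst.abs).tendsto (β, (0 : ℝ))).comp h0
    have h3 : Tendsto (rat c) (germ c β) (𝓝 |β|) := by
      refine h2.congr fun u => abs_kap_fst c u
    exact h1.disjoint (disjoint_nhds_atTop _).symm h3
  · exact (tendsto_tang c).disjoint (fend_disjoint hc) (tendsto_germ c' β)

theorem tang_disjoint_tang {c c' : Option ℝ} (h : c ≠ c') : Disjoint (tang c) (tang c') :=
  (tendsto_tang c).disjoint (fend_disjoint h) (tendsto_tang c')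

end Pool.Agent.PCM
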