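import Pool.Agent.Lib_MP_08983e_gt.Data

/-! The two kinds of attaching maps. -/

open Set Filter Topology

namespace Pool.Agent.PCM

/-! ### threads -/

/-- domain of the thread maps -/
def tO : Set (ℝ × ℝ) := {q | Int.fract q.2⁻¹ ≠ 0}

/-- thread maps -/
noncomputable def tpsi (P : ℤ → Pc) (q : ℝ × ℝ) : HP :=
  toHP (pF (P ⌊q.2⁻¹⌋) (q.1, Int.fract q.2⁻¹))

/-- inverses on the cells -/
noncomputable def tG (P : ℤ → Pc) (k : ℤ) (u : HP) : ℝ × ℝ := (pb (P k) u, (k + pf (P k) u)⁻¹)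

theorem tO_ne {q : ℝ × ℝ} (h : q ∈ tO) : q.2 ≠ 0 := by
  intro h2
  apply h
  rw [h2, inv_zero, Int.fract_zero]

theorem tO_bounds {q : ℝ × ℝ} (h : q ∈ tO) : 0 < Int.fract q.2⁻¹ ∧ Int.fract q.2⁻¹ < 1 :=
  ⟨lt_of_le_of_ne (Int.fract_nonneg _) (Ne.symm h), Int.fract_lt_one _⟩

theorem floor_eventually {s : ℝ} (h : Int.fract s ≠ 0) : ∀ᶠ r in 𝓝 s, ⌊r⌋ = ⌊s⌋ ∧
    Int.fract r ≠ 0 := by
  have h1 : (⌊s⌋ : ℝ) < s := by
    have := lt_of_le_of_ne (Int.fract_nonneg s) (Ne.symm h)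
    rw [Int.fract] at this
    linarith
  have h2 : s < ⌊s⌋ + 1 := Int.lt_floor_add_one s
  filter_upwards [Ioo_mem_nhds h1 h2] with r hr
  have h3 : ⌊r⌋ = ⌊s⌋ := by
    rw [Int.floor_eq_iff]
    exact ⟨hr.1.le, hr.2⟩
  refine ⟨h3, ?_⟩
  rw [Int.fract, h3]
  have := hr.1
  intro h4
  linarith

theorem isOpen_tO : IsOpen tO := by
  rw [isOpen_iff_mem_nhds]
  intro q hq
  have h1 : ContinuousAt (fun r : ℝ × ℝ => r.2⁻¹) q := continuousAt_snd.inv₀ (tO_ne hq)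
  exact (h1.eventually (floor_eventually hq)).mono fun r hr => hr.2

theorem tpsi_continuousAt (P : ℤ → Pc) {q : ℝ × ℝ} (hq : q ∈ tO) : ContinuousAt (tpsi P) q := by
  have h1 : ContinuousAt (fun r : ℝ × ℝ => r.2⁻¹) q := continuousAt_snd.inv₀ (tO_ne hq)
  have h2 : (fun r : ℝ × ℝ => toHP (pF (P ⌊q.2⁻¹⌋) (r.1, r.2⁻¹ - ⌊q.2⁻¹⌋))) =ᶠ[𝓝 q] tpsi P := by
    refine (h1.eventually (floor_eventually hq)).mono fun r hr => ?_
    unfold tpsi
    rw [Int.fract, hr.1]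
  refine ContinuousAt.congr ?_ h2
  have h3 : 0 < (pF (P ⌊q.2⁻¹⌋) (q.1, q.2⁻¹ - ⌊q.2⁻¹⌋)).2 :=
    pF_pos _ (tO_bounds hq).1 (tO_bounds hq).2
  refine ContinuousAt.comp (g := toHP) (continuousAt_toHP h3) ?_
  refine ContinuousAt.comp (g := pF (P ⌊q.2⁻¹⌋)) (continuous_pF _).continuousAt ?_
  exact continuousAt_fst.prodMk (h1.sub continuousAt_const)

theorem floor_add (k : ℤ) {f : ℝ} (h0 : 0 < f) (h1 : f < 1) :
    ⌊(k : ℝ) + f⌋ = k ∧ Int.fract ((k : ℝ) + f) = f := by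
  have h2 : ⌊(k : ℝ) + f⌋ = k := by
    rw [Int.floor_eq_iff]
    constructor <;> linarith
  refine ⟨h2, ?_⟩
  rw [Int.fract, h2]
  ring

theorem tG_snd_inv (P : ℤ → Pc) (k : ℤ) (u : HP) : (tG P k u).2⁻¹ = k + pf (P k) u := by
  unfold tG
  simp only [inv_inv]

theorem tG_mem (P : ℤ → Pc) (k : ℤ) (u : HP) : tG P k u ∈ tO := by
  change Int.fract (tG P k u).2⁻¹ ≠ 0
  rw [tG_snd_inv, (floor_add k (pf_pos _ _) (pf_lt_one _ _)).2]
  exact (pf_pos _ _).ne'

theorem tpsi_tG (P : ℤ → Pc) (k : ℤ) (u : HP) : tpsi P (tG P k u) = u := by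
  unfold tpsi
  rw [tG_snd_inv, (floor_add k (pf_pos _ _) (pf_lt_one _ _)).1,
    (floor_add k (pf_pos _ _) (pf_lt_one _ _)).2]
  exact toHP_pF_inv _ _

theorem tG_tpsi (P : ℤ → Pc) {q : ℝ × ℝ} (hq : q ∈ tO) : tG P ⌊q.2⁻¹⌋ (tpsi P q) = q := by
  obtain ⟨h0, h1⟩ := tO_bounds hq
  unfold tG tpsi
  rw [pb_toHP _ (q := (q.1, Int.fract q.2⁻¹)) h0 h1,
    pf_toHP _ (q := (q.1, Int.fract q.2⁻¹)) h0 h1]
  refine Prod.ext rfl ?_
  simp only
  rw [Int.floor_add_fract, inv_inv]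

theorem near_tpsi (P : ℤ → Pc) {q : ℝ × ℝ} (hq : q ∈ tO) {m : ℕ} (h : |q.1| ≤ m) :
    near m (tpsi P q) (P ⌊q.2⁻¹⌋) := by
  obtain ⟨h0, h1⟩ := tO_bounds hq
  rw [near_iff]
  unfold tpsi
  rw [pb_toHP _ (q := (q.1, Int.fract q.2⁻¹)) h0 h1]
  exact h

theorem continuous_tG (P : ℤ → Pc) (k : ℤ) : Continuous (tG P k) := by
  unfold tG
  refine (continuous_pb _).prodMk ?_
  refine Continuous.inv₀ (continuous_const.add (continuous_pf _)) ?_
  intro u h
  have h0 := pf_pos (P k) u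
  have h1 := pf_lt_one (P k) u
  rcases le_or_gt 0 k with hk | hk
  · have : (0 : ℝ) ≤ k := by exact_mod_cast hk
    linarith
  · have h2 : k ≤ -1 := by omega
    have : (k : ℝ) ≤ -1 := by exact_mod_cast h2
    linarith

theorem isOpen_image_of_inverses {E X K : Type} [TopologicalSpace E] [TopologicalSpace X]
    {ψ : E → X} {O : Set E}
    {G : K → X → E} (hG : ∀ k, Continuous (G k)) (h1 : ∀ k u, ψ (G k u) = u)
    (h2 : ∀ q ∈ O, ∃ k, G k (ψ q) = q) {V : Set E} (hV : IsOpen V) (hVO : V ⊆ O) :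
    IsOpen (ψ '' V) := by
  have h3 : ψ '' V = ⋃ k, G k ⁻¹' V := by
    ext u
    rw [mem_iUnion]
    constructor
    · rintro ⟨q, hq, rfl⟩
      obtain ⟨k, hk⟩ := h2 q (hVO hq)
      refine ⟨k, ?_⟩
      change G k (ψ q) ∈ V
      rw [hk]
      exact hq
    · rintro ⟨k, hk⟩
      exact ⟨G k u, hk, h1 k u⟩
  rw [h3]
  exact isOpen_iUnion fun k => hV.preimage (hG k)

theorem tpsi_open (P : ℤ → Pc) {V : Set (ℝ × ℝ)} (hV : IsOpen V) (hVO : V ⊆ tO) :
    IsOpen (tpsi P '' V) :=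
  isOpen_image_of_inverses (continuous_tG P) (tpsi_tG P) (fun _ hq => ⟨_, tG_tpsi P hq⟩) hV hVO

theorem dense_tO : Dense tO := by
  have h1 : ({t : ℝ | Int.fract t⁻¹ = 0}).Countable := by
    refine (countable_range (fun k : ℤ => ((k : ℝ))⁻¹)).mono ?_
    intro t ht
    have ht' : Int.fract t⁻¹ = 0 := ht
    rw [Int.fract, sub_eq_zero] at ht'
    refine ⟨⌊t⁻¹⌋, ?_⟩
    simp only
    rw [← ht', inv_inv]
  have h2 := (dense_univ (X := ℝ)).prod (h1.dense_compl ℝ)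
  refine h2.mono ?_
  rintro q ⟨-, hq⟩
  exact hq

/-- a point outside the domain which is not on the line `t = 0` -/
theorem exists_int_of_notMem {q : ℝ × ℝ} (hq : q ∉ tO) (h : q.2 ≠ 0) :
    ∃ k : ℤ, k ≠ 0 ∧ q.2⁻¹ = k := by
  have h1 : Int.fract q.2⁻¹ = 0 := by
    by_contra h2
    exact hq h2
  rw [Int.fract, sub_eq_zero] at h1
  refine ⟨⌊q.2⁻¹⌋, ?_, h1⟩
  intro h2
  rw [h2] at h1
  simp only [Int.cast_zero, inv_eq_zero] at h1
  exact h h1

/-- upper cell -/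
def cellU (k : ℤ) : Set (ℝ × ℝ) := {q | q ∈ tO ∧ ⌊q.2⁻¹⌋ = k}

theorem cells_near {q : ℝ × ℝ} (h : q.2 ≠ 0) {k : ℤ} (hk : q.2⁻¹ = k) :
    ∀ᶠ r in 𝓝 q, r ∈ tO → r ∈ cellU k ∪ cellU (k - 1) := by
  have h1 : ContinuousAt (fun r : ℝ × ℝ => r.2⁻¹) q := continuousAt_snd.inv₀ h
  have h2 : Ioo ((k : ℝ) - 1) (k + 1) ∈ 𝓝 (q.2⁻¹) := by
    rw [hk]
    exact Ioo_mem_nhds (by linarith) (by linarith)
  filter_upwards [h1.eventually h2] with r hr hrO
  rcases le_or_gt (k : ℝ) r.2⁻¹ with h3 | h3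
  · left
    refine ⟨hrO, ?_⟩
    rw [Int.floor_eq_iff]
    exact ⟨h3, hr.2⟩
  · right
    refine ⟨hrO, ?_⟩
    rw [Int.floor_eq_iff]
    push_cast
    exact ⟨hr.1.le, by linarith⟩

theorem tpsi_germ_a (P : ℤ → Pc) {q : ℝ × ℝ} (h : q.2 ≠ 0) {k : ℤ} (hk : q.2⁻¹ = k) :
    Tendsto (tpsi P) (𝓝[cellU k] q) (germ (some (P k).1.1) q.1) := by
  unfold germ
  rw [tendsto_comap_iff]
  have h1 : ContinuousAt (fun r : ℝ × ℝ => r.2⁻¹) q := continuousAt_snd.inv₀ h
  have h2 : ContinuousAt (fun r : ℝ × ℝ => (r.1 + (1 + r.1 ^ 2) * (r.2⁻¹ - k) / (1 - (r.2⁻¹ - k)),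
      ((P k).1.2 - (P k).1.1) * (r.2⁻¹ - k) * (1 - (r.2⁻¹ - k)) / pN (r.1, r.2⁻¹ - k))) q := by
    have h3 : ContinuousAt (fun r : ℝ × ℝ => r.2⁻¹ - k) q := h1.sub continuousAt_const
    have hN : ContinuousAt (fun r : ℝ × ℝ => pN (r.1, r.2⁻¹ - k)) q := by
      have h4 : Continuous pN := by unfold pN; fun_prop
      exact ContinuousAt.comp (g := pN) h4.continuousAt (continuousAt_fst.prodMk h3)
    refine ContinuousAt.prodMk ?_ ?_
    · refine continuousAt_fst.add (ContinuousAt.div ?_ (continuousAt_const.sub h3) ?_)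
      · exact (continuousAt_const.add (continuousAt_fst.pow 2)).mul h3
      · rw [hk]; norm_num
    · refine ContinuousAt.div ?_ hN (pN_pos _).ne'
      exact (continuousAt_const.mul h3).mul (continuousAt_const.sub h3)
  have h3 := h2.tendsto.mono_left (nhdsWithin_le_nhds (s := cellU k))
  rw [hk] at h3
  have e1 : (q.1 + (1 + q.1 ^ 2) * ((k : ℝ) - k) / (1 - ((k : ℝ) - k)),
      ((P k).1.2 - (P k).1.1) * ((k : ℝ) - k) * (1 - ((k : ℝ) - k)) / pN (q.1, (k : ℝ) - k)) =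
      (q.1, 0) := by
    simp
  rw [e1] at h3
  refine h3.congr' ?_
  filter_upwards [self_mem_nhdsWithin] with r hr
  obtain ⟨hr1, hr2⟩ := hr
  obtain ⟨b0, b1⟩ := tO_bounds hr1
  have e2 : r.2⁻¹ - k = Int.fract r.2⁻¹ := by rw [Int.fract, hr2]
  rw [e2]
  have hy := pF_pos (P k) (q := (r.1, Int.fract r.2⁻¹)) b0 b1
  have e3 := (pF_eqs (P k) (q := (r.1, Int.fract r.2⁻¹)) b0 b1).1
  simp only [Function.comp_apply]
  unfold tpsi
  rw [hr2]
  unfold kap
  simp only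
  rw [toHP_val hy]
  refine Prod.ext ?_ ?_
  · simp only
    rw [e3, mul_div_cancel_left₀ _ hy.ne']
  · simp only [pF]

theorem tpsi_germ_b (P : ℤ → Pc) {q : ℝ × ℝ} (h : q.2 ≠ 0) {k : ℤ} (hk : q.2⁻¹ = k) :
    Tendsto (tpsi P) (𝓝[cellU (k - 1)] q) (germ (some (P (k - 1)).1.2) (-q.1)) := by
  unfold germ
  rw [tendsto_comap_iff]
  have h1 : ContinuousAt (fun r : ℝ × ℝ => r.2⁻¹) q := continuousAt_snd.inv₀ h
  have h2 : ContinuousAt (fun r : ℝ × ℝ => (-(r.1 + (1 - (r.2⁻¹ - (k - 1))) / (r.2⁻¹ - (k - 1))),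
      ((P (k - 1)).1.2 - (P (k - 1)).1.1) * (r.2⁻¹ - (k - 1)) * (1 - (r.2⁻¹ - (k - 1))) /
        pN (r.1, r.2⁻¹ - (k - 1)))) q := by
    have h3 : ContinuousAt (fun r : ℝ × ℝ => r.2⁻¹ - ((k : ℝ) - 1)) q :=
      h1.sub continuousAt_const
    have hN : ContinuousAt (fun r : ℝ × ℝ => pN (r.1, r.2⁻¹ - ((k : ℝ) - 1))) q := by
      have h4 : Continuous pN := by unfold pN; fun_prop
      exact ContinuousAt.comp (g := pN) h4.continuousAt (continuousAt_fst.prodMk h3)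
    refine ContinuousAt.prodMk ?_ ?_
    · refine (continuousAt_fst.add (ContinuousAt.div (continuousAt_const.sub h3) h3 ?_)).neg
      rw [hk]; norm_num
    · refine ContinuousAt.div ?_ hN (pN_pos _).ne'
      exact (continuousAt_const.mul h3).mul (continuousAt_const.sub h3)
  have h3 := h2.tendsto.mono_left (nhdsWithin_le_nhds (s := cellU (k - 1)))
  rw [hk] at h3
  have e0 : (k : ℝ) - (k - 1) = 1 := by ring
  rw [e0] at h3
  have e1 : (-(q.1 + (1 - (1 : ℝ)) / 1),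
      ((P (k - 1)).1.2 - (P (k - 1)).1.1) * 1 * (1 - (1 : ℝ)) / pN (q.1, 1)) =
      (-q.1, 0) := by
    simp
  rw [e1] at h3
  refine h3.congr' ?_
  filter_upwards [self_mem_nhdsWithin] with r hr
  obtain ⟨hr1, hr2⟩ := hr
  obtain ⟨b0, b1⟩ := tO_bounds hr1
  have e2 : r.2⁻¹ - ((k : ℝ) - 1) = Int.fract r.2⁻¹ := by rw [Int.fract, hr2]; push_cast; rfl
  rw [e2]
  have hy := pF_pos (P (k - 1)) (q := (r.1, Int.fract r.2⁻¹)) b0 b1
  have e3 := (pF_eqs (P (k - 1)) (q := (r.1, Int.fract r.2⁻¹)) b0 b1).2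
  simp only [Function.comp_apply]
  unfold tpsi
  rw [hr2]
  unfold kap
  simp only
  rw [toHP_val hy]
  refine Prod.ext ?_ ?_
  · simp only
    have e4 : (pF (P (k - 1)) (r.1, Int.fract r.2⁻¹)).1 - (P (k - 1)).1.2 =
        (pF (P (k - 1)) (r.1, Int.fract r.2⁻¹)).2 *
          (-(r.1 + (1 - Int.fract r.2⁻¹) / Int.fract r.2⁻¹)) := by
      rw [mul_neg, ← e3]; ring
    rw [e4, mul_div_cancel_left₀ _ hy.ne']
  · simp only [pF]

theorem floor_large (N : ℕ) (β : ℝ) : ∀ᶠ q in 𝓝 (β, (0 : ℝ)), q ∈ tO → N ≤ (⌊q.2⁻¹⌋).natAbs := by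
  have h1 : ∀ᶠ q in 𝓝 (β, (0 : ℝ)), |q.2| < 1 / ((N : ℝ) + 1) := by
    have h2 : ContinuousAt (fun q : ℝ × ℝ => |q.2|) (β, 0) := continuousAt_snd.abs
    have h3 : (fun q : ℝ × ℝ => |q.2|) (β, 0) < 1 / ((N : ℝ) + 1) := by
      simp only [abs_zero]
      positivity
    exact h2.eventually (Iio_mem_nhds h3)
  filter_upwards [h1] with q hq hqO
  have h0 := tO_ne hqO
  have h2 : (N : ℝ) + 1 < |q.2⁻¹| := by
    rw [abs_inv]
    have h3 : 0 < |q.2| := abs_pos.2 h0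
    rw [lt_div_iff₀ (by positivity)] at hq
    rw [lt_inv_comm₀ (by positivity) h3]
    rw [inv_eq_one_div, lt_div_iff₀ (by positivity)]
    exact hq
  rcases lt_abs.1 h2 with h3 | h3
  · have h4 : (N : ℤ) ≤ ⌊q.2⁻¹⌋ := by
      rw [Int.le_floor]
      push_cast
      linarith
    omega
  · have h4 : ⌊q.2⁻¹⌋ < -(N : ℤ) := by
      rw [Int.floor_lt]
      push_cast
      linarith
    omega

/-! ### links -/

/-- inverse Pruefer coordinates -/
noncomputable def ik (c : Option ℝ) (q : ℝ × ℝ) : ℝ × ℝ :=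
  match c with
  | some a => (a + q.1 * q.2, q.2)
  | none => (q.1 / q.2, 1 / q.2)

theorem ik_pos (c : Option ℝ) {q : ℝ × ℝ} (h : 0 < q.2) : 0 < (ik c q).2 := by
  rcases c with _ | a
  · exact one_div_pos.2 h
  · exact h

theorem kap_pos (c : Option ℝ) (u : HP) : 0 < (kap c u).2 := by
  rcases c with _ | a
  · exact one_div_pos.2 u.2
  · exact u.2

theorem kap_ik (c : Option ℝ) {q : ℝ × ℝ} (h : 0 < q.2) : kap c (toHP (ik c q)) = q := by
  have h1 := ik_pos c h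
  rcases c with _ | a
  · unfold kap
    simp only
    rw [toHP_val h1]
    unfold ik
    refine Prod.ext ?_ ?_
    · simp only
      field_simp
    · simp only
      field_simp
  · unfold kap
    simp only
    rw [toHP_val h1]
    unfold ik
    refine Prod.ext ?_ ?_
    · simp only
      field_simp
      ring
    · rfl

theorem ik_kap (c : Option ℝ) (u : HP) : toHP (ik c (kap c u)) = u := by
  have hu := u.2
  have h1 : ik c (kap c u) = u.1 := by
    rcases c with _ | a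
    · unfold kap ik
      refine Prod.ext ?_ ?_
      · simp only
        field_simp
      · simp only
        field_simp
    · unfold kap ik
      refine Prod.ext ?_ ?_
      · simp only
        field_simp
        ring
      · rfl
  rw [h1, toHP_coe]

theorem continuousAt_ik (c : Option ℝ) {q : ℝ × ℝ} (h : 0 < q.2) :
    ContinuousAt (fun r => toHP (ik c r)) q := by
  refine ContinuousAt.comp (g := toHP) (continuousAt_toHP (ik_pos c h)) ?_
  rcases c with _ | a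
  · unfold ik
    exact (continuousAt_fst.div continuousAt_snd h.ne').prodMk
      (continuousAt_const.div continuousAt_snd h.ne')
  · unfold ik
    fun_prop

/-- domain of the link maps -/
def lO : Set (ℝ × ℝ) := {q | q.2 ≠ 0}

/-- reflection -/
def rfx (q : ℝ × ℝ) : ℝ × ℝ := (q.1, -q.2)

theorem rfx_rfx (q : ℝ × ℝ) : rfx (rfx q) = q := by simp [rfx]

theorem continuous_rfx : Continuous rfx := by unfold rfx; fun_prop

/-- link maps -/
noncomputable def lpsi (c c' : Option ℝ) (q : ℝ × ℝ) : HP :=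
  if 0 < q.2 then toHP (ik c q) else toHP (ik c' (rfx q))

/-- inverses -/
noncomputable def lG (c c' : Option ℝ) (s : Bool) (u : HP) : ℝ × ℝ :=
  if s then rfx (kap c' u) else kap c u

theorem isOpen_lO : IsOpen lO := isOpen_ne_fun continuous_snd continuous_const

theorem lpsi_of_pos (c c' : Option ℝ) {q : ℝ × ℝ} (h : 0 < q.2) :
    lpsi c c' q = toHP (ik c q) := if_pos h

theorem lpsi_of_neg (c c' : Option ℝ) {q : ℝ × ℝ} (h : q.2 < 0) :
    lpsi c c' q = toHP (ik c' (rfx q)) := if_neg (not_lt.2 h.le)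

theorem lpsi_continuousAt (c c' : Option ℝ) {q : ℝ × ℝ} (hq : q ∈ lO) :
    ContinuousAt (lpsi c c') q := by
  rcases lt_or_gt_of_ne (show q.2 ≠ 0 from hq) with h | h
  · have h1 : (fun r => toHP (ik c' (rfx r))) =ᶠ[𝓝 q] lpsi c c' := by
      have h2 : ∀ᶠ r : ℝ × ℝ in 𝓝 q, r.2 < 0 := continuousAt_snd.eventually (Iio_mem_nhds h)
      exact h2.mono fun r hr => (lpsi_of_neg c c' hr).symm
    refine ContinuousAt.congr ?_ h1
    have h2 : 0 < (rfx q).2 := neg_pos.2 h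
    exact ContinuousAt.comp (g := fun r => toHP (ik c' r)) (continuousAt_ik c' h2)
      continuous_rfx.continuousAt
  · have h1 : (fun r => toHP (ik c r)) =ᶠ[𝓝 q] lpsi c c' := by
      have h2 : ∀ᶠ r : ℝ × ℝ in 𝓝 q, 0 < r.2 := continuousAt_snd.eventually (Ioi_mem_nhds h)
      exact h2.mono fun r hr => (lpsi_of_pos c c' hr).symm
    exact ContinuousAt.congr (continuousAt_ik c h) h1

theorem continuous_lG (c c' : Option ℝ) (s : Bool) : Continuous (lG c c' s) := by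
  unfold lG
  cases s
  · simpa using continuous_kap c
  · simp only [if_true]
    exact continuous_rfx.comp (continuous_kap c')

theorem lpsi_lG (c c' : Option ℝ) (s : Bool) (u : HP) : lpsi c c' (lG c c' s u) = u := by
  unfold lG
  cases s
  · simp only [Bool.false_eq_true, if_false]
    rw [lpsi_of_pos c c' (kap_pos c u), ik_kap]
  · simp only [if_true]
    have h1 := kap_pos c' u
    have h2 : (rfx (kap c' u)).2 < 0 := neg_neg_iff_pos.2 h1
    rw [lpsi_of_neg c c' h2, rfx_rfx, ik_kap]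

theorem lG_lpsi (c c' : Option ℝ) {q : ℝ × ℝ} (hq : q ∈ lO) : ∃ s, lG c c' s (lpsi c c' q) = q := by
  rcases lt_or_gt_of_ne (show q.2 ≠ 0 from hq) with h | h
  · refine ⟨true, ?_⟩
    have h2 : 0 < (rfx q).2 := neg_pos.2 h
    rw [lpsi_of_neg c c' h]
    simp only [lG, if_true]
    rw [kap_ik c' h2, rfx_rfx]
  · refine ⟨false, ?_⟩
    rw [lpsi_of_pos c c' h]
    simp only [lG, Bool.false_eq_true, if_false]
    rw [kap_ik c h]

theorem lG_mem (c c' : Option ℝ) (s : Bool) (u : HP) : lG c c' s u ∈ lO := by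
  unfold lG
  cases s
  · simp only [Bool.false_eq_true, if_false]
    exact (kap_pos c u).ne'
  · simp only [if_true]
    have h2 : (rfx (kap c' u)).2 < 0 := neg_neg_iff_pos.2 (kap_pos c' u)
    exact h2.ne

theorem lpsi_open (c c' : Option ℝ) {V : Set (ℝ × ℝ)} (hV : IsOpen V) (hVO : V ⊆ lO) :
    IsOpen (lpsi c c' '' V) :=
  isOpen_image_of_inverses (continuous_lG c c') (lpsi_lG c c') (fun _ hq => lG_lpsi c c' hq) hV hVO

theorem dense_lO : Dense lO := by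
  have h2 := (dense_univ (X := ℝ)).prod ((countable_singleton (0 : ℝ)).dense_compl ℝ)
  refine h2.mono ?_
  rintro q ⟨-, hq⟩
  exact hq

/-- half planes -/
def halfP (s : Bool) : Set (ℝ × ℝ) := if s then {q | q.2 < 0} else {q | 0 < q.2}

theorem lpsi_germ (c c' : Option ℝ) (β : ℝ) :
    Tendsto (lpsi c c') (𝓝[{q | 0 < q.2}] (β, 0)) (germ c β) ∧
    Tendsto (lpsi c c') (𝓝[{q | q.2 < 0}] (β, 0)) (germ c' β) := by
  constructor
  · unfold germ
    rw [tendsto_comap_iff]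
    have h1 : Tendsto (fun q : ℝ × ℝ => q) (𝓝[{q | 0 < q.2}] (β, 0)) (𝓝 (β, 0)) :=
      nhdsWithin_le_nhds
    refine h1.congr' ?_
    filter_upwards [self_mem_nhdsWithin] with r hr
    simp only [Function.comp_apply]
    rw [lpsi_of_pos c c' hr, kap_ik c hr]
  · unfold germ
    rw [tendsto_comap_iff]
    have h1 : Tendsto rfx (𝓝[{q | q.2 < 0}] (β, 0)) (𝓝 (β, 0)) := by
      have h2 := (continuous_rfx.tendsto (β, (0 : ℝ))).mono_left
        (nhdsWithin_le_nhds (s := {q : ℝ × ℝ | q.2 < 0}))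
      have h3 : rfx (β, 0) = (β, 0) := by simp [rfx]
      rwa [h3] at h2
    refine h1.congr' ?_
    filter_upwards [self_mem_nhdsWithin] with r hr
    have h2 : 0 < (rfx r).2 := neg_pos.2 hr
    simp only [Function.comp_apply]
    rw [lpsi_of_neg c c' hr, kap_ik c' h2]

end Pool.Agent.PCM
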