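import Mathlib

/-! Set theoretic preliminaries: recursion, injective choice, dense open families of infinite
subsets of `ℕ` modulo finite sets. -/

open Set Cardinal

namespace Pool.Agent.PCM

universe u v

theorem exists_rec {I : Type u} {α : Type v} [Nonempty α] {r : I → I → Prop} (hwf : WellFounded r)
    (htr : ∀ i j k, r i j → r j k → r i k)
    (P : ∀ i : I, (∀ j, r j i → α) → α → Prop)
    (h : ∀ i (f : ∀ j, r j i → α),
      (∀ j (hj : r j i), P j (fun k hk => f k (htr _ _ _ hk hj)) (f j hj)) → ∃ x, P i f x) :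
    ∃ F : I → α, ∀ i, P i (fun j _ => F j) (F i) := by
  classical
  let step : ∀ i : I, (∀ j, r j i → α) → α := fun i f =>
    if hx : ∃ x, P i f x then hx.choose else Classical.arbitrary α
  refine ⟨hwf.fix step, ?_⟩
  intro i
  induction i using hwf.induction with
  | _ i ih =>
    have hex := h i (fun j _ => hwf.fix step j) (fun j hj => ih j hj)
    have e1 : hwf.fix step i = step i (fun j _ => hwf.fix step j) := hwf.fix_eq step i
    rw [e1]
    simp only [step]
    rw [dif_pos hex]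
    exact hex.choose_spec

theorem exists_injective_choice {Q M : Type u} (S : Q → Set M)
    (hS : ∀ q, #Q ≤ #(S q)) :
    ∃ f : Q → M, Function.Injective f ∧ ∀ q, f q ∈ S q := by
  by_cases hne : Nonempty Q
  swap
  · exact ⟨fun q => absurd ⟨q⟩ hne, fun q => absurd ⟨q⟩ hne, fun q => absurd ⟨q⟩ hne⟩
  obtain ⟨q₀⟩ := hne
  have hM : Nonempty M := by
    have h1 : S q₀ ≠ ∅ := by
      intro h
      have h2 := hS q₀
      have h4 : IsEmpty (S q₀) := by
        rw [h]
        infer_instance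
      rw [@mk_eq_zero _ h4] at h2
      have h3 : #Q = 0 := le_antisymm h2 (zero_le)
      rw [mk_eq_zero_iff] at h3
      exact h3.false q₀
    obtain ⟨m, -⟩ := nonempty_iff_ne_empty.2 h1
    exact ⟨m⟩
  obtain ⟨_, _, hord⟩ := exists_ord_eq_type_lt Q
  obtain ⟨F, hF⟩ := exists_rec (α := M) (r := fun a b : Q => a < b) wellFounded_lt
    (fun _ _ _ => lt_trans) (fun q f x => x ∈ S q ∧ ∀ j (hj : j < q), f j hj ≠ x) (by
      intro q f _
      have h1 : #(Iio q) < #(S q) := (mk_Iio_lt q hord).trans_le (hS q)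
      have h2 : ¬ (S q ⊆ range fun j : Iio q => f j.1 j.2) := by
        intro hsub
        exact absurd ((mk_le_mk_of_subset hsub).trans mk_range_le) (not_le.2 h1)
      rw [not_subset] at h2
      obtain ⟨x, hx, hx2⟩ := h2
      exact ⟨x, hx, fun j hj h => hx2 ⟨⟨j, hj⟩, h⟩⟩)
  refine ⟨F, ?_, fun q => (hF q).1⟩
  intro a b hab
  rcases lt_trichotomy a b with h | h | h
  · exact absurd hab ((hF b).2 a h)
  · exact h
  · exact absurd hab.symm ((hF a).2 b h)

/-- almost inclusion -/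
def AS (A B : Set ℕ) : Prop := (A \ B).Finite

theorem AS.of_subset {A B : Set ℕ} (h : A ⊆ B) : AS A B := by
  unfold AS
  rw [sdiff_eq_empty.2 h]
  exact finite_empty

theorem AS.refl (A : Set ℕ) : AS A A := AS.of_subset (Subset.refl A)

theorem AS.trans {A B C : Set ℕ} (h : AS A B) (h' : AS B C) : AS A C := by
  refine (Finite.union h h').subset ?_
  rintro x ⟨h1, h2⟩
  by_cases hx : x ∈ B
  · exact Or.inr ⟨hx, h2⟩
  · exact Or.inl ⟨h1, hx⟩

theorem AS.mono_left {A B C : Set ℕ} (h : AS A B) (h' : C ⊆ A) : AS C B :=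
  (AS.of_subset h').trans h

/-- if `E` meets `A` and `A` is almost contained in `B` then `E` meets `B` -/
theorem AS.inter_infinite {A B E : Set ℕ} (h : AS A B) (hE : (A ∩ E).Infinite) :
    (B ∩ E).Infinite := by
  intro hf
  refine hE ((h.union hf).subset ?_)
  rintro x ⟨h1, h2⟩
  by_cases hx : x ∈ B
  · exact Or.inr ⟨hx, h2⟩
  · exact Or.inl ⟨h1, hx⟩

/-- dense open families -/
structure DO (D : Set (Set ℕ)) : Prop where
  opn : ∀ A ∈ D, ∀ B : Set ℕ, B.Infinite → AS B A → B ∈ D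
  dns : ∀ E : Set ℕ, E.Infinite → ∃ A, A ⊆ E ∧ A.Infinite ∧ A ∈ D

theorem DO.inter {D D' : Set (Set ℕ)} (h : DO D) (h' : DO D') : DO (D ∩ D') := by
  refine ⟨fun A hA B hB hBA => ⟨h.opn A hA.1 B hB hBA, h'.opn A hA.2 B hB hBA⟩, ?_⟩
  intro E hE
  obtain ⟨A, hAE, hA, hAD⟩ := h.dns E hE
  obtain ⟨B, hBA, hB, hBD⟩ := h'.dns A hA
  exact ⟨B, hBA.trans hAE, hB, h.opn A hAD B hB (AS.of_subset hBA), hBD⟩

/-- pseudo-intersection of a decreasing sequence -/
theorem exists_pseudo {A : ℕ → Set ℕ} (hA : ∀ n, (A n).Infinite) (hd : ∀ n, A (n + 1) ⊆ A n) :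
    ∃ B, B ⊆ A 0 ∧ B.Infinite ∧ ∀ n, AS B (A n) := by
  have hmono : ∀ m n, m ≤ n → A n ⊆ A m := by
    intro m n hmn
    induction hmn with
    | refl => exact Subset.refl _
    | step _ ih => exact (hd _).trans ih
  have hex : ∀ n k : ℕ, ∃ x ∈ A n, k < x := fun n k => (hA n).exists_gt k
  choose g hg hgk using hex
  let f : ℕ → ℕ := fun n => Nat.rec (g 0 0) (fun n x => g (n + 1) x) n
  have hf0 : f 0 = g 0 0 := rfl
  have hfs : ∀ n, f (n + 1) = g (n + 1) (f n) := fun n => rfl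
  have hfA : ∀ n, f n ∈ A n := by
    intro n
    cases n with
    | zero => exact hg 0 0
    | succ n => rw [hfs]; exact hg _ _
  have hfm : StrictMono f := strictMono_nat_of_lt_succ fun n => by rw [hfs]; exact hgk _ _
  refine ⟨range f, ?_, infinite_range_of_injective hfm.injective, ?_⟩
  · rintro _ ⟨n, rfl⟩
    exact hmono 0 n (Nat.zero_le _) (hfA n)
  · intro n
    refine ((finite_lt_nat n).image f).subset ?_
    rintro _ ⟨⟨m, rfl⟩, hm⟩
    refine ⟨m, ?_, rfl⟩
    by_contra hmn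
    exact hm (hmono n m (not_lt.1 hmn) (hfA m))

theorem DO.iInter_nat {D : ℕ → Set (Set ℕ)} (h : ∀ n, DO (D n)) : DO {A | ∀ n, A ∈ D n} := by
  refine ⟨fun A hA B hB hBA n => (h n).opn A (hA n) B hB hBA, ?_⟩
  intro E hE
  have hex : ∀ n (F : {F : Set ℕ // F.Infinite}), ∃ G : {F : Set ℕ // F.Infinite},
      G.1 ⊆ F.1 ∧ G.1 ∈ D n := by
    intro n F
    obtain ⟨A, h1, h2, h3⟩ := (h n).dns F.1 F.2
    exact ⟨⟨A, h2⟩, h1, h3⟩
  choose g hg hgD using hex
  let f : ℕ → {F : Set ℕ // F.Infinite} := fun n => Nat.rec (g 0 ⟨E, hE⟩)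
    (fun n x => g (n + 1) x) n
  have hfs : ∀ n, f (n + 1) = g (n + 1) (f n) := fun n => rfl
  obtain ⟨B, hB0, hB, hBn⟩ := exists_pseudo (A := fun n => (f n).1) (fun n => (f n).2)
    (fun n => by rw [hfs]; exact hg _ _)
  refine ⟨B, hB0.trans (hg 0 _), hB, ?_⟩
  intro n
  refine (h n).opn (f n).1 ?_ B hB (hBn n)
  cases n with
  | zero => exact hgD _ _
  | succ n => rw [hfs]; exact hgD _ _

/-- transfer of a dense open family along an injection -/
theorem DO.transfer {D : Set (Set ℕ)} (h : DO D) {π : ℕ → ℕ} (hπ : Function.Injective π) :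
    DO {A | π '' A ∈ D} := by
  refine ⟨?_, ?_⟩
  · intro A hA B hB hBA
    refine h.opn _ hA _ (hB.image hπ.injOn) ?_
    refine (Set.Finite.image π hBA).subset ?_
    rintro _ ⟨⟨x, hx, rfl⟩, h2⟩
    exact ⟨x, ⟨hx, fun h3 => h2 ⟨x, h3, rfl⟩⟩, rfl⟩
  · intro E hE
    obtain ⟨B, hBE, hB, hBD⟩ := h.dns (π '' E) (hE.image hπ.injOn)
    have e1 : π '' (π ⁻¹' B) = B := by
      rw [image_preimage_eq_iff]
      intro x hx
      obtain ⟨y, -, rfl⟩ := hBE hx
      exact ⟨y, rfl⟩
    refine ⟨π ⁻¹' B, ?_, ?_, ?_⟩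
    · intro x hx
      obtain ⟨y, hy, hxy⟩ := hBE hx
      rw [← hπ hxy]
      exact hy
    · intro hf
      have := hf.image π
      rw [e1] at this
      exact hB this
    · rw [mem_ofPred, e1]
      exact hBD

/-- a family of dense open sets without common element -/
def Bad (ι : Type) (D : ι → Set (Set ℕ)) : Prop :=
  (∀ i, DO (D i)) ∧ ∀ A : Set ℕ, A.Infinite → ∃ i, A ∉ D i

/-- every infinite set splits into two infinite sets -/
theorem exists_split {G : Set ℕ} (hG : G.Infinite) :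
    ∃ A B : Set ℕ, A ∪ B = G ∧ Disjoint A B ∧ A.Infinite ∧ B.Infinite := by
  obtain ⟨t, u, h1, h2, h3⟩ := hG.exists_union_disjoint_cardinal_eq_of_infinite
  have h4 : t.Infinite ↔ u.Infinite := by
    rw [← Set.infinite_coe_iff, ← Set.infinite_coe_iff, Cardinal.infinite_iff,
      Cardinal.infinite_iff, h3]
  refine ⟨t, u, h1, h2, ?_, ?_⟩
  · by_contra h
    have h5 : ¬ u.Infinite := fun h6 => h (h4.2 h6)
    rw [Set.not_infinite] at h h5
    exact hG (h1 ▸ h.union h5)
  · by_contra h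
    have h5 : ¬ t.Infinite := fun h6 => h (h4.1 h6)
    rw [Set.not_infinite] at h h5
    exact hG (h1 ▸ h5.union h)

theorem exists_bad : ∃ D : Set ℕ → Set (Set ℕ), Bad (Set ℕ) D := by
  refine ⟨fun E => {A | E.Infinite → ¬ AS E A}, ?_, ?_⟩
  · intro E
    refine ⟨?_, ?_⟩
    · intro A hA B hB hBA hE hEB
      exact hA hE (hEB.trans hBA)
    · intro F hF
      by_cases hEF : E.Infinite ∧ AS E F
      · obtain ⟨hE, hEF⟩ := hEF
        have hG : (E ∩ F).Infinite := by
          intro h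
          refine hE ((h.union hEF).subset ?_)
          intro x hx
          by_cases hx2 : x ∈ F
          · exact Or.inl ⟨hx, hx2⟩
          · exact Or.inr ⟨hx, hx2⟩
        obtain ⟨A, B, h1, h2, h3, h4⟩ := exists_split hG
        refine ⟨A, ?_, h3, ?_⟩
        · intro x hx
          have : x ∈ E ∩ F := h1 ▸ Or.inl hx
          exact this.2
        · intro _ hEA
          refine h4 (hEA.subset ?_)
          intro x hx
          have h5 : x ∈ E ∩ F := h1 ▸ Or.inr hx
          exact ⟨h5.1, fun h6 => disjoint_left.1 h2 h6 hx⟩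
      · exact ⟨F, Subset.refl F, hF, fun h1 h2 => hEF ⟨h1, h2⟩⟩
  · intro A hA
    exact ⟨A, fun h => h hA (AS.refl A)⟩

/-- there is a bad family indexed by a well ordered type all of whose initial segments index only
good families; its cardinality is at most the continuum -/
theorem exists_bad_min : ∃ (I : Type) (D : I → Set (Set ℕ)), Bad I D ∧ #I ≤ 𝔠 ∧
    ∀ (ι : Type) (D' : ι → Set (Set ℕ)), #ι < #I → ¬ Bad ι D' := by
  let S : Set Cardinal.{0} := {c | ∃ (ι : Type) (D : ι → Set (Set ℕ)), #ι = c ∧ Bad ι D}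
  have hS : S.Nonempty := by
    obtain ⟨D, hD⟩ := exists_bad
    exact ⟨_, Set ℕ, D, rfl, hD⟩
  obtain ⟨I, D, hI, hD⟩ := csInf_mem hS
  refine ⟨I, D, hD, ?_, ?_⟩
  · rw [hI]
    refine csInf_le' ?_
    obtain ⟨D, hD⟩ := exists_bad
    exact ⟨Set ℕ, D, by rw [mk_set, mk_nat]; rfl, hD⟩
  · intro ι D' h1 h2
    rw [hI] at h1
    have h3 : #ι ∈ S := ⟨ι, D', rfl, h2⟩
    exact absurd (csInf_le' h3) (not_le.2 h1)

/-- smallness: families indexed by `ι` are never bad -/
def Small (ι : Type) : Prop := ∀ D' : ι → Set (Set ℕ), ¬ Bad ι D'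

theorem DO.iInter {ι : Type} (hι : Small ι) {D : ι → Set (Set ℕ)} (h : ∀ i, DO (D i)) :
    DO {A | ∀ i, A ∈ D i} := by
  refine ⟨fun A hA B hB hBA i => (h i).opn A (hA i) B hB hBA, ?_⟩
  intro E hE
  have := hE.to_subtype
  classical
  let π : ℕ ↪o ℕ := Nat.orderEmbeddingOfSet E
  have hπE : range π = E := Nat.orderEmbeddingOfSet_range E
  have h1 := hι (fun i => {A | π '' A ∈ D i})
  have h2 : ∃ A : Set ℕ, A.Infinite ∧ ∀ i, π '' A ∈ D i := by
    by_contra hcon
    push Not at hcon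
    exact h1 ⟨fun i => (h i).transfer π.injective, hcon⟩
  obtain ⟨A, hA, hAD⟩ := h2
  refine ⟨π '' A, ?_, hA.image π.injective.injOn, hAD⟩
  rw [← hπE]
  exact image_subset_range _ _

end Pool.Agent.PCM
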