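import Pool.Agent.Lib_MP_08983e_gt.Tree

/-! The abstract thread lemma. -/

open Set Cardinal

namespace Pool.Agent.PCM

theorem exists_thin (g : ℕ → ℕ) {C : Set ℕ} (hC : C.Infinite) :
    ∃ A ⊆ C, A.Infinite ∧ ∀ k' ∈ A, ∀ k ∈ A, k' < k → g k' ≤ k := by
  have hex : ∀ n : ℕ, ∃ x ∈ C, max n (g n) < x := fun n => hC.exists_gt _
  choose h hh hhk using hex
  let f : ℕ → ℕ := fun n => Nat.rec (h 0) (fun _ x => h x) n
  have hfs : ∀ n, f (n + 1) = h (f n) := fun n => rfl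
  have hfC : ∀ n, f n ∈ C := by
    intro n
    cases n with
    | zero => exact hh 0
    | succ n => rw [hfs]; exact hh _
  have hfm : StrictMono f := strictMono_nat_of_lt_succ fun n => by
    rw [hfs]
    exact lt_of_le_of_lt (le_max_left _ _) (hhk _)
  refine ⟨range f, ?_, infinite_range_of_injective hfm.injective, ?_⟩
  · rintro _ ⟨n, rfl⟩
    exact hfC n
  · rintro _ ⟨j, rfl⟩ _ ⟨l, rfl⟩ hjl
    have h1 : j < l := hfm.lt_iff_lt.1 hjl
    have h2 : g (f j) ≤ f (j + 1) := by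
      rw [hfs]
      exact (le_max_right _ _).trans (hhk _).le
    exact h2.trans (hfm.monotone h1)

theorem DO.decide (p : ℕ → Prop) : DO {A | AS A {k | p k} ∨ AS A {k | ¬ p k}} := by
  refine ⟨?_, ?_⟩
  · rintro A hA B _ hBA
    rcases hA with h | h
    · exact Or.inl (hBA.trans h)
    · exact Or.inr (hBA.trans h)
  · intro E hE
    by_cases h : (E ∩ {k | p k}).Infinite
    · exact ⟨_, inter_subset_left, h, Or.inl (AS.of_subset inter_subset_right)⟩
    · refine ⟨E \ {k | p k}, sdiff_subset, ?_, Or.inr (AS.of_subset fun x hx => hx.2)⟩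
      intro h2
      rw [not_infinite] at h
      refine hE ((h.union h2).subset ?_)
      intro x hx
      by_cases hx2 : p x
      · exact Or.inl ⟨hx, hx2⟩
      · exact Or.inr ⟨hx, hx2⟩

theorem DO.lanes {good : ℕ → ℕ → ℕ → Prop}
    (h : ∀ m i i', i ≠ i' → ∃ N, ∀ k, N ≤ k → good m i k ∨ good m i' k) :
    DO {A | ∀ m, ∃ N, ∀ k' ∈ A, ∀ k ∈ A, k' < k → ∀ i, N ≤ i → i ≤ k' → good m i k} := by
  refine ⟨?_, ?_⟩
  · intro A hA B _ hBA m
    obtain ⟨N, hN⟩ := hA m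
    obtain ⟨N', hN'⟩ := hBA.bddAbove
    have h1 : ∀ x ∈ B, N' < x → x ∈ A := by
      intro x hx hx2
      by_contra h3
      exact absurd (hN' ⟨hx, h3⟩) (not_le.2 hx2)
    refine ⟨max N (N' + 1), ?_⟩
    intro k' hk' k hk hkk i hi hik
    have h2 : N' < k' := by
      have := (le_max_right _ _).trans (hi.trans hik)
      omega
    exact hN k' (h1 k' hk' h2) k (h1 k hk (h2.trans hkk)) hkk i ((le_max_left _ _).trans hi) hik
  · intro E hE
    have h1 : DO {A | ∀ n : ℕ, A ∈ {A : Set ℕ | AS A {k | good n.unpair.1 n.unpair.2 k} ∨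
        AS A {k | ¬ good n.unpair.1 n.unpair.2 k}}} := DO.iInter_nat fun n => DO.decide _
    obtain ⟨C, hCE, hC, hCD⟩ := h1.dns E hE
    have h2 : ∀ m i, AS C {k | good m i k} ∨ AS C {k | ¬ good m i k} := by
      intro m i
      have := hCD (Nat.pair m i)
      simpa using this
    have hbd : ∀ B : Set ℕ, AS C B → ∃ N, ∀ k ∈ C, N ≤ k → k ∈ B := by
      intro B hB
      obtain ⟨N, hN⟩ := hB.bddAbove
      refine ⟨N + 1, fun k hk hNk => ?_⟩
      by_contra h3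
      have := hN ⟨hk, h3⟩
      omega
    have h3 : ∀ m, ∃ i₀, ∀ i, i₀ ≤ i → AS C {k | good m i k} := by
      intro m
      by_contra hcon
      push Not at hcon
      obtain ⟨i, -, hi⟩ := hcon 0
      obtain ⟨i', hii, hi'⟩ := hcon (i + 1)
      obtain ⟨N, hN⟩ := h m i i' (by omega)
      obtain ⟨N1, hN1⟩ := hbd _ ((h2 m i).resolve_left hi)
      obtain ⟨N2, hN2⟩ := hbd _ ((h2 m i').resolve_left hi')
      obtain ⟨k, hk, hkN⟩ := hC.exists_gt (max N (max N1 N2))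
      have e1 : N ≤ k := (le_max_left _ _).trans hkN.le
      have e2 : N1 ≤ k := ((le_max_left _ _).trans (le_max_right _ _)).trans hkN.le
      have e3 : N2 ≤ k := ((le_max_right _ _).trans (le_max_right _ _)).trans hkN.le
      rcases hN k e1 with h4 | h4
      · exact hN1 k hk e2 h4
      · exact hN2 k hk e3 h4
    choose i₀ hi₀ using h3
    have h4 : ∀ m i, ∃ N, i₀ m ≤ i → ∀ k ∈ C, N ≤ k → good m i k := by
      intro m i
      by_cases hmi : i₀ m ≤ i
      · obtain ⟨N, hN⟩ := hbd _ (hi₀ m i hmi)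
        exact ⟨N, fun _ => hN⟩
      · exact ⟨0, fun h5 => absurd h5 hmi⟩
    choose N hN using h4
    obtain ⟨A, hAC, hA, hAg⟩ := exists_thin
      (fun k' => (Finset.range (k' + 1)).sup fun m => (Finset.range (k' + 1)).sup fun i => N m i) hC
    refine ⟨A, hAC.trans hCE, hA, ?_⟩
    intro m
    refine ⟨max (i₀ m) m, ?_⟩
    intro k' hk' k hk hkk i hi hik
    refine hN m i ((le_max_left _ _).trans hi) k (hAC hk) ?_
    refine le_trans ?_ (hAg k' hk' k hk hkk)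
    have hm : m ∈ Finset.range (k' + 1) := by
      rw [Finset.mem_range]
      have := (le_max_right (i₀ m) m).trans (hi.trans hik)
      omega
    have hi2 : i ∈ Finset.range (k' + 1) := by
      rw [Finset.mem_range]
      omega
    exact (Finset.le_sup (f := fun i => N m i) hi2).trans
      (Finset.le_sup (f := fun m => (Finset.range (k' + 1)).sup fun i => N m i) hm)

theorem DO.univ : DO (Set.univ : Set (Set ℕ)) :=
  ⟨fun _ _ _ _ _ => mem_univ _, fun E hE => ⟨E, Subset.refl E, hE, mem_univ _⟩⟩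

theorem exists_threads {T : Type} {r : T → T → Prop} {A : T → Set ℕ} {U : Type}
    {task : T → (ℕ → U)}
    (hwf : WellFounded r) (htr : ∀ a b c, r a b → r b c → r a c)
    (hAD : ∀ s t, s ≠ t → ¬ r s t → ¬ r t s → (A s ∩ A t).Finite)
    (htask : ∀ E : Set ℕ, E.Infinite → ∀ θ, ∃ t, A t ⊆ E ∧ task t = θ)
    (hD : ∀ t (D : T → Set (Set ℕ)), (∀ s, r s t → DO (D s)) →
      ∃ A' ⊆ A t, A'.Infinite ∧ ∀ s, r s t → A' ∈ D s)
    {P : Type} [Nonempty P] (near : ℕ → U → P → Prop) (sep : ℕ → P → P → Prop)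
    (hsymm : ∀ m p q, sep m p q → sep m q p)
    (lane : U → ℕ → Set P) (allowed : T → ℕ → Set P)
    (hlane : ∀ t k u i, (lane u i ∩ allowed t k).Nonempty)
    (hnear : ∀ u i, ∀ p ∈ lane u i, near 2 u p)
    (hsep : ∀ m i i', i ≠ i' → ∃ m', ∀ u q, ¬ near m' u q →
      (∀ p ∈ lane u i, sep m p q) ∨ (∀ p ∈ lane u i', sep m p q))
    (valid : Set ℕ → (ℕ → U) → Prop)
    (hvalid : ∀ E E' u, valid E u → E' ⊆ E → valid E' u) :
    ∃ (S : Set T) (A' : T → Set ℕ) (p : T → ℕ → P),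
      (∀ t ∈ S, (A' t).Infinite ∧ valid (A' t) (task t) ∧
        ∀ k, p t k ∈ allowed t k ∧ ∃ i, p t k ∈ lane (task t k) i) ∧
      (∀ s ∈ S, ∀ t ∈ S, s ≠ t → ∀ m, ∃ N, ∀ k, N ≤ k → k ∈ A' s → k ∈ A' t →
        sep m (p s k) (p t k)) ∧
      (∀ (E : Set ℕ) (u : ℕ → U), E.Infinite → valid E u →
        ∃ s ∈ S, ∃ m, {k | k ∈ E ∧ k ∈ A' s ∧ near m (u k) (p s k)}.Infinite) := by
  classical
  let α := Prop × Set ℕ × (ℕ → P)
  let cond : ∀ t : T, (∀ s, r s t → α) → Prop := fun t f =>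
    valid (A t) (task t) ∧ ∀ s (hs : r s t), (f s hs).1 →
      ∀ m, {k | k ∈ A t ∧ k ∈ (f s hs).2.1 ∧ near m (task t k) ((f s hs).2.2 k)}.Finite
  obtain ⟨F, hF⟩ := exists_rec (α := α) (r := r) hwf htr
    (fun t f x => (x.1 ↔ cond t f) ∧ (x.1 → x.2.1 ⊆ A t ∧ x.2.1.Infinite ∧
      (∀ k, x.2.2 k ∈ allowed t k ∧ ∃ i, x.2.2 k ∈ lane (task t k) i) ∧
      ∀ s (hs : r s t), (f s hs).1 → ∀ m, ∃ N, ∀ k, N ≤ k → k ∈ (f s hs).2.1 → k ∈ x.2.1 →
        sep m (x.2.2 k) ((f s hs).2.2 k))) (by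
      intro t f _
      by_cases hc : cond t f
      swap
      · exact ⟨(False, ∅, fun _ => Classical.arbitrary P), ⟨fun h => h.elim, fun h => hc h⟩,
          fun h => h.elim⟩
      obtain ⟨hv, hfin⟩ := hc
      let D : T → Set (Set ℕ) := fun s => if hs : r s t ∧ ∃ hs : r s t, (f s hs).1 then
        {B | ∀ m, ∃ N, ∀ k' ∈ B, ∀ k ∈ B, k' < k → ∀ i, N ≤ i → i ≤ k' →
          (k ∈ A t → k ∈ (f s hs.1).2.1 → ∀ p ∈ lane (task t k) i,
            sep m p ((f s hs.1).2.2 k))} else Set.univ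
      have hDO : ∀ s, r s t → DO (D s) := by
        intro s hst
        simp only [D]
        split_ifs with hs
        · refine DO.lanes (good := fun m i k => k ∈ A t → k ∈ (f s hs.1).2.1 →
            ∀ p ∈ lane (task t k) i, sep m p ((f s hs.1).2.2 k)) ?_
          intro m i i' hii
          obtain ⟨m', hm'⟩ := hsep m i i' hii
          obtain ⟨hs1, hs2⟩ := hs.2
          obtain ⟨N, hN⟩ := (hfin s hs1 hs2 m').bddAbove
          refine ⟨N + 1, ?_⟩
          intro k hk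
          by_cases hk1 : k ∈ A t ∧ k ∈ (f s hs1).2.1
          · have h1 : ¬ near m' (task t k) ((f s hs1).2.2 k) := by
              intro h2
              have := hN ⟨hk1.1, hk1.2, h2⟩
              omega
            rcases hm' _ _ h1 with h2 | h2
            · exact Or.inl fun _ _ => h2
            · exact Or.inr fun _ _ => h2
          · left
            intro h1 h2
            exact absurd ⟨h1, h2⟩ hk1
        · exact DO.univ
      obtain ⟨A', hA't, hA', hA'D⟩ := hD t D hDO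
      let n : ℕ → ℕ := fun k => Nat.findGreatest (fun j => j ∈ A' ∧ j < k) k
      have hn : ∀ k₁ ∈ A', ∀ k, k₁ < k → k₁ ≤ n k ∧ n k ∈ A' ∧ n k < k := by
        intro k₁ hk₁ k hk
        have h1 : k₁ ≤ n k := Nat.le_findGreatest hk.le ⟨hk₁, hk⟩
        have h2 : (n k ∈ A' ∧ n k < k) :=
          Nat.findGreatest_spec (P := fun j => j ∈ A' ∧ j < k) hk.le ⟨hk₁, hk⟩
        exact ⟨h1, h2⟩
      have hex : ∀ k, ∃ q, q ∈ lane (task t k) (n k) ∧ q ∈ allowed t k := fun k =>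
        hlane t k (task t k) (n k)
      choose q hq1 hq2 using hex
      refine ⟨(True, A', q), ⟨fun _ => ⟨hv, hfin⟩, fun _ => trivial⟩, fun _ =>
        ⟨hA't, hA', fun k => ⟨hq2 k, n k, hq1 k⟩, ?_⟩⟩
      intro s hs hfs m
      have h1 := hA'D s hs
      have hs' : r s t ∧ ∃ hs : r s t, (f s hs).1 := ⟨hs, hs, hfs⟩
      simp only [D] at h1
      rw [dif_pos hs'] at h1
      obtain ⟨N, hN⟩ := h1 m
      obtain ⟨k₁, hk₁, hk₁N⟩ := hA'.exists_gt N
      refine ⟨k₁ + 1, ?_⟩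
      intro k hk hks hkA
      obtain ⟨h2, h3, h4⟩ := hn k₁ hk₁ k hk
      exact hN (n k) h3 k hkA h4 (n k) (hk₁N.le.trans h2) le_rfl (hA't hkA) hks (q k) (hq1 k))
  refine ⟨{t | (F t).1}, fun t => (F t).2.1, fun t => (F t).2.2, ?_, ?_, ?_⟩
  · intro t ht
    obtain ⟨h1, h2, h3, -⟩ := (hF t).2 ht
    exact ⟨h2, hvalid _ _ _ ((hF t).1.1 ht).1 h1, h3⟩
  · intro s hs t ht hst m
    by_cases h1 : r s t
    · obtain ⟨N, hN⟩ := ((hF t).2 ht).2.2.2 s h1 hs m
      exact ⟨N, fun k hk h2 h3 => hsymm _ _ _ (hN k hk h2 h3)⟩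
    · by_cases h2 : r t s
      · obtain ⟨N, hN⟩ := ((hF s).2 hs).2.2.2 t h2 ht m
        exact ⟨N, fun k hk h3 h4 => hN k hk h4 h3⟩
      · obtain ⟨N, hN⟩ := (hAD s t hst h1 h2).bddAbove
        refine ⟨N + 1, fun k hk h3 h4 => ?_⟩
        have := hN ⟨((hF s).2 hs).1 h3, ((hF t).2 ht).1 h4⟩
        omega
  · intro E u hE hv
    obtain ⟨t, htE, rfl⟩ := htask E hE u
    by_cases ht : (F t).1
    · refine ⟨t, ht, 2, ?_⟩
      obtain ⟨h1, h2, h3, -⟩ := (hF t).2 ht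
      refine h2.mono ?_
      intro k hk
      obtain ⟨i, hi⟩ := (h3 k).2
      exact ⟨htE (h1 hk), hk, hnear _ i _ hi⟩
    · have h1 : ¬ cond t (fun s _ => F s) := fun h => ht ((hF t).1.2 h)
      have hv' := hvalid _ _ _ hv htE
      have h2 : ∃ s, r s t ∧ (F s).1 ∧ ∃ m,
          {k | k ∈ A t ∧ k ∈ (F s).2.1 ∧ near m (task t k) ((F s).2.2 k)}.Infinite := by
        by_contra hcon
        push Not at hcon
        exact h1 ⟨hv', fun s hs hfs m => hcon s hs hfs m⟩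
      obtain ⟨s, -, hfs, m, hm⟩ := h2
      refine ⟨s, hfs, m, hm.mono ?_⟩
      rintro k ⟨h3, h4, h5⟩
      exact ⟨htE h3, h4, h5⟩

end Pool.Agent.PCM
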