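import Pool.Agent.Lib_MP_08983e_gt.SetTh

/-! A base tree of infinite subsets of `ℕ` with tasks. -/

open Set Cardinal

namespace Pool.Agent.PCM

/-- sets almost contained in an element of `L` -/
def RF (L : Set (Set ℕ)) : Set (Set ℕ) := {A | ∃ B ∈ L, AS A B}

/-- maximal almost disjoint families inside `G` -/
structure MAD (G L : Set (Set ℕ)) : Prop where
  inf : ∀ A ∈ L, A.Infinite
  sub : L ⊆ G
  ad : ∀ A ∈ L, ∀ B ∈ L, (A ∩ B).Infinite → A = B
  dns : DO (RF L)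

theorem exists_mad {G : Set (Set ℕ)} (hG : DO G) (N : Set (Set ℕ)) (hN : ∀ A ∈ N, A.Infinite)
    (hNG : N ⊆ G) (hNad : ∀ A ∈ N, ∀ B ∈ N, (A ∩ B).Infinite → A = B) :
    ∃ L, N ⊆ L ∧ MAD G L := by
  obtain ⟨L, hNL, hL⟩ := zorn_subset_nonempty
    {L : Set (Set ℕ) | L ⊆ G ∧ (∀ A ∈ L, A.Infinite) ∧
      ∀ A ∈ L, ∀ B ∈ L, (A ∩ B).Infinite → A = B} (by
      intro c hc hchain _
      refine ⟨⋃₀ c, ⟨?_, ?_, ?_⟩, fun s hs => subset_sUnion_of_mem hs⟩
      · intro A hA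
        obtain ⟨L, hL, hAL⟩ := hA
        exact (hc hL).1 hAL
      · intro A hA
        obtain ⟨L, hL, hAL⟩ := hA
        exact (hc hL).2.1 A hAL
      · intro A hA B hB
        obtain ⟨L, hL, hAL⟩ := hA
        obtain ⟨L', hL', hBL⟩ := hB
        rcases hchain.total hL hL' with h | h
        · exact (hc hL').2.2 A (h hAL) B hBL
        · exact (hc hL).2.2 A hAL B (h hBL)) N ⟨hNG, hN, hNad⟩
  refine ⟨L, hNL, hL.prop.2.1, hL.prop.1, hL.prop.2.2, ?_, ?_⟩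
  · rintro A ⟨B, hB, hAB⟩ A' _ hA'A
    exact ⟨B, hB, hA'A.trans hAB⟩
  · intro E hE
    obtain ⟨A, hAE, hA, hAG⟩ := hG.dns E hE
    by_cases hex : ∃ B ∈ L, (B ∩ A).Infinite
    · obtain ⟨B, hB, hBA⟩ := hex
      exact ⟨B ∩ A, inter_subset_right.trans hAE, hBA, B, hB, AS.of_subset inter_subset_left⟩
    · push Not at hex
      refine ⟨A, hAE, hA, A, ?_, AS.refl A⟩
      have h1 : insert A L ∈ {L : Set (Set ℕ) | L ⊆ G ∧ (∀ A ∈ L, A.Infinite) ∧
          ∀ A ∈ L, ∀ B ∈ L, (A ∩ B).Infinite → A = B} := by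
        refine ⟨?_, ?_, ?_⟩
        · intro B hB
          rcases hB with rfl | hB
          · exact hAG
          · exact hL.prop.1 hB
        · intro B hB
          rcases hB with rfl | hB
          · exact hA
          · exact hL.prop.2.1 B hB
        · intro B hB C hC hBC
          rcases hB with rfl | hB
          · rcases hC with rfl | hC
            · rfl
            · rw [inter_comm] at hBC
              exact absurd hBC (not_infinite.2 (hex C hC))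
          · rcases hC with rfl | hC
            · exact absurd hBC (not_infinite.2 (hex B hB))
            · exact hL.prop.2.2 B hB C hC hBC
      exact hL.le_of_ge h1 (subset_insert A L) (mem_insert A L)

/-- sets meeting continuum many elements of `M` -/
def Big (M : Set (Set ℕ)) : Set (Set ℕ) :=
  {E | 𝔠 ≤ #({A : M | (A.1 ∩ E).Infinite} : Set M)}

variable {Θ : Type}

structure Lev (G M L : Set (Set ℕ)) (g : Set ℕ → Θ → Set ℕ) : Prop where
  mad : MAD G M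
  mad' : MAD (RF M) L
  mem : ∀ E ∈ Big M, ∀ θ, g E θ ∈ M ∧ (g E θ ∩ E).Infinite
  mem' : ∀ E ∈ Big M, ∀ θ, g E θ ∩ E ∈ L
  inj : ∀ E ∈ Big M, ∀ E' ∈ Big M, ∀ θ θ', g E θ = g E' θ' → E = E' ∧ θ = θ'

theorem exists_lev (hΘ : #Θ ≤ 𝔠) {G : Set (Set ℕ)} (hG : DO G) :
    ∃ (M L : Set (Set ℕ)) (g : Set ℕ → Θ → Set ℕ), Lev G M L g := by
  classical
  obtain ⟨M, -, hM⟩ := exists_mad hG ∅ (by simp) (by simp) (by simp)
  have hcard : #(Big M × Θ) ≤ 𝔠 := by
    have h1 : #(Big M × Θ) = #(Big M) * #Θ := by simp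
    have h2 : #(Big M) ≤ 𝔠 := by
      refine (mk_set_le _).trans ?_
      rw [mk_set, mk_nat]
      rfl
    rw [h1]
    exact (mul_le_mul' h2 hΘ).trans (le_of_eq continuum_mul_self)
  obtain ⟨f, hfinj, hf⟩ := exists_injective_choice
    (fun q : Big M × Θ => {A : M | (A.1 ∩ q.1.1).Infinite})
    (fun q => hcard.trans q.1.2)
  let g : Set ℕ → Θ → Set ℕ := fun E θ => if h : E ∈ Big M then (f ⟨⟨E, h⟩, θ⟩).1 else ∅
  have hg : ∀ E (h : E ∈ Big M) θ, g E θ = (f ⟨⟨E, h⟩, θ⟩).1 := fun E h θ => dif_pos h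
  have hmem : ∀ E ∈ Big M, ∀ θ, g E θ ∈ M ∧ (g E θ ∩ E).Infinite := by
    intro E hE θ
    rw [hg E hE θ]
    exact ⟨(f ⟨⟨E, hE⟩, θ⟩).2, hf ⟨⟨E, hE⟩, θ⟩⟩
  have hinj : ∀ E ∈ Big M, ∀ E' ∈ Big M, ∀ θ θ', g E θ = g E' θ' → E = E' ∧ θ = θ' := by
    intro E hE E' hE' θ θ' h
    rw [hg E hE θ, hg E' hE' θ'] at h
    have h2 := hfinj (Subtype.ext h)
    simp only [Prod.mk.injEq, Subtype.mk.injEq] at h2
    exact h2
  obtain ⟨L, hNL, hL⟩ := exists_mad hM.dns {B | ∃ E ∈ Big M, ∃ θ, B = g E θ ∩ E}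
    (by
      rintro _ ⟨E, hE, θ, rfl⟩
      exact (hmem E hE θ).2)
    (by
      rintro _ ⟨E, hE, θ, rfl⟩
      exact ⟨_, (hmem E hE θ).1, AS.of_subset inter_subset_left⟩)
    (by
      rintro _ ⟨E, hE, θ, rfl⟩ _ ⟨E', hE', θ', rfl⟩ h
      have h1 : (g E θ ∩ g E' θ').Infinite := by
        refine h.mono ?_
        rintro x ⟨⟨h1, -⟩, h2, -⟩
        exact ⟨h1, h2⟩
      have h2 := hM.ad _ (hmem E hE θ).1 _ (hmem E' hE' θ').1 h1
      obtain ⟨rfl, rfl⟩ := hinj E hE E' hE' θ θ' h2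
      rfl)
  exact ⟨M, L, g, hM, hL, hmem, fun E hE θ => hNL ⟨E, hE, θ, rfl⟩, hinj⟩

theorem exists_levels (hΘ : #Θ ≤ 𝔠) {I : Type} [LinearOrder I] [WellFoundedLT I]
    (hI : ∀ i : I, Small (Iio i)) {D : I → Set (Set ℕ)} (hD : ∀ i, DO (D i)) :
    ∃ (M L : I → Set (Set ℕ)) (g : I → Set ℕ → Θ → Set ℕ),
      ∀ i, Lev {A | A ∈ D i ∧ ∀ j, j < i → A ∈ RF (L j)} (M i) (L i) (g i) := by
  obtain ⟨F, hF⟩ := exists_rec (α := Set (Set ℕ) × Set (Set ℕ) × (Set ℕ → Θ → Set ℕ))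
    (r := fun a b : I => a < b) wellFounded_lt (fun _ _ _ => lt_trans)
    (fun i f x => Lev {A | A ∈ D i ∧ ∀ j (hj : j < i), A ∈ RF (f j hj).2.1} x.1 x.2.1 x.2.2) (by
      intro i f ih
      have h1 : DO {A | A ∈ D i ∧ ∀ j (hj : j < i), A ∈ RF (f j hj).2.1} := by
        have h2 := DO.inter (hD i) (DO.iInter (hI i) (D := fun j : Iio i => RF (f j.1 j.2).2.1)
          (fun j => (ih j.1 j.2).mad'.dns))
        have h3 : {A | A ∈ D i ∧ ∀ j (hj : j < i), A ∈ RF (f j hj).2.1} =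
            D i ∩ {A | ∀ j : Iio i, A ∈ RF (f j.1 j.2).2.1} := by
          ext A
          constructor
          · rintro ⟨h4, h5⟩
            exact ⟨h4, fun j => h5 j.1 j.2⟩
          · rintro ⟨h4, h5⟩
            exact ⟨h4, fun j hj => h5 ⟨j, hj⟩⟩
        rw [h3]
        exact h2
      obtain ⟨M, L, g, h⟩ := exists_lev (Θ := Θ) hΘ h1
      exact ⟨(M, L, g), h⟩)
  exact ⟨fun i => (F i).1, fun i => (F i).2.1, fun i => (F i).2.2, hF⟩

theorem exists_strict_bound {I : Type} [LinearOrder I]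
    (hI : ∀ i : I, Small (Iio i)) {D : I → Set (Set ℕ)} (hD : Bad I D) (s : ℕ → I) :
    ∃ i, ∀ n, s n < i := by
  by_contra hcon
  push Not at hcon
  have h1 : ∀ n, DO (D (s n) ∩ {A | ∀ j : Iio (s n), A ∈ D j.1}) := fun n =>
    DO.inter (hD.1 _) (DO.iInter (hI _) (fun j => hD.1 j.1))
  obtain ⟨A, -, hA, hAD⟩ := (DO.iInter_nat h1).dns univ infinite_univ
  obtain ⟨i, hi⟩ := hD.2 A hA
  obtain ⟨n, hn⟩ := hcon i
  rcases hn.lt_or_eq with h | h
  · exact hi ((hAD n).2 ⟨i, h⟩)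
  · apply hi
    rw [h]
    exact (hAD n).1

theorem exists_splitting {I : Type} [LinearOrder I] {D : I → Set (Set ℕ)} (hD : Bad I D)
    {M L : I → Set (Set ℕ)} {g : I → Set ℕ → Θ → Set ℕ}
    (hlev : ∀ i, Lev {A | A ∈ D i ∧ ∀ j, j < i → A ∈ RF (L j)} (M i) (L i) (g i))
    {F : Set ℕ} (hF : F.Infinite) :
    ∃ ξ : I, ∃ B : Bool → Set ℕ, (∀ b, B b ∈ L ξ) ∧ B true ≠ B false ∧
      ∀ b, (B b ∩ F).Infinite := by
  by_contra hcon
  have h1 : ∀ ξ : I, ∀ B ∈ L ξ, ∀ B' ∈ L ξ, (B ∩ F).Infinite → (B' ∩ F).Infinite → B = B' := by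
    intro ξ B hB B' hB' h2 h3
    by_contra h4
    refine hcon ⟨ξ, fun b => if b = true then B else B', ?_, ?_, ?_⟩
    · intro b
      cases b <;> simp [hB, hB']
    · simpa using h4
    · intro b
      cases b <;> simp [h2, h3]
  obtain ⟨ξ, hξ⟩ := hD.2 F hF
  apply hξ
  obtain ⟨A, hAF, hA, B, hB, hAB⟩ := (hlev ξ).mad'.dns.dns F hF
  have h2 : (B ∩ F).Infinite := hAB.inter_infinite (by rwa [inter_eq_left.2 hAF])
  have h3 : AS F B := by
    by_contra h4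
    obtain ⟨A', hA'F, hA', B', hB', hAB'⟩ := (hlev ξ).mad'.dns.dns (F \ B) h4
    have h5 : (B' ∩ F).Infinite :=
      hAB'.inter_infinite (by rwa [inter_eq_left.2 (hA'F.trans sdiff_subset)])
    have h6 := h1 ξ B hB B' hB' h2 h5
    subst h6
    have h7 : A' \ B = A' := by
      ext x
      exact ⟨fun hx => hx.1, fun hx => ⟨hx, (hA'F hx).2⟩⟩
    unfold AS at hAB'
    rw [h7] at hAB'
    exact hA' hAB'
  obtain ⟨C, hC, hBC⟩ := (hlev ξ).mad'.sub hB
  exact (hD.1 ξ).opn C ((hlev ξ).mad.sub hC).1 F hF (h3.trans hBC)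

/-- the initial segments of a binary sequence -/
def pre (x : ℕ → Bool) : ℕ → List Bool
  | 0 => []
  | n + 1 => x n :: pre x n

theorem pre_congr {x y : ℕ → Bool} : ∀ {n : ℕ}, (∀ m, m < n → x m = y m) → pre x n = pre y n
  | 0, _ => rfl
  | n + 1, h => by
    have h1 := pre_congr (n := n) (fun m hm => h m (Nat.lt_succ_of_lt hm))
    simp only [pre]
    rw [h1, h n (Nat.lt_succ_self n)]

theorem exists_big {I : Type} [LinearOrder I] (hI : ∀ i : I, Small (Iio i))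
    {D : I → Set (Set ℕ)} (hD : Bad I D)
    {M L : I → Set (Set ℕ)} {g : I → Set ℕ → Θ → Set ℕ}
    (hlev : ∀ i, Lev {A | A ∈ D i ∧ ∀ j, j < i → A ∈ RF (L j)} (M i) (L i) (g i))
    {E : Set ℕ} (hE : E.Infinite) : ∃ i, E ∈ Big (M i) := by
  have hsp : ∀ F : {F : Set ℕ // F.Infinite}, ∃ ξ : I, ∃ B : Bool → Set ℕ, (∀ b, B b ∈ L ξ) ∧
      B true ≠ B false ∧ ∀ b, (B b ∩ F.1).Infinite := fun F => exists_splitting hD hlev F.2
  choose ξ B hBL hBne hBF using hsp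
  let Es : List Bool → {F : Set ℕ // F.Infinite} := fun s =>
    List.rec ⟨E, hE⟩ (fun b _ F => ⟨B F b ∩ F.1, hBF F b⟩) s
  have hEs0 : Es [] = ⟨E, hE⟩ := rfl
  have hEsc : ∀ b s, (Es (b :: s)).1 = B (Es s) b ∩ (Es s).1 := fun b s => rfl
  obtain ⟨f, hf⟩ := exists_surjective_nat (List Bool)
  obtain ⟨i, hi⟩ := exists_strict_bound hI hD (fun n => ξ (Es (f n)))
  have hi' : ∀ s, ξ (Es s) < i := by
    intro s
    obtain ⟨n, rfl⟩ := hf s
    exact hi n
  refine ⟨i, ?_⟩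
  have hP : ∀ x : ℕ → Bool, ∃ P : Set ℕ, P ⊆ E ∧ P.Infinite ∧ ∀ n, AS P (Es (pre x n)).1 := by
    intro x
    obtain ⟨P, hP0, hP, hPn⟩ := exists_pseudo (A := fun n => (Es (pre x n)).1)
      (fun n => (Es (pre x n)).2) (fun n => by
        change (Es (x n :: pre x n)).1 ⊆ _
        rw [hEsc]
        exact inter_subset_right)
    exact ⟨P, hP0, hP, hPn⟩
  choose P hPE hP hPn using hP
  have hm : ∀ x : ℕ → Bool, ∃ m : M i, (m.1 ∩ P x).Infinite := by
    intro x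
    obtain ⟨A, hAP, hA, C, hC, hAC⟩ := (hlev i).mad.dns.dns (P x) (hP x)
    exact ⟨⟨C, hC⟩, hAC.inter_infinite (by rwa [inter_eq_left.2 hAP])⟩
  choose m hm using hm
  have hmE : ∀ x, ((m x).1 ∩ E).Infinite := fun x =>
    (hm x).mono (inter_subset_inter_right _ (hPE x))
  have key : ∀ x : ℕ → Bool, ∀ n, ∀ C ∈ L (ξ (Es (pre x n))), AS (m x).1 C →
      C = B (Es (pre x n)) (x n) := by
    intro x n C hC hAC
    refine (hlev _).mad'.ad C hC _ (hBL _ _) ?_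
    refine hAC.inter_infinite ?_
    have h1 : (((Es (pre x (n + 1))).1) ∩ (m x).1).Infinite :=
      (hPn x (n + 1)).inter_infinite (by rw [inter_comm]; exact hm x)
    refine h1.mono ?_
    rintro y ⟨h2, h3⟩
    exact ⟨h3, h2.1⟩
  have hinj : Function.Injective m := by
    intro x y hxy
    by_contra hne
    have hex : ∃ n, x n ≠ y n := by
      by_contra h
      push Not at h
      exact hne (funext h)
    classical
    have hn := Nat.find_spec hex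
    have hmin : ∀ k, k < Nat.find hex → x k = y k := by
      intro k hk
      by_contra h
      exact Nat.find_min hex hk h
    have hpre := pre_congr hmin
    obtain ⟨C, hC, hAC⟩ := ((hlev i).mad.sub (m x).2).2 _ (hi' (pre x (Nat.find hex)))
    have h1 := key x _ C hC hAC
    rw [hpre] at hC h1
    have h2 := key y _ C hC (hxy ▸ hAC)
    have h3 : B (Es (pre y (Nat.find hex))) (x (Nat.find hex)) =
        B (Es (pre y (Nat.find hex))) (y (Nat.find hex)) := h1.symm.trans h2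
    have h4 := hBne (Es (pre y (Nat.find hex)))
    cases hx : x (Nat.find hex) <;> cases hy : y (Nat.find hex)
    · exact hn (hx.trans hy.symm)
    · rw [hx, hy] at h3
      exact h4 h3.symm
    · rw [hx, hy] at h3
      exact h4 h3
    · exact hn (hx.trans hy.symm)
  have hcard : #(ℕ → Bool) ≤ #({A : M i | (A.1 ∩ E).Infinite} : Set (M i)) :=
    mk_le_of_injective (f := fun x => (⟨m x, hmE x⟩ : ({A : M i | (A.1 ∩ E).Infinite} : Set _)))
      (fun x y h => hinj (congrArg Subtype.val h))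
  have h𝔠 : 𝔠 = #(ℕ → Bool) := by simp
  exact le_trans (le_of_eq h𝔠) hcard

/-- the base tree with tasks -/
theorem base_tree (hΘ : #Θ ≤ 𝔠) : ∃ (T : Type) (r : T → T → Prop) (A : T → Set ℕ) (task : T → Θ),
    WellFounded r ∧ (∀ a b c, r a b → r b c → r a c) ∧ #T ≤ 𝔠 ∧ (∀ t, (A t).Infinite) ∧
    (∀ s t, s ≠ t → ¬ r s t → ¬ r t s → (A s ∩ A t).Finite) ∧
    (∀ E : Set ℕ, E.Infinite → ∀ θ, ∃ t, A t ⊆ E ∧ task t = θ) ∧
    (∀ t (D : T → Set (Set ℕ)), (∀ s, r s t → DO (D s)) →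
      ∃ A' ⊆ A t, A'.Infinite ∧ ∀ s, r s t → A' ∈ D s) := by
  obtain ⟨I, D, hD, hIc, hmin⟩ := exists_bad_min
  obtain ⟨_, _, hord⟩ := exists_ord_eq_type_lt I
  have hIio : ∀ i : I, #(Iio i) < #I := fun i => mk_Iio_lt i hord
  have hI : ∀ i : I, Small (Iio i) := fun i D' => hmin _ D' (hIio i)
  obtain ⟨M, L, g, hlev⟩ := exists_levels (Θ := Θ) hΘ hI hD.1
  let T : Type := {p : I × Set ℕ × Θ // p.2.1 ∈ Big (M p.1)}
  let A : T → Set ℕ := fun t => g t.1.1 t.1.2.1 t.1.2.2 ∩ t.1.2.1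
  have hAL : ∀ t : T, A t ∈ L t.1.1 := fun t => (hlev _).mem' _ t.2 _
  have hAinf : ∀ t : T, (A t).Infinite := fun t => ((hlev _).mem _ t.2 _).2
  have hlt : ∀ s t : T, s.1.1 < t.1.1 → (A s ∩ A t).Infinite → AS (A t) (A s) := by
    intro s t hst hinf
    obtain ⟨C, hC, hAC⟩ := (hlev t.1.1).mad'.sub (hAL t)
    obtain ⟨B, hB, hCB⟩ := ((hlev t.1.1).mad.sub hC).2 _ hst
    have h1 : AS (A t) B := hAC.trans hCB
    have h2 : (B ∩ A s).Infinite := h1.inter_infinite (by rwa [inter_comm])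
    have h3 := (hlev s.1.1).mad'.ad B hB (A s) (hAL s) h2
    rwa [h3] at h1
  have heq : ∀ s t : T, s.1.1 = t.1.1 → (A s ∩ A t).Infinite → s = t := by
    rintro ⟨⟨i, E, θ⟩, hs⟩ ⟨⟨j, E', θ'⟩, ht⟩ hij hinf
    simp only at hij
    subst hij
    have h1 : (g i E θ ∩ g i E' θ').Infinite := by
      refine hinf.mono ?_
      rintro x ⟨⟨h1, -⟩, h2, -⟩
      exact ⟨h1, h2⟩
    have h2 := (hlev i).mad.ad _ ((hlev i).mem E hs θ).1 _ ((hlev i).mem E' ht θ').1 h1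
    obtain ⟨rfl, rfl⟩ := (hlev i).inj E hs E' ht θ θ' h2
    rfl
  refine ⟨T, fun s t => s.1.1 < t.1.1 ∧ AS (A t) (A s), A, fun t => t.1.2.2, ?_, ?_, ?_, hAinf,
    ?_, ?_, ?_⟩
  · exact Subrelation.wf (r := InvImage (· < ·) (fun t : T => t.1.1)) (fun h => h.1)
      (InvImage.wf _ wellFounded_lt)
  · intro a b c h1 h2
    exact ⟨h1.1.trans h2.1, h2.2.trans h1.2⟩
  · refine (mk_subtype_le _).trans ?_
    have h1 : #(I × Set ℕ × Θ) = #I * (𝔠 * #Θ) := by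
      simp
    rw [h1]
    refine (mul_le_mul' hIc (mul_le_mul' le_rfl hΘ)).trans ?_
    rw [continuum_mul_self, continuum_mul_self]
  · intro s t hne h1 h2
    by_contra hinf
    rcases lt_trichotomy s.1.1 t.1.1 with h | h | h
    · exact h1 ⟨h, hlt s t h hinf⟩
    · exact hne (heq s t h hinf)
    · refine h2 ⟨h, hlt t s h ?_⟩
      rw [inter_comm]
      exact hinf
  · intro E hE θ
    obtain ⟨i, hi⟩ := exists_big hI hD hlev hE
    exact ⟨⟨(i, E, θ), hi⟩, inter_subset_right, rfl⟩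
  · intro t D' hD'
    have hcard : #{s : T // s.1.1 < t.1.1 ∧ AS (A t) (A s)} < #I := by
      refine lt_of_le_of_lt ?_ (hIio t.1.1)
      refine mk_le_of_injective (f := fun s => (⟨s.1.1.1, s.2.1⟩ : Iio t.1.1)) ?_
      intro s s' h
      have h1 : s.1.1.1 = s'.1.1.1 := congrArg Subtype.val h
      refine Subtype.ext (heq s.1 s'.1 h1 ?_)
      have h2 : ((A s.1) ∩ A t).Infinite :=
        s.2.2.inter_infinite (by rw [inter_self]; exact hAinf t)
      exact s'.2.2.inter_infinite (by rwa [inter_comm]) |>.mono (by rw [inter_comm])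
    obtain ⟨A', h1, h2, h3⟩ := (DO.iInter (fun D'' => hmin _ D'' hcard)
      (D := fun s : {s : T // s.1.1 < t.1.1 ∧ AS (A t) (A s)} => D' s.1)
      (fun s => hD' s.1 s.2)).dns (A t) (hAinf t)
    exact ⟨A', h1, h2, fun s hs => h3 ⟨s, hs⟩⟩

end Pool.Agent.PCM
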