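import Pool.Agent.Lib_MP_08983e_gt.Germs

/-! Windows of scales. -/

open Set Filter Topology

namespace Pool.Agent.PCM

/-- window condition -/
def Win (E : Set ℕ) (s : ℕ → ℝ) : Prop :=
  ((∀ k ∈ E, Even k) ∧ ∀ R : ℝ, ∃ N : ℕ, ∀ k ∈ E, N ≤ k →
    ((k : ℝ) - 1) ^ 2 + R ≤ s k ∧ s k + R ≤ ((k : ℝ) + 1) ^ 2) ∨
  ((∀ k ∈ E, Odd k) ∧ ∃ C : ℝ, ∀ k ∈ E, |s k - (k : ℝ) ^ 2| ≤ C)

theorem Win.mono {E E' : Set ℕ} {s : ℕ → ℝ} (h : Win E s) (h' : E' ⊆ E) : Win E' s := by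
  rcases h with ⟨h1, h2⟩ | ⟨h1, C, h2⟩
  · refine Or.inl ⟨fun k hk => h1 k (h' hk), fun R => ?_⟩
    obtain ⟨N, hN⟩ := h2 R
    exact ⟨N, fun k hk => hN k (h' hk)⟩
  · exact Or.inr ⟨fun k hk => h1 k (h' hk), C, fun k hk => h2 k (h' hk)⟩

theorem Win.large {E : Set ℕ} {s : ℕ → ℝ} (h : Win E s) (R : ℝ) :
    ∃ N : ℕ, ∀ k ∈ E, N ≤ k → R ≤ s k := by
  rcases h with ⟨_, h2⟩ | ⟨_, C, h2⟩
  · obtain ⟨N, hN⟩ := h2 R
    exact ⟨N, fun k hk hNk => by nlinarith [(hN k hk hNk).1]⟩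
  · obtain ⟨N, hN⟩ := exists_nat_ge (|R| + |C| + 1)
    refine ⟨N, fun k hk hNk => ?_⟩
    have h3 := (abs_le.1 (h2 k hk)).1
    have h4 : (N : ℝ) ≤ k := by exact_mod_cast hNk
    have h5 := le_abs_self R
    have h6 := le_abs_self C
    have h7 := abs_nonneg R
    have h8 := abs_nonneg C
    nlinarith

theorem Win.sep_aux1 {E E' : Set ℕ} {s s' : ℕ → ℝ}
    (h : (∀ k ∈ E, Even k) ∧ ∀ R : ℝ, ∃ N : ℕ, ∀ k ∈ E, N ≤ k →
      ((k : ℝ) - 1) ^ 2 + R ≤ s k ∧ s k + R ≤ ((k : ℝ) + 1) ^ 2)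
    (h' : (∀ k ∈ E', Even k) ∧ ∀ R : ℝ, ∃ N : ℕ, ∀ k ∈ E', N ≤ k →
      ((k : ℝ) - 1) ^ 2 + R ≤ s' k ∧ s' k + R ≤ ((k : ℝ) + 1) ^ 2) (R : ℝ) :
    ∃ N : ℕ, ∀ k ∈ E, ∀ k' ∈ E', N ≤ k → N ≤ k' → k < k' → R ≤ s' k' - s k := by
  obtain ⟨N, hN⟩ := h.2 |R|
  obtain ⟨N', hN'⟩ := h'.2 |R|
  refine ⟨max N N', fun k hk k' hk' h1 h2 hlt => ?_⟩
  have h3 := (hN k hk ((le_max_left _ _).trans h1)).2
  have h4 := (hN' k' hk' ((le_max_right _ _).trans h2)).1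
  obtain ⟨a, ha⟩ := h.1 k hk
  obtain ⟨b, hb⟩ := h'.1 k' hk'
  have h5 : k + 2 ≤ k' := by omega
  have h6 : (k : ℝ) + 2 ≤ k' := by exact_mod_cast h5
  have h7 : (0 : ℝ) ≤ k := Nat.cast_nonneg k
  have h8 := le_abs_self R
  have h9 := abs_nonneg R
  nlinarith

theorem Win.sep_aux2 {E E' : Set ℕ} {s s' : ℕ → ℝ}
    (h : (∀ k ∈ E, Odd k) ∧ ∃ C : ℝ, ∀ k ∈ E, |s k - (k : ℝ) ^ 2| ≤ C)
    (h' : (∀ k ∈ E', Odd k) ∧ ∃ C : ℝ, ∀ k ∈ E', |s' k - (k : ℝ) ^ 2| ≤ C) (R : ℝ) :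
    ∃ N : ℕ, ∀ k ∈ E, ∀ k' ∈ E', N ≤ k → N ≤ k' → k < k' → R ≤ s' k' - s k := by
  obtain ⟨C, hC⟩ := h.2
  obtain ⟨C', hC'⟩ := h'.2
  obtain ⟨N, hN⟩ := exists_nat_ge (|R| + |C| + |C'|)
  refine ⟨N, fun k hk k' hk' h1 h2 hlt => ?_⟩
  have h3 := (abs_le.1 (hC k hk)).2
  have h4 := (abs_le.1 (hC' k' hk')).1
  have h5 : k + 1 ≤ k' := by omega
  have h6 : (k : ℝ) + 1 ≤ k' := by exact_mod_cast h5
  have h7 : (N : ℝ) ≤ k := by exact_mod_cast h1
  have h8 := le_abs_self R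
  have h9 := abs_nonneg R
  have h10 := le_abs_self C
  have h11 := abs_nonneg C
  have h12 := le_abs_self C'
  have h13 := abs_nonneg C'
  nlinarith

theorem Win.sep_aux3 {E E' : Set ℕ} {s s' : ℕ → ℝ}
    (h : (∀ k ∈ E, Even k) ∧ ∀ R : ℝ, ∃ N : ℕ, ∀ k ∈ E, N ≤ k →
      ((k : ℝ) - 1) ^ 2 + R ≤ s k ∧ s k + R ≤ ((k : ℝ) + 1) ^ 2)
    (h' : (∀ k ∈ E', Odd k) ∧ ∃ C : ℝ, ∀ k ∈ E', |s' k - (k : ℝ) ^ 2| ≤ C) (R : ℝ) :
    ∃ N : ℕ, ∀ k ∈ E, ∀ k' ∈ E', N ≤ k → N ≤ k' → R ≤ |s' k' - s k| := by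
  obtain ⟨C', hC'⟩ := h'.2
  obtain ⟨N, hN⟩ := h.2 (|R| + |C'|)
  refine ⟨max N 1, fun k hk k' hk' h1 h2 => ?_⟩
  obtain ⟨h3, h3'⟩ := hN k hk ((le_max_left _ _).trans h1)
  have h4 := abs_le.1 (hC' k' hk')
  obtain ⟨a, ha⟩ := h.1 k hk
  obtain ⟨b, hb⟩ := h'.1 k' hk'
  have h8 := le_abs_self R
  have h9 := abs_nonneg R
  have h12 := le_abs_self C'
  have h13 := abs_nonneg C'
  have h7 : (0 : ℝ) ≤ k := Nat.cast_nonneg k
  have h7' : (0 : ℝ) ≤ k' := Nat.cast_nonneg k'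
  rcases lt_or_gt_of_ne (show k ≠ k' by omega) with hlt | hlt
  · have h5 : k + 1 ≤ k' := by omega
    have h6 : (k : ℝ) + 1 ≤ k' := by exact_mod_cast h5
    rw [le_abs]
    left
    nlinarith [h4.1]
  · have h5 : k' + 1 ≤ k := by omega
    have h6 : (k' : ℝ) + 1 ≤ k := by exact_mod_cast h5
    rw [le_abs]
    right
    nlinarith [h4.2]

theorem Win.sep {E E' : Set ℕ} {s s' : ℕ → ℝ} (h : Win E s) (h' : Win E' s') (R : ℝ) :
    ∃ N : ℕ, ∀ k ∈ E, ∀ k' ∈ E', N ≤ k → N ≤ k' → k ≠ k' → R ≤ |s k - s' k'| := by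
  rcases h with h | h <;> rcases h' with h' | h'
  · obtain ⟨N, hN⟩ := Win.sep_aux1 h h' R
    obtain ⟨N', hN'⟩ := Win.sep_aux1 h' h R
    refine ⟨max N N', fun k hk k' hk' h1 h2 hne => ?_⟩
    rcases lt_or_gt_of_ne hne with hlt | hlt
    · rw [le_abs]
      right
      have := hN k hk k' hk' ((le_max_left _ _).trans h1) ((le_max_left _ _).trans h2) hlt
      linarith
    · rw [le_abs]
      left
      exact hN' k' hk' k hk ((le_max_right _ _).trans h2) ((le_max_right _ _).trans h1) hlt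
  · obtain ⟨N, hN⟩ := Win.sep_aux3 h h' R
    exact ⟨N, fun k hk k' hk' h1 h2 _ => by
      rw [abs_sub_comm]
      exact hN k hk k' hk' h1 h2⟩
  · obtain ⟨N, hN⟩ := Win.sep_aux3 h' h R
    exact ⟨N, fun k hk k' hk' h1 h2 _ => hN k' hk' k hk h2 h1⟩
  · obtain ⟨N, hN⟩ := Win.sep_aux2 h h' R
    obtain ⟨N', hN'⟩ := Win.sep_aux2 h' h R
    refine ⟨max N N', fun k hk k' hk' h1 h2 hne => ?_⟩
    rcases lt_or_gt_of_ne hne with hlt | hlt
    · rw [le_abs]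
      right
      have := hN k hk k' hk' ((le_max_left _ _).trans h1) ((le_max_left _ _).trans h2) hlt
      linarith
    · rw [le_abs]
      left
      exact hN' k' hk' k hk ((le_max_right _ _).trans h2) ((le_max_right _ _).trans h1) hlt

theorem Win.index_large {E : Set ℕ} {s : ℕ → ℝ} {n : ℕ → ℕ} (h : Win E (fun k => s (n k)))
    (N' : ℕ) : ∃ N : ℕ, ∀ k ∈ E, N ≤ k → N' ≤ n k := by
  obtain ⟨R, hR⟩ : ∃ R : ℝ, ∀ j, j < N' → s j < R := by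
    induction N' with
    | zero => exact ⟨0, fun j hj => absurd hj (Nat.not_lt_zero j)⟩
    | succ N' ih =>
      obtain ⟨R, hR⟩ := ih
      refine ⟨max R (s N' + 1), fun j hj => ?_⟩
      rcases Nat.lt_succ_iff_lt_or_eq.1 hj with h1 | h1
      · exact lt_of_lt_of_le (hR j h1) (le_max_left _ _)
      · rw [h1]
        exact lt_of_lt_of_le (lt_add_one _) (le_max_right _ _)
  obtain ⟨N, hN⟩ := h.large R
  refine ⟨N, fun k hk hNk => ?_⟩
  by_contra hcon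
  have h1 := hR (n k) (not_le.1 hcon)
  have h2 := hN k hk hNk
  linarith

theorem exists_win {s : ℕ → ℝ} (hs : Tendsto s atTop atTop) :
    ∃ (E : Set ℕ) (n : ℕ → ℕ), E.Infinite ∧ Win E (fun k => s (n k)) := by
  classical
  by_cases hA : ∃ C : ℝ, {k : ℕ | Odd k ∧ ∃ n, |s n - (k : ℝ) ^ 2| ≤ C}.Infinite
  · obtain ⟨C, hC⟩ := hA
    have hex : ∀ k : ℕ, ∃ n, k ∈ {k : ℕ | Odd k ∧ ∃ n, |s n - (k : ℝ) ^ 2| ≤ C} →
        |s n - (k : ℝ) ^ 2| ≤ C := by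
      intro k
      by_cases hk : k ∈ {k : ℕ | Odd k ∧ ∃ n, |s n - (k : ℝ) ^ 2| ≤ C}
      · obtain ⟨n, hn⟩ := hk.2
        exact ⟨n, fun _ => hn⟩
      · exact ⟨0, fun h => absurd h hk⟩
    choose n hn using hex
    exact ⟨_, n, hC, Or.inr ⟨fun k hk => hk.1, C, fun k hk => hn k hk⟩⟩
  · push Not at hA
    let E : Set ℕ := {k | Even k ∧ ∃ n, ((k : ℝ) - 1) ^ 2 ≤ s n ∧ s n ≤ ((k : ℝ) + 1) ^ 2}
    have hex : ∀ k : ℕ, ∃ n, k ∈ E → ((k : ℝ) - 1) ^ 2 ≤ s n ∧ s n ≤ ((k : ℝ) + 1) ^ 2 := by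
      intro k
      by_cases hk : k ∈ E
      · obtain ⟨n, hn⟩ := hk.2
        exact ⟨n, fun _ => hn⟩
      · exact ⟨0, fun h => absurd h hk⟩
    choose n hn using hex
    refine ⟨E, n, ?_, Or.inl ⟨fun k hk => hk.1, fun R => ?_⟩⟩
    · rw [Set.infinite_iff_exists_gt]
      intro N
      obtain ⟨m, hm⟩ := (hs.eventually_ge_atTop (((N : ℝ) + 2) ^ 2)).exists
      have hm0 : 0 ≤ s m := le_trans (by positivity) hm
      obtain ⟨j, hj⟩ : ∃ j : ℕ, j = ⌊Real.sqrt (s m)⌋₊ := ⟨_, rfl⟩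
      have h1 : (j : ℝ) ≤ Real.sqrt (s m) := by
        rw [hj]; exact Nat.floor_le (Real.sqrt_nonneg _)
      have h2 : Real.sqrt (s m) < j + 1 := by
        rw [hj]; exact Nat.lt_floor_add_one _
      have h3 : (j : ℝ) ^ 2 ≤ s m := by
        calc (j : ℝ) ^ 2 ≤ (Real.sqrt (s m)) ^ 2 :=
              pow_le_pow_left₀ (Nat.cast_nonneg j) h1 2
          _ = s m := Real.sq_sqrt hm0
      have h4 : s m < ((j : ℝ) + 1) ^ 2 := by
        calc s m = (Real.sqrt (s m)) ^ 2 := (Real.sq_sqrt hm0).symm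
          _ < ((j : ℝ) + 1) ^ 2 := pow_lt_pow_left₀ h2 (Real.sqrt_nonneg _) (by norm_num)
      have h5 : (N : ℝ) + 2 < j + 1 := by
        have h6 : (N : ℝ) + 2 ≤ Real.sqrt (s m) := Real.le_sqrt_of_sq_le hm
        linarith
      have h6 : N + 1 < j := by
        have : (N : ℝ) + 1 < j := by linarith
        exact_mod_cast this
      rcases Nat.even_or_odd j with hev | hod
      · refine ⟨j, ⟨hev, m, ?_, h4.le⟩, by omega⟩
        have h7 : (0 : ℝ) ≤ N := Nat.cast_nonneg N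
        nlinarith
      · refine ⟨j + 1, ⟨hod.add_one, m, ?_, ?_⟩, by omega⟩
        · push_cast
          have : (j : ℝ) + 1 - 1 = j := by ring
          rw [this]
          exact h3
        · push_cast
          have : (0 : ℝ) ≤ j := Nat.cast_nonneg j
          nlinarith
    · have hfin := hA |R|
      obtain ⟨N, hN⟩ := hfin.bddAbove
      refine ⟨N + 2, fun k hk hNk => ?_⟩
      obtain ⟨h1, h2⟩ := hn k hk
      have hR := le_abs_self R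
      have hodd : Odd (k - 1) := by
        obtain ⟨a, ha⟩ := hk.1
        exact ⟨a - 1, by omega⟩
      have hodd' : Odd (k + 1) := hk.1.add_one
      have hcast : ((k - 1 : ℕ) : ℝ) = (k : ℝ) - 1 := by
        rw [Nat.cast_sub (by omega)]; simp
      constructor
      · by_contra hcon
        have h3 : k - 1 ∈ {k : ℕ | Odd k ∧ ∃ n, |s n - (k : ℝ) ^ 2| ≤ |R|} := by
          refine ⟨hodd, n k, ?_⟩
          rw [hcast, abs_le]
          constructor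
          · have := abs_nonneg R
            linarith
          · linarith
        have := hN h3
        omega
      · by_contra hcon
        have h3 : k + 1 ∈ {k : ℕ | Odd k ∧ ∃ n, |s n - (k : ℝ) ^ 2| ≤ |R|} := by
          refine ⟨hodd', n k, ?_⟩
          push_cast
          rw [abs_le]
          constructor
          · linarith
          · have := abs_nonneg R
            linarith
        have := hN h3
        omega

/-- signs -/
def sg (σ : Bool) : ℝ := if σ then 1 else -1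

theorem sg_conflict {σ σ' : Bool} {x : ℝ} (h : 0 < sg σ * x) (h' : 0 < sg σ' * x) : σ = σ' := by
  cases σ <;> cases σ' <;> simp [sg] at h h' ⊢ <;> linarith

/-- valid targets -/
def valid (c : Option ℝ) (σ : Bool) (E : Set ℕ) (u : ℕ → HP) : Prop :=
  (∀ k ∈ E, 0 < sg σ * ((u k).1.1 - bp c)) ∧
  (∀ R : ℝ, ∃ N : ℕ, ∀ k ∈ E, N ≤ k → R ≤ rat c (u k)) ∧
  Win E (fun k => scl c (u k))

theorem valid.mono {c : Option ℝ} {σ : Bool} (E E' : Set ℕ) (u : ℕ → HP) (h : valid c σ E u)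
    (h' : E' ⊆ E) : valid c σ E' u := by
  obtain ⟨h1, h2, h3⟩ := h
  refine ⟨fun k hk => h1 k (h' hk), fun R => ?_, h3.mono h'⟩
  obtain ⟨N, hN⟩ := h2 R
  exact ⟨N, fun k hk => hN k (h' hk)⟩

theorem box_facts {c : Option ℝ} {u v : HP} {C : ℝ} (hC : 0 < C)
    (h1 : |v.1.1 - u.1.1| ≤ C * u.1.2) (h2 : v.1.2 ≤ C * u.1.2) (h3 : 2 * C ≤ rat c u) :
    |scl c v - scl c u| ≤ 1 ∧ rat c u / (2 * C) ≤ rat c v ∧
      ∀ σ, 0 < sg σ * (u.1.1 - bp c) → 0 < sg σ * (v.1.1 - bp c) := by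
  have hu := u.2
  have hv := v.2
  obtain ⟨A, hA⟩ : ∃ A, A = |u.1.1 - bp c| := ⟨_, rfl⟩
  obtain ⟨B, hB⟩ : ∃ B, B = |v.1.1 - bp c| := ⟨_, rfl⟩
  have hrA : rat c u = A / u.1.2 := by rw [hA]; rfl
  have hrB : rat c v = B / v.1.2 := by rw [hB]; rfl
  rw [hrA, le_div_iff₀ hu] at h3
  have hCu : 0 < C * u.1.2 := mul_pos hC hu
  have hA0 : 0 < A := by linarith
  have h4 : A - B ≤ C * u.1.2 := by
    have := abs_sub_abs_le_abs_sub (u.1.1 - bp c) (v.1.1 - bp c)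
    have e2 : u.1.1 - bp c - (v.1.1 - bp c) = u.1.1 - v.1.1 := by ring
    rw [e2, abs_sub_comm u.1.1 v.1.1] at this
    rw [hA, hB]
    linarith
  have h5 : B - A ≤ C * u.1.2 := by
    have := abs_sub_abs_le_abs_sub (v.1.1 - bp c) (u.1.1 - bp c)
    have e2 : v.1.1 - bp c - (u.1.1 - bp c) = v.1.1 - u.1.1 := by ring
    rw [e2] at this
    rw [hA, hB]
    linarith
  have hB0 : 0 < B := by linarith
  have h6 : A ≤ 2 * B := by linarith
  have h7 : B ≤ 2 * A := by linarith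
  refine ⟨?_, ?_, ?_⟩
  · have h8 : |Real.log B - Real.log A| ≤ 1 := by
      rw [abs_le]
      constructor
      · have := Real.log_le_sub_one_of_pos (div_pos hA0 hB0)
        rw [Real.log_div hA0.ne' hB0.ne'] at this
        have h9 : A / B ≤ 2 := by rw [div_le_iff₀ hB0]; exact h6
        linarith
      · have := Real.log_le_sub_one_of_pos (div_pos hB0 hA0)
        rw [Real.log_div hB0.ne' hA0.ne'] at this
        have h9 : B / A ≤ 2 := by rw [div_le_iff₀ hA0]; exact h7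
        linarith
    rcases c with _ | a
    · simp only [bp, Option.getD_none, sub_zero] at hA hB
      simp only [scl]
      rw [← hA, ← hB]
      exact h8
    · simp only [bp, Option.getD_some] at hA hB
      simp only [scl]
      rw [← hA, ← hB]
      have : -Real.log B - -Real.log A = -(Real.log B - Real.log A) := by ring
      rw [this, abs_neg]
      exact h8
  · rw [hrA, hrB, div_div, div_le_div_iff₀ (by positivity) hv]
    nlinarith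
  · intro σ hσ
    have h8 := abs_le.1 h1
    cases σ
    · simp only [sg, Bool.false_eq_true, if_false] at hσ ⊢
      have h9 : A = -(u.1.1 - bp c) := by rw [hA]; exact abs_of_neg (by linarith)
      linarith
    · simp only [sg, if_true] at hσ ⊢
      have h9 : A = u.1.1 - bp c := by rw [hA]; exact abs_of_pos (by linarith)
      linarith

theorem valid_sep {c : Option ℝ} {σ σ' : Bool} {E E' : Set ℕ} {u u' : ℕ → HP}
    (h : valid c σ E u) (h' : valid c σ' E' u') {p p' : ℕ → Pc}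
    (hp : ∀ k, ∃ i, p k ∈ lane (u k) i) (hp' : ∀ k, ∃ i, p' k ∈ lane (u' k) i) (m : ℕ) :
    ∃ N : ℕ, ∀ k ∈ E, ∀ k' ∈ E', N ≤ k → N ≤ k' → (σ ≠ σ' ∨ k ≠ k') → sep m (p k) (p' k') := by
  obtain ⟨N1, hN1⟩ := h.2.1 (2 * (4 * m + 3))
  obtain ⟨N2, hN2⟩ := h'.2.1 (2 * (4 * m + 3))
  obtain ⟨N3, hN3⟩ := h.2.2.sep h'.2.2 3
  refine ⟨max N1 (max N2 N3), fun k hk k' hk' h1 h2 hne v hv => ?_⟩
  obtain ⟨i, hi⟩ := hp k
  obtain ⟨i', hi'⟩ := hp' k'
  obtain ⟨b1, b2⟩ := lane_box hi hv.1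
  obtain ⟨b1', b2'⟩ := lane_box hi' hv.2
  have hC : (0 : ℝ) < 4 * m + 3 := by positivity
  have e1 := hN1 k hk ((le_max_left _ _).trans h1)
  have e2 := hN2 k' hk' (((le_max_left _ _).trans (le_max_right _ _)).trans h2)
  obtain ⟨f1, -, f3⟩ := box_facts hC b1 b2 e1
  obtain ⟨f1', -, f3'⟩ := box_facts hC b1' b2' e2
  have g1 := f3 σ (h.1 k hk)
  have g2 := f3' σ' (h'.1 k' hk')
  have g3 := sg_conflict g1 g2
  rcases hne with hne | hne
  · exact hne g3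
  · have g4 := hN3 k hk k' hk' (((le_max_right _ _).trans (le_max_right _ _)).trans h1)
      (((le_max_right _ _).trans (le_max_right _ _)).trans h2) hne
    have g5 := abs_sub_le (scl c (u k)) (scl c v) (scl c (u' k'))
    rw [abs_sub_comm] at f1
    linarith

theorem mem_tang {c : Option ℝ} {S : Set HP} (hS : S ∈ tang c) :
    ∃ R : ℝ, ∀ v : HP, R ≤ rat c v → R ≤ scl c v → v ∈ S := by
  unfold tang at hS
  obtain ⟨S1, hS1, S2, hS2, h⟩ := mem_inf_iff_superset.1 hS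
  obtain ⟨T1, hT1, hT1'⟩ := mem_comap.1 hS1
  obtain ⟨T2, hT2, hT2'⟩ := mem_comap.1 hS2
  obtain ⟨R1, hR1⟩ := mem_atTop_sets.1 hT1
  obtain ⟨R2, hR2⟩ := mem_atTop_sets.1 hT2
  refine ⟨max R1 R2, fun v h1 h2 => h ⟨hT1' ?_, hT2' ?_⟩⟩
  · exact hR1 _ ((le_max_left _ _).trans h1)
  · exact hR2 _ ((le_max_right _ _).trans h2)

theorem valid_tang {c : Option ℝ} {σ : Bool} {E : Set ℕ} {u : ℕ → HP}
    (h : valid c σ E u) {p : ℕ → Pc}
    (hp : ∀ k, ∃ i, p k ∈ lane (u k) i) (m : ℕ) {S : Set HP} (hS : S ∈ tang c) :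
    ∃ N : ℕ, ∀ k ∈ E, N ≤ k → ∀ v, near m v (p k) → v ∈ S := by
  obtain ⟨R, hR⟩ := mem_tang hS
  have hC : (0 : ℝ) < 4 * m + 3 := by positivity
  obtain ⟨N1, hN1⟩ := h.2.1 (2 * (4 * m + 3) * (1 + |R|))
  obtain ⟨N2, hN2⟩ := h.2.2.large (R + 1)
  refine ⟨max N1 N2, fun k hk h1 v hv => ?_⟩
  obtain ⟨i, hi⟩ := hp k
  obtain ⟨b1, b2⟩ := lane_box hi hv
  have e1 := hN1 k hk ((le_max_left _ _).trans h1)
  have e2 := hN2 k hk ((le_max_right _ _).trans h1)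
  have e3 : 2 * (4 * (m : ℝ) + 3) ≤ rat c (u k) := by
    refine le_trans ?_ e1
    have := abs_nonneg R
    nlinarith
  obtain ⟨f1, f2, -⟩ := box_facts hC b1 b2 e3
  refine hR v ?_ ?_
  · refine le_trans ?_ f2
    rw [le_div_iff₀ (by positivity)]
    have := le_abs_self R
    nlinarith
  · have := (abs_le.1 f1).1
    linarith

end Pool.Agent.PCM
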